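import Pool.Agent.K9h1.EB.Stm

/-!
# The number of coarse-grained contours (leaf GEO3)
-/

set_option autoImplicit false

namespace Pool.Agent.K9h1.EB

section geo3

variable {I : Type} [Fintype I] [DecidableEq I]

set_option linter.unusedSectionVars false

lemma ray_coord (x : I → ℤ) (i c : I) (t : ℕ) :
    (x + (t : ℤ) • un i) c = x c + if c = i then (t : ℤ) else 0 := by
  simp only [un, Pi.add_apply, Pi.smul_apply, Pi.single_apply, smul_eq_mul]
  split_ifs <;> simp

lemma ray_succ (x : I → ℤ) (i : I) (t : ℕ) :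
    x + ((t + 1 : ℕ) : ℤ) • un i = x + (t : ℤ) • un i + un i := by
  push_cast
  rw [add_smul, one_smul, add_assoc]

lemma ray_exit (A : Finset (I → ℤ)) (x : I → ℤ) (i : I) :
    ∃ N : ℕ, ∀ t : ℕ, N ≤ t → x + (t : ℤ) • un i ∉ A := by
  obtain ⟨M, hM⟩ := A.exists_le
  refine ⟨(M i - x i + 1).toNat, fun t ht h => ?_⟩
  have h1 := hM _ h i
  rw [ray_coord] at h1
  simp only [if_true] at h1
  omega

/-- the last point in `A` before the first exit of a ray -/
lemma ray_first (A : Finset (I → ℤ)) (x : I → ℤ) (hx : x ∈ A) (i : I) :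
    ∃ t : ℕ, (∀ s : ℕ, s ≤ t → x + (s : ℤ) • un i ∈ A) ∧ x + (t : ℤ) • un i + un i ∉ A := by
  classical
  obtain ⟨N, hN⟩ := ray_exit A x i
  have hex : ∃ t : ℕ, x + (t : ℤ) • un i ∉ A := ⟨N, hN N le_rfl⟩
  set u := Nat.find hex with hu
  have hu0 : u ≠ 0 := by
    intro h0
    have := Nat.find_spec hex
    rw [← hu, h0] at this
    simp [hx] at this
  obtain ⟨t, ht⟩ := Nat.exists_eq_succ_of_ne_zero hu0
  refine ⟨t, fun s hs => ?_, ?_⟩
  · have := Nat.find_min hex (m := s) (by omega)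
    simpa using this
  · have := Nat.find_spec hex
    rw [← hu, ht, Nat.succ_eq_add_one, ray_succ] at this
    exact this

/-- a finite set is determined by its boundary -/
lemma bd_inj (i0 : I) {A B : Finset (I → ℤ)} (h : bd A = bd B) : A = B := by
  ext x
  obtain ⟨N1, h1⟩ := ray_exit A x i0
  obtain ⟨N2, h2⟩ := ray_exit B x i0
  have key : ∀ s : ℕ, (x + (((max N1 N2) - s : ℕ) : ℤ) • un i0 ∈ A ↔
      x + (((max N1 N2) - s : ℕ) : ℤ) • un i0 ∈ B) := by
    intro s
    induction s with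
    | zero =>
      have ha := h1 (max N1 N2 - 0) (by omega)
      have hb := h2 (max N1 N2 - 0) (by omega)
      tauto
    | succ s ih =>
      by_cases hs : max N1 N2 - s = 0
      · have : max N1 N2 - (s + 1) = max N1 N2 - s := by omega
        rw [this]; exact ih
      · have e1 : max N1 N2 - s = (max N1 N2 - (s + 1)) + 1 := by omega
        rw [e1, ray_succ] at ih
        have e2 : ((x + (((max N1 N2) - (s + 1) : ℕ) : ℤ) • un i0, i0) ∈ bd A ↔
            (x + (((max N1 N2) - (s + 1) : ℕ) : ℤ) • un i0, i0) ∈ bd B) := by rw [h]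
        rw [mem_bd, mem_bd] at e2
        simp only at e2
        tauto
  have := key (max N1 N2)
  simpa using this

/-- a contour around the origin has an edge on a half axis, not too far -/
lemma start_edge (i0 i1 : I) (h01 : i1 ≠ i0) (A : Finset (I → ℤ)) (h0 : (0 : I → ℤ) ∈ A) :
    ∃ t : ℕ, ((t : ℤ) • un i0, i0) ∈ bd A ∧ t + 1 ≤ (bd A).card := by
  obtain ⟨t, ht, ht'⟩ := ray_first A 0 h0 i0
  simp only [zero_add] at ht ht'
  refine ⟨t, ?_, ?_⟩
  · rw [mem_bd]
    intro h
    exact ht' (h.1 (ht t le_rfl))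
  · choose! u hu hu' using fun s (hs : s ≤ t) => ray_first A ((s : ℤ) • un i0) (ht s hs) i1
    have : (Finset.range (t + 1)).card ≤ (bd A).card := by
      refine Finset.card_le_card_of_injOn
        (fun s => ((s : ℤ) • un i0 + (u s : ℤ) • un i1, i1)) ?_ ?_
      · intro s hs
        have hs' : s ≤ t := by simpa [Nat.lt_succ_iff] using hs
        rw [Finset.mem_coe, mem_bd]
        intro h
        exact hu' s hs' (h.1 (hu s hs' _ le_rfl))
      · intro s _ s' _ h
        have h2 := congrFun (congrArg Prod.fst h) i0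
        simp only [un, Pi.add_apply, Pi.smul_apply, Pi.single_apply, smul_eq_mul] at h2
        simp [Ne.symm h01] at h2
        exact h2
    simpa using this

lemma len1_bound (n k : ℕ) (τ : ((I → ℤ) × I) → ℕ) (b : ℕ) (L : List ((I → ℤ) × I)) :
    ∀ (p : I → ℤ) (a : ℕ), a ≤ b → L.Pairwise (fun f g => τ f ≤ τ g) → (∀ f ∈ L, τ f ≤ b) →
      (∀ f ∈ L, n * (∑ c, (f.1 c - p c).natAbs) + k * a ≤ k * τ f + 2 * k * n) →
      (∀ f ∈ L, ∀ g ∈ L, τ f ≤ τ g →
        n * (∑ c, (g.1 c - f.1 c).natAbs) + k * τ f ≤ k * τ g + 2 * k * n) →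
      n * len1 p L + k * a ≤ k * b + 2 * k * n * L.length := by
  induction L with
  | nil =>
    intro p a hab _ _ _ _
    simp only [len1, List.length_nil, mul_zero, zero_add, add_zero]
    exact Nat.mul_le_mul_left k hab
  | cons f L ih =>
    intro p a hab hs hb h1 h2
    rw [List.pairwise_cons] at hs
    have e1 := h1 f (by simp)
    have e2 := ih f.1 (τ f) (hb f (by simp)) hs.2 (fun g hg => hb g (by simp [hg]))
      (fun g hg => h2 f (by simp) g (by simp [hg]) (hs.1 g hg))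
      (fun g hg g' hg' hgg => h2 g (by simp [hg]) g' (by simp [hg']) hgg)
    simp only [len1, List.length_cons]
    have : 2 * k * n * (L.length + 1) = 2 * k * n * L.length + 2 * k * n := by ring
    rw [this, mul_add]
    omega

lemma exists_sorted (D : Finset ((I → ℤ) × I)) (τ : ((I → ℤ) × I) → ℕ) :
    ∃ L : List ((I → ℤ) × I), L.toFinset = D ∧ L.length = D.card ∧
      L.Pairwise (fun f g => τ f ≤ τ g) := by
  refine ⟨D.toList.mergeSort (fun f g => decide (τ f ≤ τ g)), ?_, ?_, ?_⟩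
  · ext x
    rw [List.mem_toFinset, (List.mergeSort_perm _ _).mem_iff, Finset.mem_toList]
  · rw [(List.mergeSort_perm _ _).length_eq, Finset.length_toList]
  · have := List.pairwise_mergeSort (le := fun f g => decide (τ f ≤ τ g))
      (fun a b c h1 h2 => by simp only [decide_eq_true_eq] at *; exact h1.trans h2)
      (fun a b => by simp only [Bool.or_eq_true, decide_eq_true_eq]; exact le_total _ _) D.toList
    simpa using this

lemma walk_close (T : ℕ) (w : ℕ → (I → ℤ) × I) (hw : ∀ t < T, near (w t) (w (t + 1))) (c : I) :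
    ∀ (s u : ℕ), s + u ≤ T → |(w (s + u)).1 c - (w s).1 c| ≤ u := by
  intro s u
  induction u with
  | zero => intro _; simp
  | succ u ih =>
    intro h
    have h1 := ih (by omega)
    have h2 := hw (s + u) (by omega) c
    rw [← add_assoc]
    rw [abs_le] at *
    push_cast
    constructor <;> omega

/-- the list of faces of a coarse-grained contour -/
lemma exists_list (h2 : GEO2) (ht : TOUR) (hk : 2 ≤ Fintype.card I) (n : ℕ) (hn : 1 ≤ n) (m : ℕ)
    (A : Finset (I → ℤ)) (hA : IsCont m A) :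
    (bd (coarse n A)).card * n ^ (Fintype.card I - 1) ≤ 16 * Fintype.card I * m ∧
    ∃ L : List ((I → ℤ) × I), L.toFinset = bd (coarse n A) ∧
      L.length = (bd (coarse n A)).card ∧
      n * len1 0 L ≤ 3 * Fintype.card I * m + 2 * Fintype.card I * n * (bd (coarse n A)).card := by
  obtain ⟨h0, hconn, hm⟩ := hA
  obtain ⟨g1, _, g3⟩ := h2 I (by omega) n hn A
  rw [hm] at g1
  refine ⟨g1, ?_⟩
  obtain ⟨i0, i1, h01⟩ : ∃ i0 i1 : I, i1 ≠ i0 := by
    obtain ⟨a, b, hab⟩ := Fintype.exists_pair_of_one_lt_card (α := I) (by omega)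
    exact ⟨a, b, hab.symm⟩
  obtain ⟨t, ht0, htm⟩ := start_edge i0 i1 h01 A h0
  rw [hm] at htm
  obtain ⟨T, w, hw0, hT, _, hwn, hwall⟩ := ht I (bd A) hconn _ ht0
  rw [hm] at hT
  have hface : ∀ f : (I → ℤ) × I, ∃ s : ℕ, s ≤ T ∧ (f ∈ bd (coarse n A) →
      ∀ c, f.1 c ≤ blk n (w s).1 c ∧ blk n (w s).1 c ≤ f.1 c + 1) := by
    intro f
    by_cases hf : f ∈ bd (coarse n A)
    · obtain ⟨e, he, hec⟩ := g3 f hf
      obtain ⟨s, hs, hse⟩ := hwall e he
      exact ⟨s, hs, fun _ => by rw [hse]; exact hec⟩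
    · exact ⟨0, Nat.zero_le _, fun h => absurd h hf⟩
  choose τ hτT hτ using hface
  obtain ⟨L, hL1, hL2, hL3⟩ := exists_sorted (bd (coarse n A)) τ
  refine ⟨L, hL1, hL2, ?_⟩
  have hmem : ∀ f ∈ L, f ∈ bd (coarse n A) := fun f hf => by rw [← hL1]; simpa using hf
  have hn' : (0 : ℤ) < n := by exact_mod_cast hn
  -- the position of a face
  have hpos : ∀ f ∈ L, ∀ c, (n : ℤ) * f.1 c ≤ (w (τ f)).1 c ∧
      (w (τ f)).1 c < (n : ℤ) * f.1 c + 2 * n := by
    intro f hf c
    obtain ⟨ha, hb⟩ := hτ f (hmem f hf) c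
    simp only [blk] at ha hb
    have e1 := Int.emod_add_mul_ediv ((w (τ f)).1 c) (n : ℤ)
    have e2 := Int.emod_nonneg ((w (τ f)).1 c) hn'.ne'
    have e3 := Int.emod_lt_of_pos ((w (τ f)).1 c) hn'
    constructor
    · nlinarith
    · nlinarith
  have hb := len1_bound n (Fintype.card I) (fun f => τ f + m) (T + m) L 0 0 (Nat.zero_le _)
    (hL3.imp (fun h => by omega)) (fun f _ => by have := hτT f; omega) ?_ ?_
  · rw [hL2] at hb
    have h3 : Fintype.card I * (T + m) ≤ 3 * Fintype.card I * m := by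
      have : T + m ≤ 3 * m := by omega
      calc Fintype.card I * (T + m) ≤ Fintype.card I * (3 * m) := Nat.mul_le_mul_left _ this
        _ = _ := by ring
    omega
  · -- first step
    intro f hf
    have hc : ∀ c, n * (f.1 c - (0 : I → ℤ) c).natAbs ≤ (τ f + m) + 2 * n := by
      intro c
      have e1 := walk_close T w hwn c 0 (τ f) (by have := hτT f; omega)
      rw [zero_add, hw0] at e1
      have e0 : ((t : ℤ) • un i0 : I → ℤ) c = if c = i0 then (t : ℤ) else 0 := by
        have := ray_coord (0 : I → ℤ) i0 c t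
        simpa using this
      simp only at e1
      rw [e0] at e1
      obtain ⟨p1, p2⟩ := hpos f hf c
      have : ((n * (f.1 c - (0 : I → ℤ) c).natAbs : ℕ) : ℤ) ≤ ((τ f + m + 2 * n : ℕ) : ℤ) := by
        push_cast
        simp only [Pi.zero_apply, sub_zero]
        rw [abs_le] at e1
        have hn0 : (n : ℤ) * |f.1 c| = |(n : ℤ) * f.1 c| := by rw [abs_mul, abs_of_pos hn']
        rw [hn0, abs_le]
        split_ifs at e1 <;> constructor <;> omega
      exact_mod_cast this
    calc n * (∑ c, (f.1 c - (0 : I → ℤ) c).natAbs) + Fintype.card I * 0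
        = ∑ c, n * (f.1 c - (0 : I → ℤ) c).natAbs := by rw [mul_zero, add_zero, Finset.mul_sum]
      _ ≤ ∑ _c : I, ((τ f + m) + 2 * n) := Finset.sum_le_sum fun c _ => hc c
      _ = Fintype.card I * (τ f + m) + 2 * Fintype.card I * n := by
        rw [Finset.sum_const, Finset.card_univ, smul_eq_mul]; ring
  · intro f hf g hg hfg
    have hfg' : τ f ≤ τ g := by
      omega
    have hc : ∀ c, n * (g.1 c - f.1 c).natAbs + (τ f + m) ≤ (τ g + m) + 2 * n := by
      intro c
      have e1 := walk_close T w hwn c (τ f) (τ g - τ f) (by have := hτT g; omega)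
      rw [Nat.add_sub_cancel' hfg'] at e1
      rw [Nat.cast_sub hfg'] at e1
      obtain ⟨p1, p2⟩ := hpos f hf c
      obtain ⟨q1, q2⟩ := hpos g hg c
      have : ((n * (g.1 c - f.1 c).natAbs + (τ f + m) : ℕ) : ℤ) ≤
          (((τ g + m) + 2 * n : ℕ) : ℤ) := by
        push_cast
        have hn0 : (n : ℤ) * |g.1 c - f.1 c| = |(n : ℤ) * g.1 c - n * f.1 c| := by
          rw [← mul_sub, abs_mul, abs_of_pos hn']
        rw [hn0]
        rw [abs_le] at e1
        have : |(n : ℤ) * g.1 c - n * f.1 c| ≤ (τ g : ℤ) - τ f + 2 * n := by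
          rw [abs_le]; constructor <;> omega
        omega
      exact_mod_cast this
    calc n * (∑ c, (g.1 c - f.1 c).natAbs) + Fintype.card I * (τ f + m)
        = ∑ c, (n * (g.1 c - f.1 c).natAbs + (τ f + m)) := by
          rw [Finset.sum_add_distrib, Finset.sum_const, Finset.card_univ, smul_eq_mul,
            Finset.mul_sum]
      _ ≤ ∑ _c : I, ((τ g + m) + 2 * n) := Finset.sum_le_sum fun c _ => hc c
      _ = Fintype.card I * (τ g + m) + 2 * Fintype.card I * n := by
        rw [Finset.sum_const, Finset.card_univ, smul_eq_mul]; ring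

end geo3

theorem geo3 (h2 : GEO2) (ht : TOUR) (hl : LISTS) : GEO3 := by
  intro I _ _ hk
  set k := Fintype.card I with hkdef
  have hk1 : (1 : ℝ) ≤ k := by exact_mod_cast (by omega : 1 ≤ k)
  refine ⟨100 * (k : ℝ) ^ 3, by positivity, fun m j F hF => ?_⟩
  set n : ℕ := 2 ^ j with hn
  have hn1 : 1 ≤ n := Nat.one_le_two_pow
  have hnR : (1 : ℝ) ≤ n := by exact_mod_cast hn1
  -- the lists
  have hL : ∀ Q : Finset (I → ℤ), ∃ L : List ((I → ℤ) × I), Q ∈ F →
      ((bd Q).card * n ^ (k - 1) ≤ 16 * k * m ∧ L.toFinset = bd Q ∧ L.length = (bd Q).card ∧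
        n * len1 0 L ≤ 3 * k * m + 2 * k * n * (bd Q).card) := by
    intro Q
    by_cases hQ : Q ∈ F
    · obtain ⟨A, hA, rfl⟩ := hF Q hQ
      obtain ⟨e1, L, e2, e3, e4⟩ := exists_list h2 ht (by omega) n hn1 m A hA
      exact ⟨L, fun _ => ⟨e1, e2, e3, e4⟩⟩
    · exact ⟨[], fun h => absurd h hQ⟩
  choose L hL using hL
  obtain ⟨i0⟩ : Nonempty I := Fintype.card_pos_iff.1 (by omega)
  set ρ : ℝ := (m : ℝ) / 4 ^ j with hρ
  have hρ0 : 0 ≤ ρ := by positivity
  have h4 : ((4 : ℝ) ^ j) = (n : ℝ) ^ 2 := by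
    rw [hn]; push_cast
    rw [← pow_mul, mul_comm j 2, pow_mul]; norm_num
  have hnk : (n : ℝ) ^ 2 ≤ (n : ℝ) ^ (k - 1) := pow_le_pow_right₀ hnR (by omega)
  have hmρ : (m : ℝ) / (n : ℝ) ^ (k - 1) ≤ ρ := by
    rw [hρ, h4]
    exact div_le_div_of_nonneg_left (by positivity) (by positivity) hnk
  -- the bound of the number of faces
  set R : ℕ := ⌊16 * (k : ℝ) * ρ⌋₊ with hR
  have hr : ∀ Q ∈ F, ((bd Q).card : ℝ) ≤ 16 * k * ρ := by
    intro Q hQ
    have e1 : (((bd Q).card * n ^ (k - 1) : ℕ) : ℝ) ≤ ((16 * k * m : ℕ) : ℝ) := by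
      exact_mod_cast (hL Q hQ).1
    push_cast at e1
    have hp : (0 : ℝ) < (n : ℝ) ^ (k - 1) := by positivity
    have e2 : ((bd Q).card : ℝ) ≤ 16 * k * m / (n : ℝ) ^ (k - 1) := by
      rw [le_div_iff₀ hp]; exact e1
    calc ((bd Q).card : ℝ) ≤ 16 * k * m / (n : ℝ) ^ (k - 1) := e2
      _ = 16 * k * (m / (n : ℝ) ^ (k - 1)) := by ring
      _ ≤ 16 * k * ρ := by gcongr
  have hrN : ∀ Q ∈ F, (bd Q).card ∈ Finset.range (R + 1) := by
    intro Q hQ
    rw [Finset.mem_range, Nat.lt_succ_iff, hR]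
    exact Nat.le_floor (hr Q hQ)
  -- the bound for a fixed number of faces
  have hfib : ∀ r ∈ Finset.range (R + 1),
      ((F.filter (fun Q => (bd Q).card = r)).card : ℝ) ≤
        Real.exp ((3 * k + 32 * k ^ 2 + 48 * k ^ 3) * (1 + j) * ρ) := by
    intro r hrR
    have hrr : (r : ℝ) ≤ 16 * k * ρ := by
      rw [Finset.mem_range, Nat.lt_succ_iff, hR] at hrR
      exact (Nat.le_floor_iff (by positivity)).1 hrR
    set x : ℝ := 1 / (n : ℝ) ^ (k - 2) with hx
    have hx0 : 0 < x := by positivity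
    have hx1 : x ≤ 1 := by
      rw [hx, div_le_one (by positivity)]
      exact one_le_pow₀ hnR
    set Lm : ℕ := (3 * k * m + 2 * k * n * r) / n with hLm
    have hcount := hl I x hx0 hx1 r Lm 0 ((F.filter (fun Q => (bd Q).card = r)).image L) (by
      intro l hl'
      obtain ⟨Q, hQ, rfl⟩ := Finset.mem_image.1 hl'
      rw [Finset.mem_filter] at hQ
      obtain ⟨e1, e2, e3, e4⟩ := hL Q hQ.1
      refine ⟨by rw [e3, hQ.2], ?_⟩
      rw [hLm, Nat.le_div_iff_mul_le (by omega), mul_comm]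
      rw [hQ.2] at e4
      exact e4)
    rw [Finset.card_image_of_injOn (by
      intro Q hQ Q' hQ' h
      rw [Finset.mem_coe, Finset.mem_filter] at hQ hQ'
      apply bd_inj i0
      rw [← (hL Q hQ.1).2.1, ← (hL Q' hQ'.1).2.1, h])] at hcount
    refine hcount.trans ?_
    -- first factor
    have hnk1 : (n : ℝ) ^ (k - 1) = n * (n : ℝ) ^ (k - 2) := by
      rw [← pow_succ']; congr 1; omega
    have hLmR : (Lm : ℝ) ≤ (3 * k * m + 2 * k * n * r) / n := by
      rw [hLm]
      refine Nat.cast_div_le.trans (le_of_eq ?_)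
      push_cast; ring
    have hxL : x * Lm ≤ 3 * k * ρ + 32 * k ^ 2 * ρ := by
      calc x * Lm ≤ x * ((3 * k * m + 2 * k * n * r) / n) := by gcongr
        _ = 3 * k * (m / (n : ℝ) ^ (k - 1)) + 2 * k * r * x := by
          rw [hnk1, hx]; field_simp
        _ ≤ 3 * k * ρ + 2 * k * (16 * k * ρ) * 1 := by gcongr
        _ = _ := by ring
    -- second factor
    have hbase : (Fintype.card I : ℝ) * (4 / x) ^ Fintype.card I ≤
        Real.exp (3 * k ^ 2 * (1 + j)) := by
      rw [← hkdef]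
      have e1 : (k : ℝ) ≤ Real.exp k := by
        have := Real.add_one_le_exp (k : ℝ); linarith
      have e2 : (4 : ℝ) ≤ Real.exp 2 := by
        have h1 : (2 : ℝ) ≤ Real.exp 1 := by
          have := Real.add_one_le_exp (1 : ℝ); linarith
        have : Real.exp 2 = Real.exp 1 * Real.exp 1 := by rw [← Real.exp_add]; norm_num
        rw [this]; nlinarith
      have e3 : (n : ℝ) ^ (k - 2) ≤ Real.exp (j * k) := by
        have h1 : (n : ℝ) ≤ Real.exp j := by
          rw [hn]; push_cast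
          have : Real.exp j = Real.exp 1 ^ j := by rw [← Real.exp_nat_mul]; simp
          rw [this]
          have h1 : (2 : ℝ) ≤ Real.exp 1 := by
            have := Real.add_one_le_exp (1 : ℝ); linarith
          gcongr
        calc (n : ℝ) ^ (k - 2) ≤ (n : ℝ) ^ k := pow_le_pow_right₀ hnR (by omega)
          _ ≤ Real.exp j ^ k := by gcongr
          _ = Real.exp (j * k) := by rw [← Real.exp_nat_mul]; ring_nf
      have e4 : 4 / x ≤ Real.exp (2 + j * k) := by
        rw [hx, Real.exp_add]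
        calc 4 / (1 / (n : ℝ) ^ (k - 2)) = 4 * (n : ℝ) ^ (k - 2) := by field_simp
          _ ≤ _ := by gcongr
      calc (k : ℝ) * (4 / x) ^ k ≤ Real.exp k * Real.exp (2 + j * k) ^ k := by gcongr
        _ = Real.exp (k + k * (2 + j * k)) := by rw [← Real.exp_nat_mul, ← Real.exp_add]
        _ ≤ Real.exp (3 * k ^ 2 * (1 + j)) := by
          apply Real.exp_le_exp.2
          have hj : (0 : ℝ) ≤ j := Nat.cast_nonneg _
          nlinarith [mul_nonneg (sq_nonneg (k : ℝ)) hj]
    have hpos : (0 : ℝ) ≤ (Fintype.card I : ℝ) * (4 / x) ^ Fintype.card I := by positivity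
    calc Real.exp (x * Lm) * ((Fintype.card I : ℝ) * (4 / x) ^ Fintype.card I) ^ r
        ≤ Real.exp (3 * k * ρ + 32 * k ^ 2 * ρ) * Real.exp (3 * k ^ 2 * (1 + j)) ^ r := by
          gcongr
      _ = Real.exp (3 * k * ρ + 32 * k ^ 2 * ρ + r * (3 * k ^ 2 * (1 + j))) := by
          rw [← Real.exp_nat_mul, ← Real.exp_add]
      _ ≤ _ := by
          apply Real.exp_le_exp.2
          have hj : (0 : ℝ) ≤ j := Nat.cast_nonneg _
          have h5 : (r : ℝ) * (3 * k ^ 2 * (1 + j)) ≤ (16 * k * ρ) * (3 * k ^ 2 * (1 + j)) := by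
            gcongr
          have h6 : 0 ≤ (3 * k * ρ + 32 * k ^ 2 * ρ) * j := by positivity
          nlinarith
  -- summation
  have hsum : F.card = ∑ r ∈ Finset.range (R + 1), (F.filter (fun Q => (bd Q).card = r)).card :=
    Finset.card_eq_sum_card_fiberwise hrN
  have hRR : ((R : ℝ) + 1) ≤ Real.exp (16 * k * ρ) := by
    have e1 : (R : ℝ) ≤ 16 * k * ρ := Nat.floor_le (by positivity)
    have e2 := Real.add_one_le_exp (16 * (k : ℝ) * ρ)
    linarith
  calc (F.card : ℝ) = ∑ r ∈ Finset.range (R + 1),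
        ((F.filter (fun Q => (bd Q).card = r)).card : ℝ) := by rw [hsum]; push_cast; rfl
    _ ≤ ∑ _r ∈ Finset.range (R + 1),
        Real.exp ((3 * k + 32 * k ^ 2 + 48 * k ^ 3) * (1 + j) * ρ) := Finset.sum_le_sum hfib
    _ = ((R : ℝ) + 1) * Real.exp ((3 * k + 32 * k ^ 2 + 48 * k ^ 3) * (1 + j) * ρ) := by
        rw [Finset.sum_const, Finset.card_range, nsmul_eq_mul]; push_cast; ring
    _ ≤ Real.exp (16 * k * ρ) * Real.exp ((3 * k + 32 * k ^ 2 + 48 * k ^ 3) * (1 + j) * ρ) := by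
        gcongr
    _ = Real.exp (16 * k * ρ + (3 * k + 32 * k ^ 2 + 48 * k ^ 3) * (1 + j) * ρ) := by
        rw [← Real.exp_add]
    _ ≤ Real.exp (100 * (k : ℝ) ^ 3 * (1 + j) * m / 4 ^ j) := by
        apply Real.exp_le_exp.2
        have e0 : 100 * (k : ℝ) ^ 3 * (1 + j) * m / 4 ^ j = 100 * (k : ℝ) ^ 3 * ((1 + j) * ρ) := by
          rw [hρ]; ring
        rw [e0]
        have hj : (0 : ℝ) ≤ j := Nat.cast_nonneg _
        have hk2 : (k : ℝ) ≤ (k : ℝ) ^ 3 := by
          calc (k : ℝ) = (k : ℝ) ^ 1 := (pow_one _).symm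
            _ ≤ _ := pow_le_pow_right₀ hk1 (by norm_num)
        have hk3 : (k : ℝ) ^ 2 ≤ (k : ℝ) ^ 3 := pow_le_pow_right₀ hk1 (by norm_num)
        set y : ℝ := (1 + j) * ρ with hy
        have hy0 : 0 ≤ y := by positivity
        have hyρ : ρ ≤ y := by rw [hy]; nlinarith
        have e1 : 16 * k * ρ ≤ 16 * k * y := by gcongr
        have e2 : (3 * k + 32 * k ^ 2 + 48 * k ^ 3) * (1 + j) * ρ =
            (3 * k + 32 * k ^ 2 + 48 * k ^ 3) * y := by rw [hy]; ring
        rw [e2]
        have e3 : (16 * k + (3 * k + 32 * k ^ 2 + 48 * k ^ 3)) * y ≤ (100 * (k : ℝ) ^ 3) * y := by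
          apply mul_le_mul_of_nonneg_right _ hy0
          linarith
        linarith

end Pool.Agent.K9h1.EB
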