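import Pool.Agent.K9h1.EB.Poin

/-! Leaf GEO2 (helper1, MP_81d17b_pr), by helper66: coarse graining bounds. -/

set_option autoImplicit false
set_option linter.unusedSectionVars false
set_option linter.unusedSimpArgs false

namespace Pool.Agent.K9h1.EB

namespace G2

variable {I : Type} [Fintype I] [DecidableEq I]

lemma mem_cube (n : ℕ) (hn : 1 ≤ n) (q x : I → ℤ) : x ∈ cube n q ↔ blk n x = q := by
  have hn' : (0 : ℤ) < n := by exact_mod_cast hn
  unfold cube
  rw [Fintype.mem_piFinset]
  constructor
  · intro h
    funext c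
    have h1 := Finset.mem_Ico.mp (h c)
    show x c / (n : ℤ) = q c
    apply le_antisymm
    · have h2 : x c / (n : ℤ) < q c + 1 := by
        rw [Int.ediv_lt_iff_lt_mul hn']
        have : (q c + 1) * (n : ℤ) = n * q c + n := by ring
        rw [this]
        exact h1.2
      omega
    · rw [Int.le_ediv_iff_mul_le hn', mul_comm]
      exact h1.1
  · intro h c
    rw [Finset.mem_Ico, ← h]
    show (n : ℤ) * (x c / n) ≤ x c ∧ x c < n * (x c / n) + n
    have h1 := Int.mul_ediv_add_emod (x c) n
    have h2 := Int.emod_nonneg (x c) hn'.ne'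
    have h3 := Int.emod_lt_of_pos (x c) hn'
    constructor <;> linarith

lemma card_cube (n : ℕ) (q : I → ℤ) : (cube n q).card = n ^ Fintype.card I := by
  unfold cube
  rw [Fintype.card_piFinset]
  simp

/-- in terms of counts in the cube -/
lemma mem_coarse (n : ℕ) (hn : 1 ≤ n) (A : Finset (I → ℤ)) (q : I → ℤ) :
    q ∈ coarse n A ↔ n ^ Fintype.card I ≤ 2 * (A ∩ cube n q).card := by
  unfold coarse
  rw [Finset.mem_filter, and_iff_right_iff_imp]
  intro h
  have h1 : 0 < n ^ Fintype.card I := pow_pos hn _
  have h2 : 0 < (A ∩ cube n q).card := by omega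
  obtain ⟨x, hx⟩ := Finset.card_pos.mp h2
  rw [Finset.mem_inter, mem_cube n hn] at hx
  exact Finset.mem_image.mpr ⟨x, hx.1, hx.2⟩

/-- the number of boundary edges inside `R` -/
def inn (A R : Finset (I → ℤ)) : ℕ :=
  ((bd A).filter (fun e => e.1 ∈ R ∧ e.1 + un e.2 ∈ R)).card

/-- the two neighbouring cubes -/
noncomputable def two (n : ℕ) (q : I → ℤ) (i : I) : Finset (I → ℤ) :=
  Fintype.piFinset (fun c => Finset.Ico ((n : ℤ) * q c) ((n : ℤ) * q c + ((if c = i then 2 * n else n : ℕ) : ℤ)))

lemma mem_two (n : ℕ) (q : I → ℤ) (i : I) (x : I → ℤ) :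
    x ∈ two n q i ↔ x ∈ cube n q ∨ x ∈ cube n (q + un i) := by
  unfold two cube
  rw [Fintype.mem_piFinset, Fintype.mem_piFinset, Fintype.mem_piFinset]
  have hne : ∀ c, c ≠ i → (q + un i) c = q c := by
    intro c hc
    simp [un, hc]
  have heq : (q + un i) i = q i + 1 := by simp [un]
  constructor
  · intro h
    by_cases h1 : x i < n * q i + n
    · left
      intro c
      by_cases hc : c = i
      · subst hc
        exact Finset.mem_Ico.mpr ⟨(Finset.mem_Ico.mp (h c)).1, h1⟩
      · have := h c
        rwa [if_neg hc] at this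
    · right
      intro c
      by_cases hc : c = i
      · subst hc
        have h2 := Finset.mem_Ico.mp (h c)
        rw [if_pos rfl] at h2
        rw [heq, Finset.mem_Ico]
        push_cast at h2
        constructor
        · linarith
        · linarith [h2.2]
      · have := h c
        rw [if_neg hc] at this
        rw [hne c hc]
        exact this
  · intro h c
    rcases h with h | h
    · have h2 := Finset.mem_Ico.mp (h c)
      rw [Finset.mem_Ico]
      refine ⟨h2.1, lt_of_lt_of_le h2.2 ?_⟩
      split_ifs
      · push_cast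
        have : (0 : ℤ) ≤ n := Int.natCast_nonneg n
        linarith
      · exact le_rfl
    · by_cases hc : c = i
      · subst hc
        have h2 := Finset.mem_Ico.mp (h c)
        rw [heq] at h2
        rw [Finset.mem_Ico, if_pos rfl]
        have : (0 : ℤ) ≤ n := Int.natCast_nonneg n
        push_cast
        constructor
        · linarith [h2.1]
        · linarith [h2.2]
      · have h2 := h c
        rw [hne c hc] at h2
        rw [if_neg hc]
        exact h2

lemma two_eq (n : ℕ) (q : I → ℤ) (i : I) : two n q i = cube n q ∪ cube n (q + un i) := by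
  ext x
  rw [mem_two, Finset.mem_union]

/-- many edges at a coarse boundary face -/
lemma face (n : ℕ) (hn : 1 ≤ n) (hI : 1 ≤ Fintype.card I) (A : Finset (I → ℤ)) (q : I → ℤ) (i : I)
    (h : (q, i) ∈ bd (coarse n A)) : n ^ (Fintype.card I - 1) ≤ 8 * inn A (two n q i) := by
  rw [mem_bd] at h
  simp only [mem_coarse n hn] at h
  have hP := poin I (fun c => (n : ℤ) * q c) (fun c => if c = i then 2 * n else n) (2 * n)
    (by intro c; split_ifs <;> omega) A (two n q i) rfl
  change 2 * (A ∩ two n q i).card * (two n q i \ A).card ≤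
    (two n q i).card * (2 * n) * inn A (two n q i) at hP
  set V := n ^ Fintype.card I with hV
  have hc1 := card_cube n q
  have hc2 := card_cube n (q + un i)
  have hcard : (two n q i).card ≤ 2 * V := by
    rw [two_eq]
    refine (Finset.card_union_le _ _).trans ?_
    rw [hc1, hc2]
    omega
  -- the splitting of a cube
  have hs : ∀ q' : I → ℤ, (A ∩ cube n q').card + (cube n q' \ A).card = V := by
    intro q'
    rw [Finset.inter_comm, Finset.card_inter_add_card_sdiff, card_cube]
  have hsub1 : cube n q ⊆ two n q i := by rw [two_eq]; exact Finset.subset_union_left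
  have hsub2 : cube n (q + un i) ⊆ two n q i := by rw [two_eq]; exact Finset.subset_union_right
  have key : V ≤ 2 * (A ∩ two n q i).card ∧ V ≤ 2 * (two n q i \ A).card := by
    have hin : ∀ q' : I → ℤ, cube n q' ⊆ two n q i →
        (A ∩ cube n q').card ≤ (A ∩ two n q i).card :=
      fun q' hq' => Finset.card_le_card (Finset.inter_subset_inter_left hq')
    have hout : ∀ q' : I → ℤ, cube n q' ⊆ two n q i →
        (cube n q' \ A).card ≤ (two n q i \ A).card :=
      fun q' hq' => Finset.card_le_card (Finset.sdiff_subset_sdiff hq' (Finset.Subset.refl _))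
    have e1 := hin q hsub1
    have e2 := hin (q + un i) hsub2
    have e3 := hout q hsub1
    have e4 := hout (q + un i) hsub2
    have e5 := hs q
    have e6 := hs (q + un i)
    by_cases h1 : V ≤ 2 * (A ∩ cube n q).card
    · have h2 : ¬ V ≤ 2 * (A ∩ cube n (q + un i)).card := fun h3 => h ⟨fun _ => h3, fun _ => h1⟩
      omega
    · have h2 : V ≤ 2 * (A ∩ cube n (q + un i)).card := by
        by_contra h3
        exact h ⟨fun h4 => absurd h4 h1, fun h4 => absurd h4 h3⟩
      omega
  obtain ⟨k1, k2⟩ := key
  have hVpos : 0 < V := pow_pos hn _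
  have h3 : V * V ≤ 8 * V * n * inn A (two n q i) := by
    calc V * V ≤ (2 * (A ∩ two n q i).card) * (2 * (two n q i \ A).card) := Nat.mul_le_mul k1 k2
      _ = 2 * (2 * (A ∩ two n q i).card * (two n q i \ A).card) := by ring
      _ ≤ 2 * ((two n q i).card * (2 * n) * inn A (two n q i)) := Nat.mul_le_mul_left _ hP
      _ ≤ 2 * ((2 * V) * (2 * n) * inn A (two n q i)) := by gcongr
      _ = 8 * V * n * inn A (two n q i) := by ring
  have h4 : V = n ^ (Fintype.card I - 1) * n := by
    rw [hV, ← pow_succ, Nat.sub_add_cancel hI]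
  have h5 : V * (n * n ^ (Fintype.card I - 1)) ≤ V * (n * (8 * inn A (two n q i))) := by
    calc V * (n * n ^ (Fintype.card I - 1)) = V * V := by rw [mul_comm n, ← h4]
      _ ≤ _ := h3
      _ = _ := by ring
  exact Nat.le_of_mul_le_mul_left (Nat.le_of_mul_le_mul_left h5 hVpos) hn

/-- the deviation in a cube -/
lemma dev (n : ℕ) (hn : 1 ≤ n) (A : Finset (I → ℤ)) (q : I → ℤ) :
    (if q ∈ coarse n A then (cube n q \ A).card else (A ∩ cube n q).card) ≤
      n * inn A (cube n q) := by
  have hP := poin I (fun c => (n : ℤ) * q c) (fun _ => n) n (fun _ => le_rfl) A (cube n q) rfl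
  change 2 * (A ∩ cube n q).card * (cube n q \ A).card ≤
    (cube n q).card * n * inn A (cube n q) at hP
  have hs : (A ∩ cube n q).card + (cube n q \ A).card = n ^ Fintype.card I := by
    rw [Finset.inter_comm, Finset.card_inter_add_card_sdiff, card_cube]
  rw [card_cube] at hP
  set V := n ^ Fintype.card I with hV
  have hVpos : 0 < V := pow_pos hn _
  split_ifs with h
  · rw [mem_coarse n hn] at h
    have h1 : V * (cube n q \ A).card ≤ V * (n * inn A (cube n q)) := by
      calc V * (cube n q \ A).card ≤ (2 * (A ∩ cube n q).card) * (cube n q \ A).card :=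
            Nat.mul_le_mul_right _ h
        _ ≤ _ := hP
        _ = _ := by ring
    exact Nat.le_of_mul_le_mul_left h1 hVpos
  · rw [mem_coarse n hn] at h
    have h2 : V ≤ 2 * (cube n q \ A).card := by omega
    have h1 : V * (A ∩ cube n q).card ≤ V * (n * inn A (cube n q)) := by
      calc V * (A ∩ cube n q).card ≤ (2 * (cube n q \ A).card) * (A ∩ cube n q).card :=
            Nat.mul_le_mul_right _ h2
        _ = 2 * (A ∩ cube n q).card * (cube n q \ A).card := by ring
        _ ≤ _ := hP
        _ = _ := by ring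
    exact Nat.le_of_mul_le_mul_left h1 hVpos

open Classical in
/-- double counting of the edges in the boxes of a family -/
lemma double {α : Type} (A : Finset (I → ℤ)) (F : Finset α) (R : α → Finset (I → ℤ)) (M : ℕ)
    (hM : ∀ e ∈ bd A, (F.filter (fun f => e.1 ∈ R f)).card ≤ M) :
    ∑ f ∈ F, inn A (R f) ≤ M * (bd A).card := by
  calc ∑ f ∈ F, inn A (R f) ≤ ∑ f ∈ F, ∑ e ∈ bd A, (if e.1 ∈ R f then 1 else 0) := by
        apply Finset.sum_le_sum
        intro f _
        unfold inn
        rw [← Finset.card_filter]
        apply Finset.card_le_card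
        intro e he
        rw [Finset.mem_filter] at he ⊢
        exact ⟨he.1, he.2.1⟩
    _ = ∑ e ∈ bd A, ∑ f ∈ F, (if e.1 ∈ R f then 1 else 0) := Finset.sum_comm
    _ ≤ ∑ _e ∈ bd A, M := by
        apply Finset.sum_le_sum
        intro e he
        rw [← Finset.card_filter]
        exact hM e he
    _ = M * (bd A).card := by rw [Finset.sum_const, smul_eq_mul, mul_comm]

end G2

open Classical in
theorem geo2 : GEO2 := by
  intro I _ _ hI n hn A
  refine ⟨?_, ?_, ?_⟩
  · -- faces
    have h1 := G2.double A (bd (coarse n A)) (fun f => G2.two n f.1 f.2) (2 * Fintype.card I) (by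
      intro e _
      have hsub : (bd (coarse n A)).filter (fun f => e.1 ∈ G2.two n f.1 f.2) ⊆
          (Finset.univ : Finset I).biUnion fun i => {(blk n e.1, i), (blk n e.1 - un i, i)} := by
        intro f hf
        have h2 := (Finset.mem_filter.mp hf).2
        rw [G2.mem_two, G2.mem_cube n hn, G2.mem_cube n hn] at h2
        refine Finset.mem_biUnion.mpr ⟨f.2, Finset.mem_univ _, ?_⟩
        rw [Finset.mem_insert, Finset.mem_singleton]
        rcases h2 with h2 | h2
        · left
          rw [h2]
        · right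
          rw [h2, add_sub_cancel_right]
      refine (Finset.card_le_card hsub).trans ?_
      refine (Finset.card_biUnion_le_card_mul _ _ 2 fun i _ => Finset.card_le_two).trans ?_
      rw [Finset.card_univ, mul_comm])
    calc (bd (coarse n A)).card * n ^ (Fintype.card I - 1) =
        ∑ _f ∈ bd (coarse n A), n ^ (Fintype.card I - 1) := by
          rw [Finset.sum_const, smul_eq_mul]
      _ ≤ ∑ f ∈ bd (coarse n A), 8 * G2.inn A (G2.two n f.1 f.2) :=
          Finset.sum_le_sum fun f hf => G2.face n hn hI A f.1 f.2 hf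
      _ = 8 * ∑ f ∈ bd (coarse n A), G2.inn A (G2.two n f.1 f.2) := by rw [Finset.mul_sum]
      _ ≤ 8 * (2 * Fintype.card I * (bd A).card) := Nat.mul_le_mul_left _ h1
      _ = _ := by ring
  · -- symmetric difference
    set F := A.image (blk n) with hF
    have hcF : coarse n A ⊆ F := Finset.filter_subset _ _
    have h1 := G2.double A F (fun q => cube n q) 1 (by
      intro e _
      have hsub : F.filter (fun q => e.1 ∈ cube n q) ⊆ {blk n e.1} := by
        intro q hq
        have h2 := (Finset.mem_filter.mp hq).2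
        rw [G2.mem_cube n hn] at h2
        rw [Finset.mem_singleton, h2]
      exact (Finset.card_le_card hsub).trans (by simp))
    have h2 : (A \ up n (coarse n A)).card ≤
        ∑ q ∈ F.filter (fun q => q ∉ coarse n A), (A ∩ cube n q).card := by
      refine le_trans (Finset.card_le_card ?_) Finset.card_biUnion_le
      intro x hx
      rw [Finset.mem_sdiff] at hx
      refine Finset.mem_biUnion.mpr ⟨blk n x, Finset.mem_filter.mpr
        ⟨Finset.mem_image_of_mem _ hx.1, ?_⟩, ?_⟩
      · intro h
        exact hx.2 (Finset.mem_biUnion.mpr ⟨blk n x, h, (G2.mem_cube n hn _ _).mpr rfl⟩)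
      · exact Finset.mem_inter.mpr ⟨hx.1, (G2.mem_cube n hn _ _).mpr rfl⟩
    have h3 : (up n (coarse n A) \ A).card ≤
        ∑ q ∈ F.filter (fun q => q ∈ coarse n A), (cube n q \ A).card := by
      refine le_trans (Finset.card_le_card ?_) Finset.card_biUnion_le
      intro x hx
      rw [Finset.mem_sdiff] at hx
      obtain ⟨q, hq, hxq⟩ := Finset.mem_biUnion.mp hx.1
      exact Finset.mem_biUnion.mpr ⟨q, Finset.mem_filter.mpr ⟨hcF hq, hq⟩,
        Finset.mem_sdiff.mpr ⟨hxq, hx.2⟩⟩
    have h4 : ∑ q ∈ F.filter (fun q => q ∉ coarse n A), (A ∩ cube n q).card +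
        ∑ q ∈ F.filter (fun q => q ∈ coarse n A), (cube n q \ A).card =
        ∑ q ∈ F, (if q ∈ coarse n A then (cube n q \ A).card else (A ∩ cube n q).card) := by
      rw [Finset.sum_ite, add_comm]
    calc _ ≤ _ := Nat.add_le_add h2 h3
      _ = _ := h4
      _ ≤ ∑ q ∈ F, n * G2.inn A (cube n q) := Finset.sum_le_sum fun q _ => G2.dev n hn A q
      _ = n * ∑ q ∈ F, G2.inn A (cube n q) := by rw [Finset.mul_sum]
      _ ≤ n * (1 * (bd A).card) := Nat.mul_le_mul_left _ h1
      _ = _ := by ring
  · intro f hf
    have h1 := G2.face n hn hI A f.1 f.2 hf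
    have h2 : 0 < n ^ (Fintype.card I - 1) := pow_pos hn _
    have h3 : 0 < G2.inn A (G2.two n f.1 f.2) := by omega
    obtain ⟨e, he⟩ := Finset.card_pos.mp h3
    obtain ⟨h4, h5, -⟩ := Finset.mem_filter.mp he
    refine ⟨e, h4, fun c => ?_⟩
    rw [G2.mem_two, G2.mem_cube n hn, G2.mem_cube n hn] at h5
    rcases h5 with h5 | h5
    · rw [h5]
      omega
    · rw [h5]
      simp only [Pi.add_apply, un, Pi.single_apply]
      split_ifs <;> omega

end Pool.Agent.K9h1.EB
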