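import Pool.Agent.K9h1.EB.Stm

/-!
# Leaf LISTS
-/

set_option autoImplicit false

namespace Pool.Agent.K9h1.EB

lemma one_sub_exp_neg_ge {x : ℝ} (hx : 0 < x) (hx1 : x ≤ 1) : x / 2 ≤ 1 - Real.exp (-x) := by
  have h1 : 1 + x ≤ Real.exp x := by linarith [Real.add_one_le_exp x]
  have h2 : Real.exp (-x) * Real.exp x = 1 := by rw [← Real.exp_add]; simp
  have h3 : 0 < Real.exp (-x) := Real.exp_pos _
  have h4 : Real.exp (-x) * (1 + x) ≤ 1 := by nlinarith
  by_contra hcon
  push Not at hcon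
  nlinarith

lemma geom_le {x : ℝ} (hx : 0 < x) (hx1 : x ≤ 1) (N : ℕ) :
    ∑ n ∈ Finset.range N, Real.exp (-(x * n)) ≤ 2 / x := by
  have h : ∀ n : ℕ, Real.exp (-(x * n)) = Real.exp (-x) ^ n := fun n => by
    rw [← Real.exp_nat_mul]; ring_nf
  simp_rw [h]
  have h1 := one_sub_exp_neg_ge hx hx1
  have h2 : (∑ i ∈ Finset.range N, Real.exp (-x) ^ i) * (1 - Real.exp (-x)) = 1 - Real.exp (-x) ^ N := by
    have := geom_sum_mul (Real.exp (-x)) N
    linarith
  have h3 : 0 ≤ Real.exp (-x) ^ N := by positivity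
  have h4 : 0 ≤ ∑ i ∈ Finset.range N, Real.exp (-x) ^ i := by positivity
  rw [le_div_iff₀ hx]
  nlinarith

lemma int_sum_le {x : ℝ} (hx : 0 < x) (hx1 : x ≤ 1) (a : ℤ) (Z : Finset ℤ) :
    ∑ z ∈ Z, Real.exp (-(x * (z - a).natAbs)) ≤ 4 / x := by
  classical
  -- split according to the sign
  have hsplit : ∑ z ∈ Z, Real.exp (-(x * (z - a).natAbs)) =
      ∑ z ∈ Z.filter (fun z => a ≤ z), Real.exp (-(x * (z - a).natAbs)) +
      ∑ z ∈ Z.filter (fun z => ¬ a ≤ z), Real.exp (-(x * (z - a).natAbs)) :=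
    (Finset.sum_filter_add_sum_filter_not _ _ _).symm
  have hone : ∀ (Y : Finset ℤ), Set.InjOn (fun z : ℤ => (z - a).natAbs) Y →
      ∑ z ∈ Y, Real.exp (-(x * (z - a).natAbs)) ≤ 2 / x := by
    intro Y hY
    obtain ⟨N, hN⟩ : ∃ N : ℕ, Y.image (fun z : ℤ => (z - a).natAbs) ⊆ Finset.range N :=
      Finset.exists_nat_subset_range _
    calc ∑ z ∈ Y, Real.exp (-(x * (z - a).natAbs))
        = ∑ n ∈ Y.image (fun z : ℤ => (z - a).natAbs), Real.exp (-(x * n)) := by
          rw [Finset.sum_image hY]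
      _ ≤ ∑ n ∈ Finset.range N, Real.exp (-(x * n)) :=
          Finset.sum_le_sum_of_subset_of_nonneg hN fun _ _ _ => (Real.exp_pos _).le
      _ ≤ 2 / x := geom_le hx hx1 N
  have h1 := hone (Z.filter (fun z => a ≤ z)) (by
    intro u hu v hv huv
    simp only [Finset.coe_filter, Set.mem_ofPred_eq] at hu hv
    simp only at huv
    omega)
  have h2 := hone (Z.filter (fun z => ¬ a ≤ z)) (by
    intro u hu v hv huv
    simp only [Finset.coe_filter, Set.mem_ofPred_eq] at hu hv
    simp only at huv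
    omega)
  rw [hsplit]
  have : (4 : ℝ) / x = 2 / x + 2 / x := by ring
  rw [this]
  exact add_le_add h1 h2

lemma site_sum_le {I : Type} [Fintype I] [DecidableEq I] {x : ℝ} (hx : 0 < x) (hx1 : x ≤ 1)
    (p : I → ℤ) (H : Finset (I → ℤ)) :
    ∑ q ∈ H, Real.exp (-(x * ((∑ c, (q c - p c).natAbs : ℕ) : ℝ))) ≤ (4 / x) ^ Fintype.card I := by
  classical
  have hsub : H ⊆ Fintype.piFinset (fun c => H.image (fun q => q c)) := by
    intro q hq
    rw [Fintype.mem_piFinset]
    intro c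
    exact Finset.mem_image_of_mem _ hq
  calc ∑ q ∈ H, Real.exp (-(x * ((∑ c, (q c - p c).natAbs : ℕ) : ℝ)))
      ≤ ∑ q ∈ Fintype.piFinset (fun c => H.image (fun q => q c)),
          Real.exp (-(x * ((∑ c, (q c - p c).natAbs : ℕ) : ℝ))) :=
        Finset.sum_le_sum_of_subset_of_nonneg hsub fun _ _ _ => (Real.exp_pos _).le
    _ = ∑ q ∈ Fintype.piFinset (fun c => H.image (fun q => q c)),
          ∏ c, Real.exp (-(x * ((q c - p c).natAbs : ℝ))) := by
        refine Finset.sum_congr rfl fun q _ => ?_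
        rw [← Real.exp_sum]
        congr 1
        push_cast
        rw [Finset.mul_sum, Finset.sum_neg_distrib]
    _ = ∏ c, ∑ z ∈ H.image (fun q => q c), Real.exp (-(x * ((z - p c).natAbs : ℝ))) := by
        rw [Finset.prod_univ_sum]
    _ ≤ ∏ _c : I, (4 / x) :=
        Finset.prod_le_prod (fun _ _ => Finset.sum_nonneg fun _ _ => (Real.exp_pos _).le)
          fun c _ => int_sum_le hx hx1 _ _
    _ = (4 / x) ^ Fintype.card I := by rw [Finset.prod_const, Finset.card_univ]

lemma edge_sum_le {I : Type} [Fintype I] [DecidableEq I] {x : ℝ} (hx : 0 < x) (hx1 : x ≤ 1)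
    (p : I → ℤ) (H : Finset ((I → ℤ) × I)) :
    ∑ f ∈ H, Real.exp (-(x * ((∑ c, (f.1 c - p c).natAbs : ℕ) : ℝ))) ≤
      Fintype.card I * (4 / x) ^ Fintype.card I := by
  classical
  have hsub : H ⊆ (H.image Prod.fst) ×ˢ Finset.univ := by
    intro f hf
    exact Finset.mem_product.2 ⟨Finset.mem_image_of_mem _ hf, Finset.mem_univ _⟩
  calc ∑ f ∈ H, Real.exp (-(x * ((∑ c, (f.1 c - p c).natAbs : ℕ) : ℝ)))
      ≤ ∑ f ∈ (H.image Prod.fst) ×ˢ Finset.univ,
          Real.exp (-(x * ((∑ c, (f.1 c - p c).natAbs : ℕ) : ℝ))) :=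
        Finset.sum_le_sum_of_subset_of_nonneg hsub fun _ _ _ => (Real.exp_pos _).le
    _ = ∑ q ∈ H.image Prod.fst, ∑ _i : I,
          Real.exp (-(x * ((∑ c, (q c - p c).natAbs : ℕ) : ℝ))) := by
        rw [Finset.sum_product]
    _ = Fintype.card I * ∑ q ∈ H.image Prod.fst,
          Real.exp (-(x * ((∑ c, (q c - p c).natAbs : ℕ) : ℝ))) := by
        rw [Finset.mul_sum]
        refine Finset.sum_congr rfl fun q _ => ?_
        simp
    _ ≤ Fintype.card I * (4 / x) ^ Fintype.card I :=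
        mul_le_mul_of_nonneg_left (site_sum_le hx hx1 p _) (by positivity)

lemma lists_sum_le {I : Type} [Fintype I] [DecidableEq I] {x : ℝ} (hx : 0 < x) (hx1 : x ≤ 1)
    (r : ℕ) : ∀ (p : I → ℤ) (F : Finset (List ((I → ℤ) × I))), (∀ l ∈ F, l.length = r) →
      ∑ l ∈ F, Real.exp (-(x * (len1 p l : ℝ))) ≤
        (Fintype.card I * (4 / x) ^ Fintype.card I) ^ r := by
  classical
  induction r with
  | zero =>
    intro p F hF
    have : F ⊆ {[]} := by
      intro l hl
      simpa using List.length_eq_zero_iff.1 (hF l hl)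
    calc ∑ l ∈ F, Real.exp (-(x * (len1 p l : ℝ))) ≤ ∑ l ∈ {[]}, Real.exp (-(x * (len1 p l : ℝ))) :=
        Finset.sum_le_sum_of_subset_of_nonneg this fun _ _ _ => (Real.exp_pos _).le
      _ = 1 := by simp [len1]
      _ ≤ _ := by simp
  | succ r ih =>
    intro p F hF
    set M : ℝ := Fintype.card I * (4 / x) ^ Fintype.card I with hM
    have hM0 : 0 ≤ M := by positivity
    -- heads
    let H : Finset ((I → ℤ) × I) := F.biUnion (fun l => l.head?.toFinset)
    let G : (I → ℤ) × I → Finset (List ((I → ℤ) × I)) := fun f => (F.filter (fun l => l.head? = some f)).image List.tail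
    have hcov : F ⊆ H.biUnion (fun f => (G f).image (fun t => f :: t)) := by
      intro l hl
      have hlen := hF l hl
      obtain ⟨f, t, rfl⟩ : ∃ f t, l = f :: t := by
        cases l with
        | nil => simp at hlen
        | cons f t => exact ⟨f, t, rfl⟩
      refine Finset.mem_biUnion.2 ⟨f, ?_, ?_⟩
      · exact Finset.mem_biUnion.2 ⟨f :: t, hl, by simp⟩
      · refine Finset.mem_image.2 ⟨t, ?_, rfl⟩
        exact Finset.mem_image.2 ⟨f :: t, Finset.mem_filter.2 ⟨hl, by simp⟩, rfl⟩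
    have hG : ∀ f, ∀ t ∈ G f, t.length = r := by
      intro f t ht
      obtain ⟨l, hl, rfl⟩ := Finset.mem_image.1 ht
      have := hF l (Finset.mem_filter.1 hl).1
      simp [this]
    calc ∑ l ∈ F, Real.exp (-(x * (len1 p l : ℝ)))
        ≤ ∑ l ∈ H.biUnion (fun f => (G f).image (fun t => f :: t)), Real.exp (-(x * (len1 p l : ℝ))) :=
          Finset.sum_le_sum_of_subset_of_nonneg hcov fun _ _ _ => (Real.exp_pos _).le
      _ = ∑ f ∈ H, ∑ l ∈ (G f).image (fun t => f :: t), Real.exp (-(x * (len1 p l : ℝ))) := by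
          refine Finset.sum_biUnion ?_
          intro f _ g _ hfg
          rw [Function.onFun, Finset.disjoint_left]
          intro l hl hl'
          obtain ⟨a, _, rfl⟩ := Finset.mem_image.1 hl
          obtain ⟨b, _, hb⟩ := Finset.mem_image.1 hl'
          exact hfg (List.cons.inj hb).1.symm
      _ = ∑ f ∈ H, ∑ t ∈ G f, Real.exp (-(x * (len1 p (f :: t) : ℝ))) := by
          refine Finset.sum_congr rfl fun f _ => ?_
          rw [Finset.sum_image]
          intro a _ b _ hab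
          simpa using hab
      _ = ∑ f ∈ H, Real.exp (-(x * ((∑ c, (f.1 c - p c).natAbs : ℕ) : ℝ))) *
            ∑ t ∈ G f, Real.exp (-(x * (len1 f.1 t : ℝ))) := by
          refine Finset.sum_congr rfl fun f _ => ?_
          rw [Finset.mul_sum]
          refine Finset.sum_congr rfl fun t _ => ?_
          rw [← Real.exp_add]
          congr 1
          simp only [len1]
          push_cast
          ring
      _ ≤ ∑ f ∈ H, Real.exp (-(x * ((∑ c, (f.1 c - p c).natAbs : ℕ) : ℝ))) * M ^ r := by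
          refine Finset.sum_le_sum fun f _ => ?_
          exact mul_le_mul_of_nonneg_left (ih f.1 (G f) (hG f)) (Real.exp_pos _).le
      _ = (∑ f ∈ H, Real.exp (-(x * ((∑ c, (f.1 c - p c).natAbs : ℕ) : ℝ)))) * M ^ r := by
          rw [Finset.sum_mul]
      _ ≤ M * M ^ r := mul_le_mul_of_nonneg_right (edge_sum_le hx hx1 p H) (by positivity)
      _ = M ^ (r + 1) := by ring

theorem lists : LISTS := by
  intro I _ _ x hx hx1 r L p F hF
  have h := lists_sum_le hx hx1 r p F (fun l hl => (hF l hl).1)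
  have h2 : (F.card : ℝ) * Real.exp (-(x * L)) ≤ ∑ l ∈ F, Real.exp (-(x * (len1 p l : ℝ))) := by
    rw [← nsmul_eq_mul, ← Finset.sum_const]
    refine Finset.sum_le_sum fun l hl => ?_
    refine Real.exp_le_exp.2 ?_
    have : (len1 p l : ℝ) ≤ L := by exact_mod_cast (hF l hl).2
    nlinarith
  have h3 : Real.exp (x * L) * Real.exp (-(x * L)) = 1 := by rw [← Real.exp_add]; simp
  have h4 := h2.trans h
  have h5 := mul_le_mul_of_nonneg_left h4 (Real.exp_pos (x * L)).le
  calc (F.card : ℝ) = Real.exp (x * L) * (F.card * Real.exp (-(x * L))) := by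
        rw [mul_left_comm, h3, mul_one]
    _ ≤ _ := h5

end Pool.Agent.K9h1.EB
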