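import Pool.Agent.K9h1.EB.Stm

/-!
# Leaf PEI: the Peierls sum (helper63)
-/

set_option autoImplicit false

open MeasureTheory Filter Topology

namespace Pool.Agent.K9h1.EB

namespace PEI

variable {I : Type} [Fintype I] [DecidableEq I]

omit [Fintype I] [DecidableEq I] in
theorem blk_one (x : I → ℤ) : blk 1 x = x := by
  funext c
  unfold blk
  simp

theorem cube_one (q : I → ℤ) : cube 1 q = {q} := by
  ext x
  unfold cube
  rw [Fintype.mem_piFinset, Finset.mem_singleton]
  constructor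
  · intro h
    funext c
    have := Finset.mem_Ico.1 (h c)
    push_cast at this
    omega
  · rintro rfl c
    rw [Finset.mem_Ico]
    push_cast
    omega

theorem coarse_one (A : Finset (I → ℤ)) : coarse 1 A = A := by
  ext q
  unfold coarse
  rw [Finset.mem_filter, Finset.mem_image, cube_one]
  constructor
  · rintro ⟨⟨x, hx, rfl⟩, -⟩
    rw [blk_one]
    exact hx
  · intro hq
    refine ⟨⟨q, hq, blk_one q⟩, ?_⟩
    rw [Finset.inter_singleton_of_mem hq, Finset.card_singleton, one_pow]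
    norm_num

theorem bd_pos (hI : 3 ≤ Fintype.card I) {A : Finset (I → ℤ)} (hA : 0 ∈ A) : 1 ≤ (bd A).card := by
  obtain ⟨i⟩ : Nonempty I := Fintype.card_pos_iff.mp (by omega)
  obtain ⟨x, hx, hmax⟩ := Finset.exists_max_image A (fun x => x i) ⟨0, hA⟩
  apply Finset.card_pos.mpr
  refine ⟨(x, i), ?_⟩
  rw [mem_bd]
  intro h
  have h1 := hmax _ (h.1 hx)
  have h2 : (x + un i) i = x i + 1 := by simp [un]
  simp only at h1
  rw [h2] at h1
  omega

end PEI

open PEI in
theorem pei (hgeo : GEO3) : PEI := by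
  intro I _ _ hI ε hε
  obtain ⟨c, hc, hcount⟩ := hgeo I hI
  have h0 : 0 < Real.log ((1 + ε) / ε) := by
    apply Real.log_pos
    rw [lt_div_iff₀ hε]
    linarith
  refine ⟨c + Real.log ((1 + ε) / ε), by positivity, fun t ht 𝒞 h𝒞 => ?_⟩
  obtain ⟨q, hq⟩ : ∃ q : ℝ, q = Real.exp (c - t) := ⟨_, rfl⟩
  have hq0 : 0 < q := by rw [hq]; exact Real.exp_pos _
  have hq1 : q ≤ ε / (1 + ε) := by
    have h1 : Real.log (ε / (1 + ε)) = -Real.log ((1 + ε) / ε) := by
      rw [← Real.log_inv, inv_div]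
    rw [hq, ← Real.exp_log (show 0 < ε / (1 + ε) by positivity), h1]
    apply Real.exp_le_exp.mpr
    linarith
  have hq2 : q < 1 := by
    refine hq1.trans_lt ?_
    rw [div_lt_one (by positivity)]
    linarith
  have hfib : ∑ A ∈ 𝒞, Real.exp (-(t * (bd A).card)) =
      ∑ m ∈ 𝒞.image (fun A => (bd A).card), ∑ A ∈ 𝒞.filter (fun A => (bd A).card = m),
        Real.exp (-(t * (bd A).card)) :=
    (Finset.sum_fiberwise_of_maps_to (fun A hA => Finset.mem_image_of_mem _ hA) _).symm
  have hone : ∀ m ∈ 𝒞.image (fun A => (bd A).card),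
      ∑ A ∈ 𝒞.filter (fun A => (bd A).card = m), Real.exp (-(t * (bd A).card)) ≤ q ^ m := by
    intro m _
    have h1 : ∑ A ∈ 𝒞.filter (fun A => (bd A).card = m), Real.exp (-(t * (bd A).card)) =
        ((𝒞.filter (fun A => (bd A).card = m)).card : ℝ) * Real.exp (-(t * m)) := by
      rw [Finset.sum_congr rfl (fun A hA => by rw [(Finset.mem_filter.1 hA).2]), Finset.sum_const,
        nsmul_eq_mul]
    rw [h1]
    have h2 := hcount m 0 (𝒞.filter (fun A => (bd A).card = m)) (by
      intro A hA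
      rw [Finset.mem_filter] at hA
      obtain ⟨m', h3, h4, h5⟩ := h𝒞 A hA.1
      refine ⟨A, ⟨h3, h4, hA.2⟩, ?_⟩
      rw [pow_zero, coarse_one])
    have h3 : Real.exp (c * (1 + ((0 : ℕ) : ℝ)) * m / 4 ^ 0) = Real.exp (c * m) := by
      congr 1; push_cast; ring
    rw [h3] at h2
    calc _ ≤ Real.exp (c * m) * Real.exp (-(t * m)) :=
          mul_le_mul_of_nonneg_right h2 (Real.exp_pos _).le
      _ = q ^ m := by
          rw [← Real.exp_add, hq, ← Real.exp_nat_mul]
          congr 1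
          ring
  rw [hfib]
  refine (Finset.sum_le_sum hone).trans ?_
  obtain ⟨M, hM⟩ : ∃ M : ℕ, ∀ m ∈ 𝒞.image (fun A => (bd A).card), m ≤ M :=
    ⟨(𝒞.image (fun A => (bd A).card)).sup id, fun m hm => Finset.le_sup (f := id) hm⟩
  have hsub : 𝒞.image (fun A => (bd A).card) ⊆ (Finset.range M).image Nat.succ := by
    intro m hm
    have h1 := hM m hm
    obtain ⟨A, hA, hAm⟩ := Finset.mem_image.1 hm
    obtain ⟨m', h3, -, -⟩ := h𝒞 A hA
    have h2 := bd_pos hI h3
    rw [Finset.mem_image]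
    exact ⟨m - 1, Finset.mem_range.2 (by omega), by show m - 1 + 1 = m; omega⟩
  refine (Finset.sum_le_sum_of_subset_of_nonneg hsub (fun _ _ _ => by positivity)).trans ?_
  rw [Finset.sum_image (fun a _ b _ h => Nat.succ_injective h)]
  have h1 : ∑ k ∈ Finset.range M, q ^ (Nat.succ k) = q * ∑ k ∈ Finset.range M, q ^ k := by
    rw [Finset.mul_sum]
    exact Finset.sum_congr rfl fun k _ => by rw [pow_succ]; ring
  have h2 : ∑ k ∈ Finset.range M, q ^ k ≤ (1 - q)⁻¹ := by
    rw [← tsum_geometric_of_lt_one hq0.le hq2]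
    exact (summable_geometric_of_lt_one hq0.le hq2).sum_le_tsum _ (fun _ _ => by positivity)
  rw [h1]
  calc q * ∑ k ∈ Finset.range M, q ^ k ≤ q * (1 - q)⁻¹ := mul_le_mul_of_nonneg_left h2 hq0.le
    _ ≤ ε := by
        rw [← div_eq_mul_inv, div_le_iff₀ (by linarith)]
        rw [le_div_iff₀ (by positivity)] at hq1
        linarith

end Pool.Agent.K9h1.EB
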