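import Pool.Agent.K9h1.EB.Stm

/-!
# Leaf TOUR
-/

set_option autoImplicit false

namespace Pool.Agent.K9h1.EB

section

variable {I : Type}

lemma xTour_near_symm {e f : (I → ℤ) × I} (h : near e f) : near f e := fun c => by
  rw [abs_sub_comm]; exact h c

lemma exit_of_rtg {α : Type} (S : Set α) (R : α → α → Prop) {e f : α}
    (h : Relation.ReflTransGen R e f) (he : e ∈ S) (hf : f ∉ S) :
    ∃ u ∈ S, ∃ v, v ∉ S ∧ R u v := by
  induction h with
  | refl => exact absurd he hf
  | @tail b c hb hbc ih =>
    by_cases hbS : b ∈ S
    · exact ⟨b, hbS, c, hf, hbc⟩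
    · exact ih hbS

end

theorem tour : TOUR := by
  intro I _ _ E hE e0 he0
  have key : ∀ n : ℕ, 1 ≤ n → n ≤ E.card → ∃ S ⊆ E, S.card = n ∧ e0 ∈ S ∧
      ∃ (T : ℕ) (w : ℕ → (I → ℤ) × I), w 0 = e0 ∧ T + 2 ≤ 2 * n ∧ (∀ t, w t ∈ S) ∧
        (∀ t < T, near (w t) (w (t+1))) ∧ ∀ e ∈ S, ∃ t ≤ T, w t = e := by
    intro n hn
    induction n, hn using Nat.le_induction with
    | base =>
      intro _
      refine ⟨{e0}, by simpa using he0, by simp, by simp, 0, fun _ => e0, rfl, by norm_num, ?_, ?_, ?_⟩
      · intro t; simp
      · intro t ht; omega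
      · intro e he; exact ⟨0, le_rfl, (Finset.mem_singleton.1 he).symm⟩
    | succ n hn ih =>
      intro hn'
      obtain ⟨S, hSE, hSc, he0S, T, w, hw0, hT, hwS, hnear, hcov⟩ := ih (by omega)
      have hne : ∃ f ∈ E, f ∉ S := by
        by_contra hcon
        push Not at hcon
        have : E.card ≤ S.card := Finset.card_le_card hcon
        omega
      obtain ⟨f, hfE, hfS⟩ := hne
      obtain ⟨u, huS, v, hvS, hvE, huv⟩ :=
        exit_of_rtg (S : Set ((I → ℤ) × I)) _ (hE e0 he0 f hfE) (by simpa using he0S) (by simpa using hfS)
      have huS' : u ∈ S := by simpa using huS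
      have hvS' : v ∉ S := by simpa using hvS
      obtain ⟨t0, ht0, hwt0⟩ := hcov u huS'
      refine ⟨insert v S, ?_, ?_, ?_, T + 2,
        fun t => if t ≤ t0 then w t else if t = t0 + 1 then v else w (t - 2), ?_, ?_, ?_, ?_, ?_⟩
      · intro x hx
        rcases Finset.mem_insert.1 hx with rfl | hx
        · exact hvE
        · exact hSE hx
      · rw [Finset.card_insert_of_notMem hvS', hSc]
      · exact Finset.mem_insert_of_mem he0S
      · simp [hw0]
      · omega
      · intro t
        dsimp only
        split_ifs
        · exact Finset.mem_insert_of_mem (hwS t)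
        · exact Finset.mem_insert_self _ _
        · exact Finset.mem_insert_of_mem (hwS _)
      · intro t ht
        dsimp only
        rcases lt_trichotomy t t0 with h | h | h
        · rw [if_pos h.le, if_pos (by omega)]
          exact hnear t (by omega)
        · subst h
          rw [if_pos le_rfl, if_neg (by omega), if_pos rfl, hwt0]
          exact huv
        · rw [if_neg (by omega)]
          by_cases h1 : t = t0 + 1
          · subst h1
            rw [if_pos rfl, if_neg (by omega), if_neg (by omega)]
            have : t0 + 1 + 1 - 2 = t0 := by omega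
            rw [this, hwt0]
            exact xTour_near_symm huv
          · rw [if_neg h1, if_neg (by omega), if_neg (by omega)]
            have : t + 1 - 2 = (t - 2) + 1 := by omega
            rw [this]
            exact hnear (t - 2) (by omega)
      · intro e he
        rcases Finset.mem_insert.1 he with rfl | he
        · refine ⟨t0 + 1, by omega, ?_⟩
          dsimp only
          rw [if_neg (by omega), if_pos rfl]
        · obtain ⟨t, ht, hwt⟩ := hcov e he
          by_cases h : t ≤ t0
          · exact ⟨t, by omega, by dsimp only; rw [if_pos h]; exact hwt⟩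
          · refine ⟨t + 2, by omega, ?_⟩
            dsimp only
            rw [if_neg (by omega), if_neg (by omega)]
            simpa using hwt
  have hpos : 1 ≤ E.card := Finset.card_pos.2 ⟨e0, he0⟩
  obtain ⟨S, hSE, hSc, he0S, T, w, hw0, hT, hwS, hnear, hcov⟩ := key E.card hpos le_rfl
  have hS : S = E := Finset.eq_of_subset_of_card_le hSE hSc.ge
  subst hS
  exact ⟨T, w, hw0, by omega, hwS, hnear, hcov⟩

end Pool.Agent.K9h1.EB
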