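import Pool.Agent.K9h1.EB.Stm2
import Pool.Agent.K9h1.EB.Geo2
import Pool.Agent.K9h1.EB.Tour
import Pool.Agent.K9h1.EB.Lists
import Pool.Agent.K9h1.EB.GEO3
import Pool.Agent.K9h1.EB.Pei

/-!
# Leaf BADS: the sums of the couplings over all contours are large
-/

set_option autoImplicit false

open MeasureTheory Filter Topology
open scoped ENNReal

namespace Pool.Agent.K9h1.EB

theorem bads : BADS := by
  classical
  intro d S hS M ε hM hε
  have h3 : GEO3 := geo3 geo2 tour lists
  obtain ⟨K2, hK2, H2⟩ := pei h3 {i // i ∈ S} (by simpa using hS) ε hε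
  set θ : ℝ := 1 / (2 * (1 + M)) with hθ
  have hθ0 : 0 < θ := by positivity
  set t0 : ℝ := (K2 + Real.log 2) / θ with ht0
  have hlog2 : 0 < Real.log 2 := Real.log_pos (by norm_num)
  have ht0' : 0 < t0 := by positivity
  refine ⟨Real.exp (-t0), Real.exp_pos _, ?_⟩
  intro K hK ρ _ hρ n
  set μ := Measure.infinitePi ρ with hμ
  set 𝒞 := (boxI S n).powerset.filter (fun A => 0 ∈ A ∧ Conn (bd A)) with h𝒞
  -- almost surely no coupling is too negative
  have hlow : ∀ᵐ J ∂μ, ∀ e : Edge d, e.2 ∈ S → -(M * K) ≤ J e := by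
    rw [ae_all_iff]
    intro e
    by_cases he : e.2 ∈ S
    · have h1 : (μ.map (fun J : Edge d → ℝ => J e)) = ρ e := by
        rw [hμ]
        exact (measurePreserving_eval_infinitePi ρ e).map_eq
      have h2 : μ {J | J e < -(M * K)} = 0 := by
        have h3 : MeasurableSet {x : ℝ | x < -(M * K)} := measurableSet_lt measurable_id measurable_const
        have h4 := (hρ e he).2
        rw [← h1, Measure.map_apply (measurable_pi_apply e) h3] at h4
        exact h4
      rw [ae_iff]
      refine measure_mono_null ?_ h2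
      intro J hJ
      by_contra h5
      exact hJ fun _ => not_lt.1 h5
    · exact Filter.Eventually.of_forall fun J h => absurd h he
  -- the probability that many couplings are small
  have hcyl : ∀ B : Finset (Edge d), (∀ e ∈ B, e.2 ∈ S) →
      μ {J | ∀ e ∈ B, J e < K} ≤ ENNReal.ofReal (Real.exp (-(t0 * B.card))) := by
    intro B hB
    have e1 : {J : Edge d → ℝ | ∀ e ∈ B, J e < K} = Set.pi (B : Set (Edge d)) fun _ => {x | x < K} := by
      ext J
      simp [Set.mem_pi]
    have hms : MeasurableSet {x : ℝ | x < K} := measurableSet_Iio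
    have e2 : μ (Set.pi (B : Set (Edge d)) fun _ => {x : ℝ | x < K}) =
        ∏ e ∈ B, ρ e {x | x < K} :=
      Measure.infinitePi_pi ρ (s := B) (t := fun _ => {x : ℝ | x < K}) (fun e _ => hms)
    rw [e1, e2]
    calc ∏ e ∈ B, ρ e {x | x < K} ≤ ∏ _e ∈ B, ENNReal.ofReal (Real.exp (-t0)) :=
          Finset.prod_le_prod' fun e he => (hρ e (hB e he)).1
      _ = ENNReal.ofReal (Real.exp (-(t0 * B.card))) := by
          rw [Finset.prod_const, ← ENNReal.ofReal_pow (Real.exp_pos _).le, ← Real.exp_nat_mul]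
          congr 2
          ring
  -- one contour
  have hone : ∀ A ∈ 𝒞, μ {J | ∑ e ∈ TT S A, J e < K / 2 * (bd A).card} ≤
      ENNReal.ofReal (Real.exp (-(K2 * (bd A).card))) := by
    intro A hA
    set m := (bd A).card with hm
    have hTm : (TT S A).card = m := TT_card S A
    have hTS : ∀ e ∈ TT S A, e.2 ∈ S := by
      intro e he
      by_contra h
      exact off_TT h he
    set PP := (TT S A).powerset.filter (fun B => θ * m ≤ (B.card : ℝ)) with hPP
    have hincl : ∀ᵐ J ∂μ, J ∈ {J : Edge d → ℝ | ∑ e ∈ TT S A, J e < K / 2 * m} →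
        J ∈ ⋃ B ∈ PP, {J : Edge d → ℝ | ∀ e ∈ B, J e < K} := by
      filter_upwards [hlow] with J hJ hsum
      have hsum' : ∑ e ∈ TT S A, J e < K / 2 * m := hsum
      set B := (TT S A).filter (fun e => J e < K) with hB
      have hb : (B.card : ℝ) + ((TT S A).filter (fun e => ¬ J e < K)).card = m := by
        rw [← hTm]
        exact_mod_cast Finset.card_filter_add_card_filter_not (s := TT S A) (fun e => J e < K)
      have hs : ∑ e ∈ TT S A, J e = ∑ e ∈ B, J e +
          ∑ e ∈ (TT S A).filter (fun e => ¬ J e < K), J e :=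
        (Finset.sum_filter_add_sum_filter_not _ _ _).symm
      have h1 : (B.card : ℝ) * (-(M * K)) ≤ ∑ e ∈ B, J e := by
        rw [← nsmul_eq_mul]
        exact Finset.card_nsmul_le_sum _ _ _ fun e he => hJ e (hTS e (Finset.mem_filter.1 he).1)
      have h2 : (((TT S A).filter (fun e => ¬ J e < K)).card : ℝ) * K ≤
          ∑ e ∈ (TT S A).filter (fun e => ¬ J e < K), J e := by
        rw [← nsmul_eq_mul]
        exact Finset.card_nsmul_le_sum _ _ _ fun e he => not_lt.1 (Finset.mem_filter.1 he).2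
      have h4 : (m : ℝ) / 2 ≤ (1 + M) * B.card := by
        have h5 : K * ((m : ℝ) / 2) ≤ K * ((1 + M) * B.card) := by nlinarith
        exact le_of_mul_le_mul_left h5 hK
      have h6 : θ * m ≤ (B.card : ℝ) := by
        rw [hθ, one_div_mul_eq_div, div_le_iff₀ (by positivity)]
        linarith
      rw [Set.mem_iUnion₂]
      exact ⟨B, Finset.mem_filter.2 ⟨Finset.mem_powerset.2 (Finset.filter_subset _ _), h6⟩,
        fun e he => (Finset.mem_filter.1 he).2⟩
    have h7 : μ {J : Edge d → ℝ | ∑ e ∈ TT S A, J e < K / 2 * m} ≤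
        μ (⋃ B ∈ PP, {J : Edge d → ℝ | ∀ e ∈ B, J e < K}) := measure_mono_ae hincl
    refine h7.trans ((measure_biUnion_finset_le _ _).trans ?_)
    have h8 : ∀ B ∈ PP, μ {J : Edge d → ℝ | ∀ e ∈ B, J e < K} ≤
        ENNReal.ofReal (Real.exp (-(t0 * (θ * m)))) := by
      intro B hB
      rw [hPP, Finset.mem_filter, Finset.mem_powerset] at hB
      refine (hcyl B fun e he => hTS e (hB.1 he)).trans (ENNReal.ofReal_le_ofReal ?_)
      exact Real.exp_le_exp.2 (neg_le_neg (mul_le_mul_of_nonneg_left hB.2 ht0'.le))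
    refine (Finset.sum_le_card_nsmul _ _ _ h8).trans ?_
    have h9 : (PP.card : ℝ) ≤ Real.exp (m * Real.log 2) := by
      have h10 : PP.card ≤ 2 ^ m := by
        rw [← hTm, ← Finset.card_powerset]
        exact Finset.card_filter_le _ _
      have h11 : Real.exp (m * Real.log 2) = (2 : ℝ) ^ m := by
        rw [← Real.log_pow, Real.exp_log (by positivity)]
      rw [h11]
      exact_mod_cast h10
    rw [nsmul_eq_mul, ← ENNReal.ofReal_natCast, ← ENNReal.ofReal_mul (by positivity)]
    refine ENNReal.ofReal_le_ofReal ?_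
    calc (PP.card : ℝ) * Real.exp (-(t0 * (θ * m)))
        ≤ Real.exp (m * Real.log 2) * Real.exp (-(t0 * (θ * m))) :=
          mul_le_mul_of_nonneg_right h9 (Real.exp_pos _).le
      _ = Real.exp (-(K2 * m)) := by
          rw [← Real.exp_add]
          congr 1
          rw [ht0]
          field_simp
          ring
  have hsub : {J : Edge d → ℝ | ∃ A ∈ (boxI S n).powerset, 0 ∈ A ∧ Conn (bd A) ∧
      ∑ e ∈ TT S A, J e < K / 2 * (bd A).card} ⊆
      ⋃ A ∈ 𝒞, {J | ∑ e ∈ TT S A, J e < K / 2 * (bd A).card} := by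
    rintro J ⟨A, hA1, hA2, hA3, hA4⟩
    exact Set.mem_iUnion₂.2 ⟨A, Finset.mem_filter.2 ⟨hA1, hA2, hA3⟩, hA4⟩
  refine (measure_mono hsub).trans ((measure_biUnion_finset_le _ _).trans ?_)
  refine (Finset.sum_le_sum hone).trans ?_
  rw [← ENNReal.ofReal_sum_of_nonneg fun A _ => (Real.exp_pos _).le]
  refine ENNReal.ofReal_le_ofReal (H2 K2 le_rfl 𝒞 ?_)
  intro A hA
  obtain ⟨_, hA2, hA3⟩ := Finset.mem_filter.1 hA
  exact ⟨_, hA2, hA3, rfl⟩

end Pool.Agent.K9h1.EB
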