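import Pool.Agent.K9h1.EB.GEO3

/-!
# The chaining argument (leaf CHAIN)
-/

set_option autoImplicit false

namespace Pool.Agent.K9h1.EB

section chain

variable {I : Type} [Fintype I] [DecidableEq I]

set_option linter.unusedSectionVars false

lemma xCHAIN_mem_cube {n : ℕ} {q x : I → ℤ} :
    x ∈ cube n q ↔ ∀ c, (n : ℤ) * q c ≤ x c ∧ x c < (n : ℤ) * q c + n := by
  unfold cube
  rw [Fintype.mem_piFinset]
  simp only [Finset.mem_Ico]

lemma up_coarse_one (A : Finset (I → ℤ)) : up (2 ^ 0) (coarse (2 ^ 0) A) = A := by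
  have hc : ∀ q x : I → ℤ, x ∈ cube 1 q ↔ x = q := by
    intro q x
    rw [xCHAIN_mem_cube]
    constructor
    · intro h
      funext c
      have := h c
      push_cast at this
      omega
    · rintro rfl c
      push_cast
      omega
  have hb : ∀ x : I → ℤ, blk 1 x = x := by
    intro x; funext c; simp [blk]
  ext x
  unfold up
  rw [Finset.mem_biUnion]
  simp only [pow_zero]
  constructor
  · rintro ⟨q, hq, hx⟩
    rw [hc] at hx
    subst hx
    unfold coarse at hq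
    rw [Finset.mem_filter, Finset.mem_image] at hq
    obtain ⟨⟨y, hy, hyx⟩, _⟩ := hq
    rw [hb] at hyx
    rw [← hyx]; exact hy
  · intro hx
    refine ⟨x, ?_, (hc x x).2 rfl⟩
    unfold coarse
    rw [Finset.mem_filter, Finset.mem_image]
    refine ⟨⟨x, hx, hb x⟩, ?_⟩
    rw [one_pow]
    have : 1 ≤ (A ∩ cube 1 x).card :=
      Finset.card_pos.2 ⟨x, Finset.mem_inter.2 ⟨hx, (hc x x).2 rfl⟩⟩
    omega

lemma coarse_eq_empty (h2 : GEO2) (hk : 3 ≤ Fintype.card I) (m j : ℕ) (A : Finset (I → ℤ))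
    (hA : IsCont m A) (hj : 16 * Fintype.card I * m < 4 ^ j) :
    up (2 ^ j) (coarse (2 ^ j) A) = ∅ := by
  obtain ⟨g1, _, _⟩ := h2 I (by omega) (2 ^ j) Nat.one_le_two_pow A
  rw [hA.2.2] at g1
  have h1 : (bd (coarse (2 ^ j) A)).card = 0 := by
    by_contra h
    have e1 : 1 ≤ (bd (coarse (2 ^ j) A)).card := Nat.one_le_iff_ne_zero.2 h
    have e2 : (2 ^ j) ^ 2 ≤ (2 ^ j) ^ (Fintype.card I - 1) :=
      Nat.pow_le_pow_right (Nat.two_pow_pos j) (by omega)
    have e3 : 4 ^ j = (2 ^ j) ^ 2 := by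
      rw [← pow_mul, mul_comm, pow_mul]; norm_num
    have e4 : (2 ^ j) ^ (Fintype.card I - 1) ≤
        (bd (coarse (2 ^ j) A)).card * (2 ^ j) ^ (Fintype.card I - 1) :=
      Nat.le_mul_of_pos_left _ e1
    omega
  obtain ⟨i0⟩ : Nonempty I := Fintype.card_pos_iff.1 (by omega)
  have h3 : coarse (2 ^ j) A = ∅ := by
    apply bd_inj i0
    rw [bd_empty]
    exact Finset.card_eq_zero.1 h1
  rw [h3]
  rfl

lemma cont_pos (hk : 3 ≤ Fintype.card I) (m : ℕ) (A : Finset (I → ℤ)) (hA : IsCont m A) :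
    1 ≤ m := by
  obtain ⟨a, b, hab⟩ := Fintype.exists_pair_of_one_lt_card (α := I) (by omega)
  obtain ⟨t, _, ht⟩ := start_edge a b hab.symm A hA.1
  rw [hA.2.2] at ht
  omega

lemma diff_bound (h2 : GEO2) (hk : 3 ≤ Fintype.card I) (m j : ℕ) (A : Finset (I → ℤ))
    (hA : IsCont m A) :
    ((up (2 ^ j) (coarse (2 ^ j) A)) \ (up (2 ^ (j + 1)) (coarse (2 ^ (j + 1)) A))).card +
      ((up (2 ^ (j + 1)) (coarse (2 ^ (j + 1)) A)) \ (up (2 ^ j) (coarse (2 ^ j) A))).card ≤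
      3 * 2 ^ j * m := by
  obtain ⟨_, g1, _⟩ := h2 I (by omega) (2 ^ j) Nat.one_le_two_pow A
  obtain ⟨_, g2, _⟩ := h2 I (by omega) (2 ^ (j + 1)) Nat.one_le_two_pow A
  rw [hA.2.2] at g1 g2
  have tri : ∀ X Y : Finset (I → ℤ), (X \ Y).card ≤ (X \ A).card + (A \ Y).card := by
    intro X Y
    refine (Finset.card_le_card ?_).trans (Finset.card_union_le _ _)
    intro z hz
    simp only [Finset.mem_sdiff, Finset.mem_union] at *
    tauto
  have e1 := tri (up (2 ^ j) (coarse (2 ^ j) A)) (up (2 ^ (j + 1)) (coarse (2 ^ (j + 1)) A))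
  have e2 := tri (up (2 ^ (j + 1)) (coarse (2 ^ (j + 1)) A)) (up (2 ^ j) (coarse (2 ^ j) A))
  have e3 : 2 ^ (j + 1) * m = 2 * (2 ^ j * m) := by rw [pow_succ]; ring
  have e4 : 3 * 2 ^ j * m = 3 * (2 ^ j * m) := by ring
  omega

end chain

/-- the term of the double sum -/
lemma term_bound (k : ℕ) (hk : 1 ≤ k) (κ : ℝ) (hκ : 0 < κ) (m j : ℕ) (hm : 1 ≤ m)
    (hj : 4 ^ j ≤ 16 * k * m) :
    Real.exp (-(κ * (49 / 128) ^ j * m)) ≤
      5040 * (16 * (k : ℝ)) ^ 5 / κ ^ 7 * ((m : ℝ) ^ 2)⁻¹ * (5 / 6) ^ j := by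
  have hkR : (1 : ℝ) ≤ k := by exact_mod_cast hk
  have hmR : (1 : ℝ) ≤ m := by exact_mod_cast hm
  have hk0 : (0 : ℝ) < 16 * k := by positivity
  have hm0 : (0 : ℝ) < m := by positivity
  set y : ℝ := κ * (49 / 128) ^ j * m with hy
  have hy0 : 0 < y := by positivity
  have h1 : y ^ 7 / 5040 ≤ Real.exp y := by
    have := Real.pow_div_factorial_le_exp y hy0.le 7
    have h7 : ((Nat.factorial 7 : ℕ) : ℝ) = 5040 := by norm_num [Nat.factorial]
    rwa [h7] at this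
  have h2 : Real.exp (-y) ≤ 5040 / y ^ 7 := by
    rw [Real.exp_neg, inv_eq_one_div, div_le_div_iff₀ (Real.exp_pos _) (by positivity)]
    rw [div_le_iff₀ (by norm_num)] at h1
    linarith
  refine h2.trans ?_
  have h3 : ((4 : ℝ) ^ j) ≤ 16 * k * m := by exact_mod_cast hj
  have h4 : ((4 : ℝ) ^ j) / (16 * k) ≤ m := by
    rw [div_le_iff₀ hk0]; linarith
  have h5 : ((6 : ℝ) / 5) ^ j ≤ ((49 / 128) ^ j) ^ 7 * (4 ^ j) ^ 5 := by
    have e1 : ((49 / 128 : ℝ) ^ j) ^ 7 = ((49 / 128) ^ 7) ^ j := by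
      rw [← pow_mul, ← pow_mul, mul_comm]
    have e2 : ((4 : ℝ) ^ j) ^ 5 = (4 ^ 5) ^ j := by
      rw [← pow_mul, ← pow_mul, mul_comm]
    rw [e1, e2, ← mul_pow]
    gcongr
    norm_num
  have h6 : κ ^ 7 * (m : ℝ) ^ 2 * (6 / 5) ^ j / (16 * k) ^ 5 ≤ y ^ 7 := by
    calc κ ^ 7 * (m : ℝ) ^ 2 * (6 / 5) ^ j / (16 * k) ^ 5
        ≤ κ ^ 7 * (m : ℝ) ^ 2 * (((49 / 128) ^ j) ^ 7 * (4 ^ j) ^ 5) / (16 * k) ^ 5 := by gcongr
      _ = κ ^ 7 * (m : ℝ) ^ 2 * ((49 / 128) ^ j) ^ 7 * ((4 : ℝ) ^ j / (16 * k)) ^ 5 := by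
          rw [div_pow]; ring
      _ ≤ κ ^ 7 * (m : ℝ) ^ 2 * ((49 / 128) ^ j) ^ 7 * (m : ℝ) ^ 5 := by gcongr
      _ = y ^ 7 := by rw [hy]; ring
  calc 5040 / y ^ 7 ≤ 5040 / (κ ^ 7 * (m : ℝ) ^ 2 * (6 / 5) ^ j / (16 * k) ^ 5) := by
        gcongr
    _ = 5040 * (16 * (k : ℝ)) ^ 5 / κ ^ 7 * ((m : ℝ) ^ 2)⁻¹ * (5 / 6) ^ j := by
        have : ((5 : ℝ) / 6) ^ j = ((6 / 5) ^ j)⁻¹ := by
          rw [← inv_pow]; norm_num
        rw [this]
        have h7 : ((6 : ℝ) / 5) ^ j ≠ 0 := by positivity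
        field_simp

lemma sum_sq_le (S : Finset ℕ) (hS : ∀ m ∈ S, 1 ≤ m) : ∑ m ∈ S, ((m : ℝ) ^ 2)⁻¹ ≤ 2 := by
  obtain ⟨N, hN⟩ := S.exists_le
  have hsub : S ⊆ Finset.Ioo 0 (N + 1) := by
    intro m hm
    rw [Finset.mem_Ioo]
    have := hS m hm
    have := hN m hm
    omega
  calc ∑ m ∈ S, ((m : ℝ) ^ 2)⁻¹ ≤ ∑ m ∈ Finset.Ioo 0 (N + 1), ((m : ℝ) ^ 2)⁻¹ :=
        Finset.sum_le_sum_of_subset_of_nonneg hsub (fun _ _ _ => by positivity)
    _ ≤ 2 / ((0 : ℕ) + 1) := sum_Ioo_inv_sq_le 0 (N + 1)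
    _ = 2 := by norm_num

lemma xCHAIN_geom_le (J : ℕ) (r : ℝ) (h0 : 0 ≤ r) (h1 : r < 1) :
    ∑ j ∈ Finset.range J, r ^ j ≤ 1 / (1 - r) := by
  rw [geom_sum_eq h1.ne, le_div_iff₀ (by linarith), ← neg_div_neg_eq, neg_sub, neg_sub,
    div_mul_cancel₀ _ (by linarith)]
  have := pow_nonneg h0 J
  linarith

/-- entropy against energy -/
lemma exp_bound (c κ : ℝ) (hc : 0 < c) (hκ : 4 * c ≤ κ) (m j : ℕ) :
    Real.exp (c * (1 + j) * m / 4 ^ j) * Real.exp (c * (1 + (j + 1 : ℕ)) * m / 4 ^ (j + 1)) *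
      Real.exp (-(2 * κ * (49 / 128) ^ j * m)) ≤ Real.exp (-(κ * (49 / 128) ^ j * m)) := by
  rw [← Real.exp_add, ← Real.exp_add]
  apply Real.exp_le_exp.2
  have hj : (0 : ℝ) ≤ j := Nat.cast_nonneg _
  have hm : (0 : ℝ) ≤ m := Nat.cast_nonneg _
  have h1 : 2 + (j : ℝ) ≤ 2 * (49 / 32) ^ j := by
    have := one_add_mul_le_pow (a := (17 / 32 : ℝ)) (by norm_num) j
    norm_num at this
    linarith
  have h2 : ((49 : ℝ) / 32) ^ j / 4 ^ j = (49 / 128) ^ j := by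
    rw [← div_pow]; norm_num
  have h3 : c * (1 + j) * m / 4 ^ j + c * (1 + (j + 1 : ℕ)) * m / 4 ^ (j + 1) ≤
      2 * c * m * ((2 + j) / 4 ^ j) := by
    rw [pow_succ]
    push_cast
    have e : c * (1 + (↑j + 1)) * m / (4 ^ j * 4) = c * m * ((2 + j) / 4 ^ j) / 4 := by
      field_simp; ring
    have e' : c * (1 + (j : ℝ)) * m / 4 ^ j = c * m * ((1 + j) / 4 ^ j) := by ring
    rw [e, e']
    have e1 : (1 + (j : ℝ)) / 4 ^ j ≤ (2 + j) / 4 ^ j := by gcongr; norm_num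
    have e2 : 0 ≤ (2 + (j : ℝ)) / 4 ^ j := by positivity
    have e3 : 0 ≤ c * m := by positivity
    nlinarith [mul_le_mul_of_nonneg_left e1 e3, mul_nonneg e3 e2]
  have h4 : (2 + (j : ℝ)) / 4 ^ j ≤ 2 * (49 / 128) ^ j := by
    calc (2 + (j : ℝ)) / 4 ^ j ≤ (2 * (49 / 32) ^ j) / 4 ^ j := by gcongr
      _ = 2 * (49 / 128) ^ j := by rw [mul_div_assoc, h2]
  have h5 : 2 * c * m * ((2 + j) / 4 ^ j) ≤ 2 * c * m * (2 * (49 / 128) ^ j) := by gcongr
  have h6 : (4 * c) * ((49 / 128) ^ j * m) ≤ κ * ((49 / 128 : ℝ) ^ j * m) := by gcongr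
  nlinarith

theorem chain (h2 : GEO2) (h3 : GEO3) (hsub : SUBG) : CHAIN := by
  classical
  intro I _ _ hk d hd ε hε
  obtain ⟨c, hc0, hc⟩ := h3 I hk
  set k := Fintype.card I with hkdef
  have hdR : (1 : ℝ) ≤ d := by exact_mod_cast hd
  set κ0 : ℝ := 1 + 4 * c + 60480 * (16 * (k : ℝ)) ^ 5 / ε with hκ0
  have hκ00 : 0 ≤ 60480 * (16 * (k : ℝ)) ^ 5 / ε := by positivity
  have hκ01 : 1 ≤ κ0 := by rw [hκ0]; linarith
  refine ⟨6144 * d * κ0, by positivity, ?_⟩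
  intro W _ _ F β K hβ hK hF E hE0 hE 𝒞
  have hK1 : 1 ≤ K := by
    refine le_trans ?_ hK
    nlinarith
  set κ : ℝ := K ^ 2 / (6144 * d) with hκ
  have hκκ : κ0 ≤ κ := by
    rw [hκ, le_div_iff₀ (by positivity)]
    nlinarith
  have hκp : 0 < κ := by linarith
  set N : ℝ := 2 ^ Fintype.card W with hN
  have hN0 : 0 < N := by positivity
  set w : ℕ → ℝ := fun j => (7 / 8) ^ j / 8 with hw
  set Ms : Finset ℕ := (𝒞.image (fun A => (bd A).card)).filter (fun m => 1 ≤ m) with hMs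
  obtain ⟨M, hM⟩ := Ms.exists_le
  set J : ℕ := 16 * k * M with hJ
  have hJ4 : ∀ m ∈ Ms, 16 * k * m < 4 ^ J := by
    intro m hm
    have e1 : 16 * k * m ≤ J := Nat.mul_le_mul_left _ (hM m hm)
    exact e1.trans_lt (Nat.lt_pow_self (by norm_num))
  set PP : ℕ → ℕ → Finset (Finset (I → ℤ) × Finset (I → ℤ)) := fun m j =>
    (𝒞.filter (fun A => IsCont m A)).image (fun A => (coarse (2 ^ j) A, coarse (2 ^ (j + 1)) A))
    with hPP
  set Bad : ℕ → ℕ → Finset (I → ℤ) × Finset (I → ℤ) → Finset (W → Bool) := fun m j P =>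
    Finset.univ.filter (fun s => β * K * m * w j ≤
      F (fl (E (up (2 ^ j) P.1)) s) - F (fl (E (up (2 ^ (j + 1)) P.2)) s)) with hBad
  have hcover : (Finset.univ : Finset (W → Bool)).filter (fun s => ∃ A ∈ 𝒞, ∃ m : ℕ, IsCont m A ∧
      β * K * m < F (fl (E A) s) - F s) ⊆
      Ms.biUnion (fun m => ((Finset.range J).filter (fun j => 4 ^ j ≤ 16 * k * m)).biUnion
        (fun j => (PP m j).biUnion (fun P => Bad m j P))) := by
    intro s hs
    rw [Finset.mem_filter] at hs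
    obtain ⟨_, A, hA𝒞, m, hAm, hlt⟩ := hs
    have hm1 : 1 ≤ m := cont_pos hk m A hAm
    have hmMs : m ∈ Ms := by
      rw [hMs, Finset.mem_filter, Finset.mem_image]
      exact ⟨⟨A, hA𝒞, hAm.2.2⟩, hm1⟩
    set x : ℕ → ℝ := fun j => F (fl (E (up (2 ^ j) (coarse (2 ^ j) A))) s) with hx
    have hempty : ∀ j, 16 * k * m < 4 ^ j → up (2 ^ j) (coarse (2 ^ j) A) = ∅ :=
      fun j hj => coarse_eq_empty h2 hk m j A hAm hj
    have hx0 : x 0 = F (fl (E A) s) := by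
      simp only [hx]; rw [up_coarse_one]
    have hxe : ∀ j, 16 * k * m < 4 ^ j → x j = F s := by
      intro j hj
      simp only [hx]
      rw [hempty j hj, hE0]
      congr 1
    have htel : ∑ j ∈ Finset.range J, (x j - x (j + 1)) = F (fl (E A) s) - F s := by
      rw [Finset.sum_range_sub', hx0, hxe J (hJ4 m hmMs)]
    have hX : 0 < β * K * m := by
      have : (1 : ℝ) ≤ m := by exact_mod_cast hm1
      positivity
    obtain ⟨j, hjJ, hj⟩ : ∃ j ∈ Finset.range J, β * K * m * w j ≤ x j - x (j + 1) := by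
      by_contra hcon
      push Not at hcon
      have e1 : ∑ j ∈ Finset.range J, (x j - x (j + 1)) ≤
          ∑ j ∈ Finset.range J, β * K * m * w j :=
        Finset.sum_le_sum fun j hj => (hcon j hj).le
      rw [htel, ← Finset.mul_sum] at e1
      have e2 : ∑ j ∈ Finset.range J, w j ≤ 1 := by
        simp only [hw]
        rw [← Finset.sum_div]
        have := xCHAIN_geom_le J (7 / 8) (by norm_num) (by norm_num)
        rw [div_le_one (by norm_num)]
        norm_num at this ⊢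
        exact this
      have e3 : β * K * m * ∑ j ∈ Finset.range J, w j ≤ β * K * m * 1 := by gcongr
      linarith
    have hj4 : 4 ^ j ≤ 16 * k * m := by
      by_contra hcon
      push Not at hcon
      have hcon' : 16 * k * m < 4 ^ (j + 1) := hcon.trans_le (Nat.pow_le_pow_right (by norm_num) (by omega))
      rw [hxe j hcon, hxe (j + 1) hcon', sub_self] at hj
      have : 0 < β * K * m * w j := by
        have : 0 < w j := by simp only [hw]; positivity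
        positivity
      linarith
    rw [Finset.mem_biUnion]
    refine ⟨m, hmMs, ?_⟩
    rw [Finset.mem_biUnion]
    refine ⟨j, Finset.mem_filter.2 ⟨hjJ, hj4⟩, ?_⟩
    rw [Finset.mem_biUnion]
    refine ⟨(coarse (2 ^ j) A, coarse (2 ^ (j + 1)) A), ?_, ?_⟩
    · simp only [hPP]
      exact Finset.mem_image.2 ⟨A, Finset.mem_filter.2 ⟨hA𝒞, hAm⟩, rfl⟩
    · simp only [hBad]
      exact Finset.mem_filter.2 ⟨Finset.mem_univ _, hj⟩
  -- the probability of one bad event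
  have hone : ∀ m ∈ Ms, ∀ j, ∀ P ∈ PP m j,
      ((Bad m j P).card : ℝ) ≤ N * Real.exp (-(2 * κ * (49 / 128) ^ j * m)) := by
    intro m hm j P hP
    have hm1 : 1 ≤ m := (Finset.mem_filter.1 hm).2
    have hmR : (1 : ℝ) ≤ m := by exact_mod_cast hm1
    simp only [hPP] at hP
    obtain ⟨A, hA, rfl⟩ := Finset.mem_image.1 hP
    obtain ⟨hA𝒞, hAm⟩ := Finset.mem_filter.1 hA
    have hsd : (symmDiff (E (up (2 ^ j) (coarse (2 ^ j) A)))
        (E (up (2 ^ (j + 1)) (coarse (2 ^ (j + 1)) A)))).card ≤ 6 * d * 2 ^ j * m := by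
      refine (hE _ _).trans ?_
      have := diff_bound h2 hk m j A hAm
      calc 2 * d * _ ≤ 2 * d * (3 * 2 ^ j * m) := Nat.mul_le_mul_left _ this
        _ = 6 * d * 2 ^ j * m := by ring
    have hwj : 0 < w j := by simp only [hw]; positivity
    have := hsub W F β hβ.le hF (E (up (2 ^ j) (coarse (2 ^ j) A)))
      (E (up (2 ^ (j + 1)) (coarse (2 ^ (j + 1)) A))) (β * K * m * w j) (by positivity)
      (6 * d * 2 ^ j * m) hsd
    simp only [hBad]
    refine this.trans (le_of_eq ?_)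
    congr 2
    have e1 : w j ^ 2 = (49 / 128) ^ j * 2 ^ j / 64 := by
      simp only [hw]
      rw [div_pow, ← pow_mul, mul_comm j 2, pow_mul, ← mul_pow]
      norm_num
    rw [hκ]
    push_cast
    rw [mul_pow (β * K * m) (w j), e1]
    have : (0 : ℝ) < 2 ^ j := by positivity
    field_simp
    ring
  have hcardP : ∀ m j, ((PP m j).card : ℝ) ≤
      Real.exp (c * (1 + j) * m / 4 ^ j) * Real.exp (c * (1 + (j + 1 : ℕ)) * m / 4 ^ (j + 1)) := by
    intro m j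
    have e1 := hc m j ((𝒞.filter (fun A => IsCont m A)).image (coarse (2 ^ j))) (by
      intro Q hQ
      obtain ⟨A, hA, rfl⟩ := Finset.mem_image.1 hQ
      exact ⟨A, (Finset.mem_filter.1 hA).2, rfl⟩)
    have e2 := hc m (j + 1) ((𝒞.filter (fun A => IsCont m A)).image (coarse (2 ^ (j + 1)))) (by
      intro Q hQ
      obtain ⟨A, hA, rfl⟩ := Finset.mem_image.1 hQ
      exact ⟨A, (Finset.mem_filter.1 hA).2, rfl⟩)
    have hsubset : PP m j ⊆ ((𝒞.filter (fun A => IsCont m A)).image (coarse (2 ^ j))) ×ˢ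
        ((𝒞.filter (fun A => IsCont m A)).image (coarse (2 ^ (j + 1)))) := by
      intro P hP
      simp only [hPP] at hP
      obtain ⟨A, hA, rfl⟩ := Finset.mem_image.1 hP
      exact Finset.mem_product.2 ⟨Finset.mem_image_of_mem _ hA, Finset.mem_image_of_mem _ hA⟩
    have e3 := Finset.card_le_card hsubset
    rw [Finset.card_product] at e3
    calc ((PP m j).card : ℝ) ≤ ((((𝒞.filter (fun A => IsCont m A)).image (coarse (2 ^ j))).card *
          ((𝒞.filter (fun A => IsCont m A)).image (coarse (2 ^ (j + 1)))).card : ℕ) : ℝ) := by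
          exact_mod_cast e3
      _ ≤ _ := by push_cast; push_cast at e2; gcongr
  -- union bound
  have hmain : (((Finset.univ : Finset (W → Bool)).filter (fun s => ∃ A ∈ 𝒞, ∃ m : ℕ,
      IsCont m A ∧ β * K * m < F (fl (E A) s) - F s)).card : ℝ) ≤
      ∑ m ∈ Ms, ∑ j ∈ (Finset.range J).filter (fun j => 4 ^ j ≤ 16 * k * m),
        N * (5040 * (16 * (k : ℝ)) ^ 5 / κ ^ 7 * ((m : ℝ) ^ 2)⁻¹ * (5 / 6) ^ j) := by
    have e1 : ((Finset.univ : Finset (W → Bool)).filter (fun s => ∃ A ∈ 𝒞, ∃ m : ℕ,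
        IsCont m A ∧ β * K * m < F (fl (E A) s) - F s)).card ≤
        ∑ m ∈ Ms, ∑ j ∈ (Finset.range J).filter (fun j => 4 ^ j ≤ 16 * k * m),
          ∑ P ∈ PP m j, (Bad m j P).card := by
      refine (Finset.card_le_card hcover).trans (Finset.card_biUnion_le.trans ?_)
      refine Finset.sum_le_sum fun m _ => Finset.card_biUnion_le.trans ?_
      exact Finset.sum_le_sum fun j _ => Finset.card_biUnion_le
    calc _ ≤ ((∑ m ∈ Ms, ∑ j ∈ (Finset.range J).filter (fun j => 4 ^ j ≤ 16 * k * m),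
          ∑ P ∈ PP m j, (Bad m j P).card : ℕ) : ℝ) := by exact_mod_cast e1
      _ = ∑ m ∈ Ms, ∑ j ∈ (Finset.range J).filter (fun j => 4 ^ j ≤ 16 * k * m),
          ∑ P ∈ PP m j, ((Bad m j P).card : ℝ) := by push_cast; rfl
      _ ≤ _ := by
        refine Finset.sum_le_sum fun m hm => Finset.sum_le_sum fun j hj => ?_
        have hm1 : 1 ≤ m := (Finset.mem_filter.1 hm).2
        have hj4 : 4 ^ j ≤ 16 * k * m := (Finset.mem_filter.1 hj).2
        calc ∑ P ∈ PP m j, ((Bad m j P).card : ℝ)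
            ≤ ∑ _P ∈ PP m j, N * Real.exp (-(2 * κ * (49 / 128) ^ j * m)) :=
              Finset.sum_le_sum fun P hP => hone m hm j P hP
          _ = N * ((PP m j).card * Real.exp (-(2 * κ * (49 / 128) ^ j * m))) := by
              rw [Finset.sum_const, nsmul_eq_mul]; ring
          _ ≤ N * ((Real.exp (c * (1 + j) * m / 4 ^ j) *
                Real.exp (c * (1 + (j + 1 : ℕ)) * m / 4 ^ (j + 1))) *
                Real.exp (-(2 * κ * (49 / 128) ^ j * m))) := by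
              gcongr
              exact hcardP m j
          _ ≤ N * Real.exp (-(κ * (49 / 128) ^ j * m)) := by
              gcongr
              exact exp_bound c κ hc0 (by linarith) m j
          _ ≤ _ := by
              gcongr
              exact term_bound k (by omega) κ hκp m j hm1 hj4
  refine hmain.trans ?_
  set C1 : ℝ := 5040 * (16 * (k : ℝ)) ^ 5 / κ ^ 7 with hC1
  have hC10 : 0 ≤ C1 := by positivity
  have hin : ∀ m ∈ Ms, ∑ j ∈ (Finset.range J).filter (fun j => 4 ^ j ≤ 16 * k * m),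
      N * (C1 * ((m : ℝ) ^ 2)⁻¹ * (5 / 6) ^ j) ≤ N * C1 * 6 * ((m : ℝ) ^ 2)⁻¹ := by
    intro m _
    calc ∑ j ∈ (Finset.range J).filter (fun j => 4 ^ j ≤ 16 * k * m),
          N * (C1 * ((m : ℝ) ^ 2)⁻¹ * (5 / 6) ^ j)
        ≤ ∑ j ∈ Finset.range J, N * (C1 * ((m : ℝ) ^ 2)⁻¹ * (5 / 6) ^ j) :=
          Finset.sum_le_sum_of_subset_of_nonneg (Finset.filter_subset _ _)
            (fun _ _ _ => by positivity)
      _ = N * C1 * ((m : ℝ) ^ 2)⁻¹ * ∑ j ∈ Finset.range J, (5 / 6 : ℝ) ^ j := by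
          rw [Finset.mul_sum]
          exact Finset.sum_congr rfl fun j _ => by ring
      _ ≤ N * C1 * ((m : ℝ) ^ 2)⁻¹ * 6 := by
          gcongr
          have := xCHAIN_geom_le J (5 / 6) (by norm_num) (by norm_num)
          norm_num at this ⊢
          exact this
      _ = _ := by ring
  refine (Finset.sum_le_sum hin).trans ?_
  rw [← Finset.mul_sum]
  have hS := sum_sq_le Ms (fun m hm => (Finset.mem_filter.1 hm).2)
  calc N * C1 * 6 * ∑ m ∈ Ms, ((m : ℝ) ^ 2)⁻¹ ≤ N * C1 * 6 * 2 := by gcongr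
    _ = (60480 * (16 * (k : ℝ)) ^ 5 / κ ^ 7) * N := by rw [hC1]; ring
    _ ≤ ε * N := by
        gcongr
        have hκ1 : 1 ≤ κ := by linarith
        have e1 : κ ≤ κ ^ 7 := by
          calc κ = κ ^ 1 := (pow_one _).symm
            _ ≤ κ ^ 7 := pow_le_pow_right₀ hκ1 (by norm_num)
        rw [div_le_iff₀ (by positivity)]
        have e2 : 60480 * (16 * (k : ℝ)) ^ 5 / ε ≤ κ := by linarith
        rw [div_le_iff₀ hε] at e2
        calc 60480 * (16 * (k : ℝ)) ^ 5 ≤ κ * ε := e2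
          _ ≤ ε * κ ^ 7 := by nlinarith

end Pool.Agent.K9h1.EB
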