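import Mathlib

/-!
# Ising spin glasses with strong ferromagnetic bonds in at least three directions: definitions

Helper files of `MP_81d17b_pr` (helper1).  Sites are the points of `ℤ^d`; the edge `(x, i)` joins
`x` and `x + un i`.
-/

set_option autoImplicit false

open MeasureTheory

namespace Pool.Agent.K9h1.EB

/-! ## Lattice geometry, coordinates indexed by a finite type `I` -/

section geo

variable {I : Type} [Fintype I] [DecidableEq I]

/-- the unit vector -/
def un (i : I) : I → ℤ := Pi.single i 1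

/-- the edges `(x, i)` (joining `x` and `x + un i`) with exactly one end in `A` -/
def bd (A : Finset (I → ℤ)) : Finset ((I → ℤ) × I) :=
  ((A ×ˢ Finset.univ) ∪ (A ×ˢ Finset.univ).image (fun e => (e.1 - un e.2, e.2))).filter
    (fun e => ¬ (e.1 ∈ A ↔ e.1 + un e.2 ∈ A))

lemma mem_bd {A : Finset (I → ℤ)} {e : (I → ℤ) × I} :
    e ∈ bd A ↔ ¬ (e.1 ∈ A ↔ e.1 + un e.2 ∈ A) := by
  unfold bd
  rw [Finset.mem_filter, Finset.mem_union, Finset.mem_image, and_iff_right_iff_imp]
  intro h
  by_cases h1 : e.1 ∈ A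
  · exact Or.inl (Finset.mem_product.2 ⟨h1, Finset.mem_univ _⟩)
  · refine Or.inr ⟨(e.1 + un e.2, e.2), Finset.mem_product.2 ⟨?_, Finset.mem_univ _⟩, ?_⟩
    · by_contra h2
      exact h ⟨fun h3 => absurd h3 h1, fun h3 => absurd h3 h2⟩
    · ext <;> simp

lemma bd_empty : bd (∅ : Finset (I → ℤ)) = ∅ := by
  ext e
  simp [mem_bd]

/-- two edges whose base points differ by at most one in every coordinate -/
def near (e f : (I → ℤ) × I) : Prop := ∀ c, |e.1 c - f.1 c| ≤ 1

/-- a set of edges is connected under `near` -/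
def Conn (E : Finset ((I → ℤ) × I)) : Prop :=
  ∀ e ∈ E, ∀ f ∈ E, Relation.ReflTransGen (fun a b => b ∈ E ∧ near a b) e f

/-- `A` is a finite set containing the origin whose boundary is connected and has `m` edges -/
def IsCont (m : ℕ) (A : Finset (I → ℤ)) : Prop := 0 ∈ A ∧ Conn (bd A) ∧ (bd A).card = m

/-- the index of the block of side `n` containing `x` -/
def blk (n : ℕ) (x : I → ℤ) : I → ℤ := fun c => x c / (n : ℤ)

/-- the block of side `n` with index `q` -/
noncomputable def cube (n : ℕ) (q : I → ℤ) : Finset (I → ℤ) :=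
  Fintype.piFinset fun c => Finset.Ico ((n : ℤ) * q c) ((n : ℤ) * q c + n)

/-- the indices of the blocks of side `n` at least half of which is in `A` -/
noncomputable def coarse (n : ℕ) (A : Finset (I → ℤ)) : Finset (I → ℤ) :=
  (A.image (blk n)).filter (fun q => n ^ Fintype.card I ≤ 2 * (A ∩ cube n q).card)

/-- the union of the blocks with indices in `Q` -/
noncomputable def up (n : ℕ) (Q : Finset (I → ℤ)) : Finset (I → ℤ) := Q.biUnion (cube n)

/-- `ℓ¹`-length of the polygonal line starting at `p` through the base points of a list of edges -/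
def len1 (p : I → ℤ) : List ((I → ℤ) × I) → ℕ
  | [] => 0
  | f :: L => (∑ c, (f.1 c - p c).natAbs) + len1 f.1 L

end geo

/-- flip the signs in `D` -/
def fl {W : Type} [DecidableEq W] (D : Finset W) (s : W → Bool) : W → Bool :=
  fun w => if w ∈ D then !(s w) else s w

/-! ## The model -/

/-- sites of the lattice -/
abbrev Site (d : ℕ) : Type := Fin d → ℤ

/-- edges of the lattice: `(x, i)` is the edge between `x` and `x + un i` -/
abbrev Edge (d : ℕ) : Type := Site d × Fin d

/-- `true ↦ +1`, `false ↦ -1` -/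
def sg (b : Bool) : ℝ := if b then 1 else -1

/-- the edges with at least one end in `Λ` -/
def edgesOf {d : ℕ} (Λ : Finset (Site d)) : Finset (Edge d) :=
  (Λ ×ˢ Finset.univ) ∪ (Λ ×ˢ Finset.univ).image (fun e => (e.1 - un e.2, e.2))

lemma mem_edgesOf {d : ℕ} {Λ : Finset (Site d)} {e : Edge d} :
    e ∈ edgesOf Λ ↔ e.1 ∈ Λ ∨ e.1 + un e.2 ∈ Λ := by
  unfold edgesOf
  rw [Finset.mem_union, Finset.mem_image]
  constructor
  · rintro (h | ⟨f, hf, rfl⟩)
    · exact Or.inl (Finset.mem_product.1 h).1
    · right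
      simpa using (Finset.mem_product.1 hf).1
  · rintro (h | h)
    · exact Or.inl (Finset.mem_product.2 ⟨h, Finset.mem_univ _⟩)
    · exact Or.inr ⟨(e.1 + un e.2, e.2), Finset.mem_product.2 ⟨h, Finset.mem_univ _⟩,
        by ext <;> simp⟩

/-- `∑ J_e σ_x σ_y` over the edges with at least one end in `Λ` -/
noncomputable def ham {d : ℕ} (J : Edge d → ℝ) (Λ : Finset (Site d)) (σ : Site d → Bool) : ℝ :=
  ∑ e ∈ edgesOf Λ, J e * sg (σ e.1) * sg (σ (e.1 + un e.2))

/-- the configuration equal to `η` on `Λ` and to `ω` off `Λ` -/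
def glue {d : ℕ} (Λ : Finset (Site d)) (η : Λ → Bool) (ω : Site d → Bool) : Site d → Bool :=
  fun x => if h : x ∈ Λ then η ⟨x, h⟩ else ω x

/-- partition function in `Λ` with boundary condition `ω` -/
noncomputable def Zp {d : ℕ} (β : ℝ) (J : Edge d → ℝ) (Λ : Finset (Site d))
    (ω : Site d → Bool) : ℝ :=
  ∑ η : Λ → Bool, Real.exp (β * ham J Λ (glue Λ η ω))

/-- expectation of `f` under the finite-volume measure in `Λ` with boundary condition `ω` -/
noncomputable def gE {d : ℕ} (β : ℝ) (J : Edge d → ℝ) (Λ : Finset (Site d))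
    (ω : Site d → Bool) (f : (Site d → Bool) → ℝ) : ℝ :=
  (∑ η : Λ → Bool, Real.exp (β * ham J Λ (glue Λ η ω)) * f (glue Λ η ω)) / Zp β J Λ ω

/-- Gibbs states at `(β, J)`: probability measures satisfying the DLR equations for all finite
sets `Λ` of sites -/
def IsGibbs {d : ℕ} (β : ℝ) (J : Edge d → ℝ) (π : Measure (Site d → Bool)) : Prop :=
  IsProbabilityMeasure π ∧
    ∀ (Λ : Finset (Site d)) (A : Set (Site d → Bool)), MeasurableSet A →
      (π A).toReal = ∫ ω, gE β J Λ ω (A.indicator fun _ => (1 : ℝ)) ∂π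

/-- the couplings: `a e` on the edges in the directions of `S`, and `± a e`, with the sign `s e`,
on the others -/
noncomputable def Jof {d : ℕ} (S : Finset (Fin d)) (a : Edge d → ℝ) (s : Edge d → Bool)
    (e : Edge d) : ℝ :=
  if e.2 ∈ S then a e else sg (s e) * a e

/-- the law of the signs: independent fair signs -/
noncomputable def signLaw (d : ℕ) : Measure (Edge d → Bool) :=
  Measure.infinitePi fun _ => (PMF.uniformOfFintype Bool).toMeasure

instance (d : ℕ) : IsProbabilityMeasure (signLaw d) := by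
  unfold signLaw; infer_instance

/-- the box `{-n, ..., n}^d` -/
noncomputable def box (d n : ℕ) : Finset (Site d) := Finset.Icc (fun _ => -(n : ℤ)) (fun _ => (n : ℤ))

/-- the constant configuration -/
def cst {d : ℕ} (b : Bool) : Site d → Bool := fun _ => b

open Classical in
/-- the indicator of the cylinder `{σ = η on Δ}` -/
noncomputable def cyl {d : ℕ} (Δ : Finset (Site d)) (η : Δ → Bool) (σ : Site d → Bool) : ℝ :=
  if ∀ x : Δ, σ x = η x then 1 else 0

/-- the difference of the `+` and `-` boundary conditions does not tend to zero on some cylinder -/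
def Nonuniq {d : ℕ} (β : ℝ) (J : Edge d → ℝ) : Prop :=
  ∃ (Δ : Finset (Site d)) (η : Δ → Bool), ¬ Filter.Tendsto
    (fun n : ℕ => gE β J (box d n) (cst true) (cyl Δ η) - gE β J (box d n) (cst false) (cyl Δ η))
    Filter.atTop (nhds 0)

end Pool.Agent.K9h1.EB
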