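import Pool.Agent.K9h1.EB.Stm

/-!
# The energy estimates in a finite box

Flipping the spins inside a contour of the layer of the origin together with the signs of all edges
leaving this layer from the flipped sites.
-/

set_option autoImplicit false

open MeasureTheory

namespace Pool.Agent.K9h1.EB

/-! ## signs -/

lemma sg_not (b : Bool) : sg (!b) = -sg b := by cases b <;> simp [sg]

lemma sg_abs (b : Bool) : |sg b| = 1 := by cases b <;> simp [sg]

lemma sg_mul_self (b : Bool) : sg b * sg b = 1 := by cases b <;> simp [sg]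

lemma sg_ne {b c : Bool} (h : b ≠ c) : sg b * sg c = -1 := by
  cases b <;> cases c <;> simp_all [sg]

variable {d : ℕ}

/-! ## the layer -/

/-- the embedding of the layer `ℤ^S` into `ℤ^d` -/
def emb (S : Finset (Fin d)) (x : {i // i ∈ S} → ℤ) : Site d :=
  fun i => if h : i ∈ S then x ⟨i, h⟩ else 0

lemma emb_inj (S : Finset (Fin d)) : Function.Injective (emb S) := by
  intro x y h
  funext i
  have := congrFun h i.1
  simp only [emb, i.2, dif_pos] at this
  exact this

lemma emb_add (S : Finset (Fin d)) (x : {i // i ∈ S} → ℤ) (i : {i // i ∈ S}) :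
    emb S (x + un i) = emb S x + un i.1 := by
  funext j
  simp only [emb, Pi.add_apply, un]
  by_cases h : j ∈ S
  · simp only [h, dif_pos]
    by_cases hj : j = i.1
    · subst hj
      simp
    · have : (⟨j, h⟩ : {i // i ∈ S}) ≠ i := fun h' => hj (congrArg Subtype.val h')
      simp [hj, this]
  · simp only [h, dif_neg, not_false_eq_true, zero_add]
    have : j ≠ i.1 := fun h' => h (h' ▸ i.2)
    simp [this]

lemma emb_zero (S : Finset (Fin d)) : emb S 0 = 0 := by
  funext j
  simp [emb]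

lemma emb_off {S : Finset (Fin d)} {x : {i // i ∈ S} → ℤ} {i : Fin d} (h : i ∉ S) :
    emb S x i = 0 := by simp [emb, h]

/-- the box of the layer -/
noncomputable def boxI (S : Finset (Fin d)) (n : ℕ) : Finset ({i // i ∈ S} → ℤ) :=
  Finset.Icc (fun _ => -(n : ℤ)) (fun _ => (n : ℤ))

lemma mem_boxI {S : Finset (Fin d)} {n : ℕ} {x : {i // i ∈ S} → ℤ} :
    x ∈ boxI S n ↔ ∀ c, |x c| ≤ n := by
  unfold boxI
  rw [Finset.mem_Icc, Pi.le_def, Pi.le_def, ← forall_and]
  simp only [abs_le]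

lemma mem_box {n : ℕ} {x : Site d} : x ∈ box d n ↔ ∀ c, |x c| ≤ n := by
  unfold box
  rw [Finset.mem_Icc, Pi.le_def, Pi.le_def, ← forall_and]
  simp only [abs_le]

lemma emb_mem {S : Finset (Fin d)} {n : ℕ} {x : {i // i ∈ S} → ℤ} :
    emb S x ∈ box d n ↔ x ∈ boxI S n := by
  rw [mem_box, mem_boxI]
  constructor
  · intro h c
    have := h c.1
    simpa [emb, c.2] using this
  · intro h c
    by_cases hc : c ∈ S
    · simpa [emb, hc] using h ⟨c, hc⟩
    · simp [emb, hc]

/-! ## the signs in a finite volume -/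

/-- extension of the signs of finitely many edges by `+` -/
def ext (Λ : Finset (Site d)) (s : {e // e ∈ edgesOf Λ} → Bool) : Edge d → Bool :=
  fun e => if h : e ∈ edgesOf Λ then s ⟨e, h⟩ else true

lemma ext_mem {Λ : Finset (Site d)} {s : {e // e ∈ edgesOf Λ} → Bool} {e : Edge d}
    (h : e ∈ edgesOf Λ) : ext Λ s e = s ⟨e, h⟩ := by simp [ext, h]

/-- edges in the directions off `S` with an end in `emb S '' A` -/
noncomputable def EA (S : Finset (Fin d)) (Λ : Finset (Site d)) (A : Finset ({i // i ∈ S} → ℤ)) :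
    Finset {e // e ∈ edgesOf Λ} :=
  Finset.univ.filter fun w => w.1.2 ∉ S ∧
    (w.1.1 ∈ A.image (emb S) ∨ w.1.1 + un w.1.2 ∈ A.image (emb S))

lemma mem_EA {S : Finset (Fin d)} {Λ : Finset (Site d)} {A : Finset ({i // i ∈ S} → ℤ)}
    {w : {e // e ∈ edgesOf Λ}} : w ∈ EA S Λ A ↔ w.1.2 ∉ S ∧
    (w.1.1 ∈ A.image (emb S) ∨ w.1.1 + un w.1.2 ∈ A.image (emb S)) := by
  simp [EA]

lemma EA_empty (S : Finset (Fin d)) (Λ : Finset (Site d)) : EA S Λ ∅ = ∅ := by
  ext w
  simp [mem_EA]

lemma EA_card (S : Finset (Fin d)) (Λ : Finset (Site d)) (A B : Finset ({i // i ∈ S} → ℤ)) :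
    (symmDiff (EA S Λ A) (EA S Λ B)).card ≤ 2 * d * ((A \ B).card + (B \ A).card) := by
  classical
  set X := (A \ B) ∪ (B \ A) with hX
  let g : ({i // i ∈ S} → ℤ) × (Fin d × Bool) → Edge d := fun p =>
    (if p.2.2 then emb S p.1 else emb S p.1 - un p.2.1, p.2.1)
  have h1 : (symmDiff (EA S Λ A) (EA S Λ B)).image Subtype.val ⊆
      (X ×ˢ (Finset.univ : Finset (Fin d × Bool))).image g := by
    intro e he
    obtain ⟨w, hw, rfl⟩ := Finset.mem_image.1 he
    have key : ∃ z ∈ X, w.1.1 = emb S z ∨ w.1.1 + un w.1.2 = emb S z := by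
      rcases Finset.mem_symmDiff.1 hw with ⟨h, h'⟩ | ⟨h, h'⟩
      · rw [mem_EA] at h h'
        have h2 : ¬ (w.1.1 ∈ B.image (emb S) ∨ w.1.1 + un w.1.2 ∈ B.image (emb S)) :=
          fun h3 => h' ⟨h.1, h3⟩
        push Not at h2
        rcases h.2 with h3 | h3
        · obtain ⟨z, hz, hz'⟩ := Finset.mem_image.1 h3
          refine ⟨z, Finset.mem_union_left _ (Finset.mem_sdiff.2 ⟨hz, fun hB => h2.1 ?_⟩),
            Or.inl hz'.symm⟩
          rw [← hz']; exact Finset.mem_image_of_mem _ hB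
        · obtain ⟨z, hz, hz'⟩ := Finset.mem_image.1 h3
          refine ⟨z, Finset.mem_union_left _ (Finset.mem_sdiff.2 ⟨hz, fun hB => h2.2 ?_⟩),
            Or.inr hz'.symm⟩
          rw [← hz']; exact Finset.mem_image_of_mem _ hB
      · rw [mem_EA] at h h'
        have h2 : ¬ (w.1.1 ∈ A.image (emb S) ∨ w.1.1 + un w.1.2 ∈ A.image (emb S)) :=
          fun h3 => h' ⟨h.1, h3⟩
        push Not at h2
        rcases h.2 with h3 | h3
        · obtain ⟨z, hz, hz'⟩ := Finset.mem_image.1 h3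
          refine ⟨z, Finset.mem_union_right _ (Finset.mem_sdiff.2 ⟨hz, fun hB => h2.1 ?_⟩),
            Or.inl hz'.symm⟩
          rw [← hz']; exact Finset.mem_image_of_mem _ hB
        · obtain ⟨z, hz, hz'⟩ := Finset.mem_image.1 h3
          refine ⟨z, Finset.mem_union_right _ (Finset.mem_sdiff.2 ⟨hz, fun hB => h2.2 ?_⟩),
            Or.inr hz'.symm⟩
          rw [← hz']; exact Finset.mem_image_of_mem _ hB
    obtain ⟨z, hz, h | h⟩ := key
    · refine Finset.mem_image.2 ⟨(z, w.1.2, true), Finset.mem_product.2 ⟨hz, Finset.mem_univ _⟩, ?_⟩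
      simp only [g, if_true]
      rw [← h]
    · refine Finset.mem_image.2 ⟨(z, w.1.2, false), Finset.mem_product.2 ⟨hz, Finset.mem_univ _⟩, ?_⟩
      simp only [g]
      rw [← h]
      ext <;> simp
  calc (symmDiff (EA S Λ A) (EA S Λ B)).card
      = ((symmDiff (EA S Λ A) (EA S Λ B)).image Subtype.val).card :=
        (Finset.card_image_of_injective _ Subtype.val_injective).symm
    _ ≤ _ := Finset.card_le_card h1
    _ ≤ (X ×ˢ (Finset.univ : Finset (Fin d × Bool))).card := Finset.card_image_le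
    _ = X.card * (d * 2) := by
        rw [Finset.card_product, Finset.card_univ, Fintype.card_prod, Fintype.card_fin,
          Fintype.card_bool]
    _ ≤ ((A \ B).card + (B \ A).card) * (d * 2) :=
        Nat.mul_le_mul_right _ (Finset.card_union_le _ _)
    _ = _ := by ring

/-- the logarithm of the partition function as a function of the signs -/
noncomputable def FF (β : ℝ) (S : Finset (Fin d)) (a : Edge d → ℝ) (Λ : Finset (Site d))
    (s : {e // e ∈ edgesOf Λ} → Bool) : ℝ :=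
  Real.log (Zp β (Jof S a (ext Λ s)) Λ (cst true))

lemma Zp_pos (β : ℝ) (J : Edge d → ℝ) (Λ : Finset (Site d)) (ω : Site d → Bool) :
    0 < Zp β J Λ ω := by
  unfold Zp
  exact Finset.sum_pos (fun η _ => Real.exp_pos _) Finset.univ_nonempty

lemma ham_congr {J J' : Edge d → ℝ} {Λ : Finset (Site d)} {σ : Site d → Bool}
    (h : ∀ e ∈ edgesOf Λ, J e = J' e) : ham J Λ σ = ham J' Λ σ := by
  unfold ham
  exact Finset.sum_congr rfl fun e he => by rw [h e he]

lemma Zp_congr {β : ℝ} {J J' : Edge d → ℝ} {Λ : Finset (Site d)} {ω : Site d → Bool}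
    (h : ∀ e ∈ edgesOf Λ, J e = J' e) : Zp β J Λ ω = Zp β J' Λ ω := by
  unfold Zp
  exact Finset.sum_congr rfl fun η _ => by rw [ham_congr h]

lemma gE_congr {β : ℝ} {J J' : Edge d → ℝ} {Λ : Finset (Site d)} {ω : Site d → Bool}
    {f : (Site d → Bool) → ℝ} (h : ∀ e ∈ edgesOf Λ, J e = J' e) :
    gE β J Λ ω f = gE β J' Λ ω f := by
  unfold gE
  rw [Zp_congr h]
  congr 1
  exact Finset.sum_congr rfl fun η _ => by rw [ham_congr h]

/-- changing one coupling -/
lemma ham_diff {J J' : Edge d → ℝ} {Λ : Finset (Site d)} {σ : Site d → Bool} {e : Edge d}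
    (h : ∀ f, f ≠ e → J f = J' f) : |ham J Λ σ - ham J' Λ σ| ≤ |J e - J' e| := by
  unfold ham
  rw [← Finset.sum_sub_distrib]
  have h1 : ∀ f ∈ edgesOf Λ, J f * sg (σ f.1) * sg (σ (f.1 + un f.2)) -
      J' f * sg (σ f.1) * sg (σ (f.1 + un f.2)) =
      if f = e then (J e - J' e) * sg (σ e.1) * sg (σ (e.1 + un e.2)) else 0 := by
    intro f _
    by_cases hf : f = e
    · subst hf; rw [if_pos rfl]; ring
    · rw [if_neg hf, h f hf]; ring
  rw [Finset.sum_congr rfl h1, Finset.sum_ite_eq']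
  split_ifs
  · rw [abs_mul, abs_mul, sg_abs, sg_abs, mul_one, mul_one]
  · simp

lemma logZ_diff {β : ℝ} (hβ : 0 ≤ β) {J J' : Edge d → ℝ} {Λ : Finset (Site d)}
    {ω : Site d → Bool} {e : Edge d} {c : ℝ} (h : ∀ f, f ≠ e → J f = J' f)
    (hc : |J e - J' e| ≤ c) :
    Real.log (Zp β J Λ ω) - Real.log (Zp β J' Λ ω) ≤ β * c := by
  have h1 : Zp β J Λ ω ≤ Real.exp (β * c) * Zp β J' Λ ω := by
    unfold Zp
    rw [Finset.mul_sum]
    refine Finset.sum_le_sum fun η _ => ?_
    rw [← Real.exp_add]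
    refine Real.exp_le_exp.2 ?_
    have h2 := (abs_le.1 ((ham_diff (Λ := Λ) (σ := glue Λ η ω) h).trans hc)).2
    nlinarith
  have h3 := Real.log_le_log (Zp_pos β J Λ ω) h1
  rw [Real.log_mul (Real.exp_pos _).ne' (Zp_pos β J' Λ ω).ne', Real.log_exp] at h3
  linarith

lemma FF_lip {β : ℝ} (hβ : 0 ≤ β) {S : Finset (Fin d)} {a : Edge d → ℝ}
    (ha : ∀ e : Edge d, e.2 ∉ S → |a e| ≤ 1) (Λ : Finset (Site d))
    (s : {e // e ∈ edgesOf Λ} → Bool) (w : {e // e ∈ edgesOf Λ}) :
    |FF β S a Λ (fl {w} s) - FF β S a Λ s| ≤ 2 * β := by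
  have h : ∀ f, f ≠ w.1 → Jof S a (ext Λ (fl {w} s)) f = Jof S a (ext Λ s) f := by
    intro f hf
    unfold Jof
    have h0 : ext Λ (fl {w} s) f = ext Λ s f := by
      unfold ext
      by_cases hm : f ∈ edgesOf Λ
      · simp only [hm, dif_pos, fl]
        rw [if_neg]
        rw [Finset.mem_singleton]
        exact fun h => hf (congrArg Subtype.val h)
      · simp [hm]
    rw [h0]
  have hc : |Jof S a (ext Λ (fl {w} s)) w.1 - Jof S a (ext Λ s) w.1| ≤ 2 := by
    unfold Jof
    by_cases hS : w.1.2 ∈ S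
    · rw [if_pos hS, if_pos hS, sub_self, abs_zero]; norm_num
    · rw [if_neg hS, if_neg hS, ← sub_mul, abs_mul]
      have h1 := ha w.1 hS
      have h2 : |sg (ext Λ (fl {w} s) w.1) - sg (ext Λ s w.1)| ≤ 2 := by
        refine (abs_sub _ _).trans ?_
        rw [sg_abs, sg_abs]; norm_num
      calc _ ≤ 2 * 1 := mul_le_mul h2 h1 (abs_nonneg _) (by norm_num)
        _ = 2 := by norm_num
  rw [abs_le]
  constructor
  · rw [abs_sub_comm] at hc
    have := logZ_diff (c := 2) hβ (Λ := Λ) (ω := cst true) (fun f hf => (h f hf).symm) hc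
    unfold FF
    linarith
  · have := logZ_diff (c := 2) hβ (Λ := Λ) (ω := cst true) h hc
    unfold FF
    linarith

end Pool.Agent.K9h1.EB
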