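import Pool.Agent.K9h1.EB.En

/-!
# Flipping a contour of the layer
-/

set_option autoImplicit false

open MeasureTheory

namespace Pool.Agent.K9h1.EB

variable {d : ℕ}

/-- all the boundary edges of `A` in the layer are disagreements -/
def Dis (S : Finset (Fin d)) (A : Finset ({i // i ∈ S} → ℤ)) (σ : Site d → Bool) : Prop :=
  ∀ e ∈ bd A, σ (emb S e.1) ≠ σ (emb S (e.1 + un e.2))

/-- flip the spins in `emb S '' A` -/
noncomputable def flp (S : Finset (Fin d)) (A : Finset ({i // i ∈ S} → ℤ)) (σ : Site d → Bool) :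
    Site d → Bool :=
  fun x => if x ∈ A.image (emb S) then !(σ x) else σ x

lemma mem_im {S : Finset (Fin d)} {A : Finset ({i // i ∈ S} → ℤ)} {x : {i // i ∈ S} → ℤ} :
    emb S x ∈ A.image (emb S) ↔ x ∈ A := by
  constructor
  · intro h
    obtain ⟨y, hy, h⟩ := Finset.mem_image.1 h
    rw [← emb_inj S h]; exact hy
  · exact fun h => Finset.mem_image_of_mem _ h

/-- the boundary edges of `A` as edges of `ℤ^d` -/
noncomputable def TT (S : Finset (Fin d)) (A : Finset ({i // i ∈ S} → ℤ)) : Finset (Edge d) :=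
  (bd A).image (fun f => (emb S f.1, f.2.1))

lemma TT_card (S : Finset (Fin d)) (A : Finset ({i // i ∈ S} → ℤ)) :
    (TT S A).card = (bd A).card := by
  unfold TT
  refine Finset.card_image_of_injective _ ?_
  rintro ⟨x, i⟩ ⟨y, j⟩ h
  have h1 := congrArg Prod.fst h
  have h2 := congrArg Prod.snd h
  simp only at h1 h2
  rw [emb_inj S h1, Subtype.ext h2]

lemma TT_sub {S : Finset (Fin d)} {A : Finset ({i // i ∈ S} → ℤ)} {Λ : Finset (Site d)}
    (hA : A.image (emb S) ⊆ Λ) : TT S A ⊆ edgesOf Λ := by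
  intro e he
  obtain ⟨f, hf, rfl⟩ := Finset.mem_image.1 he
  rw [mem_edgesOf]
  simp only
  rw [← emb_add]
  have h := mem_bd.1 hf
  by_cases h1 : f.1 ∈ A
  · exact Or.inl (hA (mem_im.2 h1))
  · refine Or.inr (hA (mem_im.2 ?_))
    by_contra h2
    exact h ⟨fun h3 => absurd h3 h1, fun h3 => absurd h3 h2⟩

/-- if exactly one end of an edge in a direction of `S` is in `emb S '' A`, it is a boundary edge -/
lemma mem_TT {S : Finset (Fin d)} {A : Finset ({i // i ∈ S} → ℤ)} {e : Edge d} (hS : e.2 ∈ S)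
    (h : ¬ (e.1 ∈ A.image (emb S) ↔ e.1 + un e.2 ∈ A.image (emb S))) : e ∈ TT S A := by
  have key : ∃ x, e.1 = emb S x := by
    by_cases h1 : e.1 ∈ A.image (emb S)
    · obtain ⟨x, _, hx⟩ := Finset.mem_image.1 h1
      exact ⟨x, hx.symm⟩
    · have h2 : e.1 + un e.2 ∈ A.image (emb S) := by
        by_contra h2
        exact h ⟨fun h3 => absurd h3 h1, fun h3 => absurd h3 h2⟩
      obtain ⟨x, _, hx⟩ := Finset.mem_image.1 h2
      refine ⟨x - un ⟨e.2, hS⟩, ?_⟩
      have h3 := emb_add S (x - un ⟨e.2, hS⟩) ⟨e.2, hS⟩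
      rw [sub_add_cancel, hx] at h3
      exact add_right_cancel h3
  obtain ⟨x, hx⟩ := key
  refine Finset.mem_image.2 ⟨(x, ⟨e.2, hS⟩), ?_, ?_⟩
  · rw [mem_bd]
    rw [hx, show (un e.2 : Site d) = un (⟨e.2, hS⟩ : {i // i ∈ S}).1 from rfl, ← emb_add,
      mem_im, mem_im] at h
    exact h
  · simp only
    rw [← hx]

lemma off_TT {S : Finset (Fin d)} {A : Finset ({i // i ∈ S} → ℤ)} {e : Edge d} (hS : e.2 ∉ S) :
    e ∉ TT S A := by
  intro h
  obtain ⟨f, _, rfl⟩ := Finset.mem_image.1 h
  exact hS f.2.2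

/-- the two ends of an edge leaving the layer are not both in the layer -/
lemma not_both {S : Finset (Fin d)} {A : Finset ({i // i ∈ S} → ℤ)} {e : Edge d} (hS : e.2 ∉ S)
    (h : e.1 ∈ A.image (emb S)) : e.1 + un e.2 ∉ A.image (emb S) := by
  intro h'
  obtain ⟨x, _, hx⟩ := Finset.mem_image.1 h
  obtain ⟨y, _, hy⟩ := Finset.mem_image.1 h'
  have h1 := congrFun hy e.2
  rw [emb_off hS, Pi.add_apply, ← hx, emb_off hS] at h1
  simp [un] at h1

lemma ham_flip {S : Finset (Fin d)} {A : Finset ({i // i ∈ S} → ℤ)} {Λ : Finset (Site d)}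
    (hA : A.image (emb S) ⊆ Λ) (a : Edge d → ℝ) (s : {e // e ∈ edgesOf Λ} → Bool)
    {σ : Site d → Bool} (hσ : Dis S A σ) :
    ham (Jof S a (ext Λ (fl (EA S Λ A) s))) Λ (flp S A σ) =
      ham (Jof S a (ext Λ s)) Λ σ + ∑ e ∈ TT S A, 2 * a e := by
  classical
  have key : ∀ e ∈ edgesOf Λ,
      Jof S a (ext Λ (fl (EA S Λ A) s)) e * sg (flp S A σ e.1) * sg (flp S A σ (e.1 + un e.2)) =
      Jof S a (ext Λ s) e * sg (σ e.1) * sg (σ (e.1 + un e.2)) +
        if e ∈ TT S A then 2 * a e else 0 := by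
    intro e he
    by_cases hS : e.2 ∈ S
    · have hJ : Jof S a (ext Λ (fl (EA S Λ A) s)) e = a e := by simp [Jof, hS]
      have hJ' : Jof S a (ext Λ s) e = a e := by simp [Jof, hS]
      rw [hJ, hJ']
      by_cases h1 : e.1 ∈ A.image (emb S)
      · by_cases h2 : e.1 + un e.2 ∈ A.image (emb S)
        · have h3 : e ∉ TT S A := by
            intro h3
            obtain ⟨f, hf, rfl⟩ := Finset.mem_image.1 h3
            simp only at h1 h2
            rw [← emb_add] at h2
            rw [mem_im] at h1 h2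
            exact (mem_bd.1 hf) ⟨fun _ => h2, fun _ => h1⟩
          rw [if_neg h3]
          unfold flp
          rw [if_pos h1, if_pos h2, sg_not, sg_not]
          ring
        · have h3 : e ∈ TT S A := mem_TT hS (fun h => h2 (h.1 h1))
          rw [if_pos h3]
          obtain ⟨f, hf, rfl⟩ := Finset.mem_image.1 h3
          have h4 := sg_ne (hσ f hf)
          simp only at h1 h2 ⊢
          unfold flp
          rw [if_pos h1, if_neg h2, sg_not]
          rw [emb_add] at h4
          linear_combination -(2 * a (emb S f.1, f.2.1)) * h4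
      · by_cases h2 : e.1 + un e.2 ∈ A.image (emb S)
        · have h3 : e ∈ TT S A := mem_TT hS (fun h => h1 (h.2 h2))
          rw [if_pos h3]
          obtain ⟨f, hf, rfl⟩ := Finset.mem_image.1 h3
          have h4 := sg_ne (hσ f hf)
          simp only at h1 h2 ⊢
          unfold flp
          rw [if_neg h1, if_pos h2, sg_not]
          rw [emb_add] at h4
          linear_combination -(2 * a (emb S f.1, f.2.1)) * h4
        · have h3 : e ∉ TT S A := by
            intro h3
            obtain ⟨f, hf, rfl⟩ := Finset.mem_image.1 h3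
            simp only at h1 h2
            rw [← emb_add] at h2
            rw [mem_im] at h1 h2
            exact (mem_bd.1 hf) ⟨fun h => absurd h h1, fun h => absurd h h2⟩
          rw [if_neg h3]
          unfold flp
          rw [if_neg h1, if_neg h2]
          ring
    · rw [if_neg (off_TT hS), add_zero]
      unfold Jof
      rw [if_neg hS, if_neg hS, ext_mem he, ext_mem he]
      unfold fl flp
      by_cases h1 : e.1 ∈ A.image (emb S)
      · have h2 := not_both hS h1
        have h3 : (⟨e, he⟩ : {e // e ∈ edgesOf Λ}) ∈ EA S Λ A := mem_EA.2 ⟨hS, Or.inl h1⟩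
        rw [if_pos h1, if_neg h2, if_pos h3, sg_not, sg_not]
        ring
      · by_cases h2 : e.1 + un e.2 ∈ A.image (emb S)
        · have h3 : (⟨e, he⟩ : {e // e ∈ edgesOf Λ}) ∈ EA S Λ A := mem_EA.2 ⟨hS, Or.inr h2⟩
          rw [if_neg h1, if_pos h2, if_pos h3, sg_not, sg_not]
          ring
        · have h3 : (⟨e, he⟩ : {e // e ∈ edgesOf Λ}) ∉ EA S Λ A := by
            intro h3
            rcases (mem_EA.1 h3).2 with h4 | h4
            · exact h1 h4
            · exact h2 h4
          rw [if_neg h1, if_neg h2, if_neg h3]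
  unfold ham
  rw [Finset.sum_congr rfl key, Finset.sum_add_distrib, Finset.sum_ite_mem,
    Finset.inter_eq_right.2 (TT_sub hA)]

open Classical in
/-- probability of a contour -/
lemma contour_le {S : Finset (Fin d)} {A : Finset ({i // i ∈ S} → ℤ)} {Λ : Finset (Site d)}
    (hA : A.image (emb S) ⊆ Λ) {a : Edge d → ℝ} {K β : ℝ} (hβ : 0 ≤ β)
    (ha : ∀ e : Edge d, e.2 ∈ S → K ≤ a e) (s : {e // e ∈ edgesOf Λ} → Bool) :
    gE β (Jof S a (ext Λ s)) Λ (cst true) (fun σ => if Dis S A σ then 1 else 0) ≤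
      Real.exp (-(2 * β * K * (bd A).card) + (FF β S a Λ (fl (EA S Λ A) s) - FF β S a Λ s)) := by
  set J := Jof S a (ext Λ s) with hJ
  set J' := Jof S a (ext Λ (fl (EA S Λ A) s)) with hJ'
  have hZ := Zp_pos β J Λ (cst true)
  have hZ' := Zp_pos β J' Λ (cst true)
  have h1 : ∑ η : Λ → Bool, Real.exp (β * ham J Λ (glue Λ η (cst true))) *
      (if Dis S A (glue Λ η (cst true)) then 1 else 0) ≤
      Real.exp (-(2 * β * K * (bd A).card)) * Zp β J' Λ (cst true) := by
    let g : (Λ → Bool) → (Λ → Bool) := fun η x => if x.1 ∈ A.image (emb S) then !(η x) else η x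
    have hg : Function.Involutive g := by
      intro η
      funext x
      simp only [g]
      split_ifs <;> simp
    have hglue : ∀ η : Λ → Bool, glue Λ (g η) (cst true) = flp S A (glue Λ η (cst true)) := by
      intro η
      funext x
      unfold glue flp
      by_cases hx : x ∈ Λ
      · simp only [hx, dif_pos, g]
      · simp only [hx, dif_neg, not_false_eq_true]
        rw [if_neg (fun h => hx (hA h))]
    have hsum : Zp β J' Λ (cst true) =
        ∑ η : Λ → Bool, Real.exp (β * ham J' Λ (flp S A (glue Λ η (cst true)))) := by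
      unfold Zp
      rw [← Equiv.sum_comp hg.toPerm]
      refine Finset.sum_congr rfl fun η _ => ?_
      rw [← hglue]
      rfl
    rw [hsum, Finset.mul_sum]
    refine Finset.sum_le_sum fun η _ => ?_
    by_cases hD : Dis S A (glue Λ η (cst true))
    · rw [if_pos hD, mul_one, ← Real.exp_add]
      refine Real.exp_le_exp.2 ?_
      rw [hJ', ham_flip hA a s hD, ← hJ]
      have h2 : (bd A).card * (2 * K) ≤ ∑ e ∈ TT S A, 2 * a e := by
        rw [← TT_card, ← nsmul_eq_mul]
        refine Finset.card_nsmul_le_sum _ _ _ fun e he => ?_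
        have : e.2 ∈ S := by
          by_contra h
          exact off_TT h he
        linarith [ha e this]
      nlinarith
    · rw [if_neg hD, mul_zero]
      exact (mul_pos (Real.exp_pos _) (Real.exp_pos _)).le
  unfold gE
  rw [div_le_iff₀ hZ]
  refine h1.trans (le_of_eq ?_)
  unfold FF
  rw [Real.exp_add, ← hJ, ← hJ', Real.exp_sub, Real.exp_log hZ', Real.exp_log hZ]
  field_simp

lemma glue_off {Λ : Finset (Site d)} {η : Λ → Bool} {ω : Site d → Bool} {x : Site d}
    (h : x ∉ Λ) : glue Λ η ω x = ω x := by simp [glue, h]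

/-- a minus spin at the origin is surrounded by a contour -/
lemma exists_contour (geo1 : GEO1) {S : Finset (Fin d)} (hS : 2 ≤ S.card) {n : ℕ}
    {σ : Site d → Bool} (h0 : σ 0 = false) (hσ : ∀ x, x ∉ box d n → σ x = true) :
    ∃ A ∈ (boxI S n).powerset, 0 ∈ A ∧ Conn (bd A) ∧ Dis S A σ := by
  classical
  set C := (boxI S n).filter (fun x => σ (emb S x) = false) with hC
  have h0C : (0 : {i // i ∈ S} → ℤ) ∈ C := by
    rw [hC, Finset.mem_filter, emb_zero, mem_boxI]
    exact ⟨fun c => by simp, h0⟩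
  obtain ⟨A, hA0, hA1, hA2, hA3⟩ := geo1 {i // i ∈ S} (by simpa using hS) C h0C
  refine ⟨A, ?_, hA0, hA2, ?_⟩
  · rw [Finset.mem_powerset]
    intro x hx
    rw [mem_boxI]
    exact hA3 n (fun y hy => mem_boxI.1 (Finset.mem_filter.1 hy).1) x hx
  · intro e he
    have h := mem_bd.1 (hA1 he)
    have hmem : ∀ x, x ∈ C ↔ σ (emb S x) = false := by
      intro x
      rw [hC, Finset.mem_filter, and_iff_right_iff_imp]
      intro hx
      by_contra hx'
      have := hσ (emb S x) (fun h => hx' (emb_mem.1 h))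
      rw [hx] at this
      exact absurd this (by simp)
    rw [hmem, hmem] at h
    intro h'
    exact h (by rw [h'])

end Pool.Agent.K9h1.EB
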