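import Pool.Agent.K9h1.EB.Fv

/-!
# Infinite volume: the two boundary conditions differ in the limit, almost surely
-/

set_option autoImplicit false

open MeasureTheory Filter Topology

namespace Pool.Agent.K9h1.EB

variable {d : ℕ}

lemma ham_not (J : Edge d → ℝ) (Λ : Finset (Site d)) (σ : Site d → Bool) :
    ham J Λ (fun x => !(σ x)) = ham J Λ σ := by
  unfold ham
  refine Finset.sum_congr rfl fun e _ => ?_
  rw [sg_not, sg_not]
  ring

/-- the global flip -/
lemma gE_flip (β : ℝ) (J : Edge d → ℝ) (Λ : Finset (Site d)) (b : Bool)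
    (f : (Site d → Bool) → ℝ) :
    gE β J Λ (cst (!b)) f = gE β J Λ (cst b) (fun σ => f (fun x => !(σ x))) := by
  classical
  let g : (Λ → Bool) → (Λ → Bool) := fun η x => !(η x)
  have hg : Function.Involutive g := by
    intro η
    funext x
    simp [g]
  have hglue : ∀ η : Λ → Bool, glue Λ (g η) (cst (!b)) = fun x => !(glue Λ η (cst b) x) := by
    intro η
    funext x
    unfold glue cst
    by_cases hx : x ∈ Λ
    · simp [hx, g]
    · simp [hx]
  unfold gE Zp
  congr 1
  · rw [← Equiv.sum_comp hg.toPerm]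
    refine Finset.sum_congr rfl fun η _ => ?_
    show Real.exp (β * ham J Λ (glue Λ (g η) (cst (!b)))) * f (glue Λ (g η) (cst (!b))) = _
    rw [hglue, ham_not]
  · rw [← Equiv.sum_comp hg.toPerm]
    refine Finset.sum_congr rfl fun η _ => ?_
    show Real.exp (β * ham J Λ (glue Λ (g η) (cst (!b)))) = _
    rw [hglue, ham_not]

/-- the cylinder `{σ 0 = -}` -/
lemma cyl_zero (σ : Site d → Bool) :
    cyl ({0} : Finset (Site d)) (fun _ => false) σ = if σ 0 = false then 1 else 0 := by
  unfold cyl
  congr 1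
  simp

lemma nonuniq_of {β : ℝ} {J : Edge d → ℝ}
    (h : ∃ᶠ n in atTop, gE β J (box d n) (cst true) (fun σ => if σ 0 = false then 1 else 0) ≤
      1 / 8) : Nonuniq β J := by
  refine ⟨{0}, fun _ => false, ?_⟩
  intro hlim
  have h1 : ∀ᶠ n in atTop, -(1 / 2 : ℝ) <
      gE β J (box d n) (cst true) (cyl ({0} : Finset (Site d)) (fun _ => false)) -
      gE β J (box d n) (cst false) (cyl ({0} : Finset (Site d)) (fun _ => false)) :=
    hlim.eventually (lt_mem_nhds (by norm_num))
  obtain ⟨n, hn, hn'⟩ := (h.and_eventually h1).exists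
  have e1 : (cyl ({0} : Finset (Site d)) (fun _ => false)) =
      fun σ : Site d → Bool => if σ 0 = false then (1 : ℝ) else 0 := funext cyl_zero
  rw [e1] at hn'
  have e2 := gE_flip β J (box d n) true (fun σ => if σ 0 = false then (1 : ℝ) else 0)
  rw [show (!true) = false from rfl] at e2
  rw [e2] at hn'
  have e3 : gE β J (box d n) (cst true) (fun σ => if (!(σ 0)) = false then (1 : ℝ) else 0) +
      gE β J (box d n) (cst true) (fun σ => if σ 0 = false then (1 : ℝ) else 0) = 1 := by
    rw [← gE_add]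
    have e4 : (fun σ : Site d → Bool => (if (!(σ 0)) = false then (1 : ℝ) else 0) +
        if σ 0 = false then (1 : ℝ) else 0) = fun _ => 1 := by
      funext σ
      cases σ 0 <;> simp
    rw [e4, gE_const]
  linarith

/-- **almost sure non-uniqueness, through the finite volume estimate** -/
theorem ae_nonuniq (geo1 : GEO1) (chain : CHAIN) (pei : PEI) (zo : ZO) (tr : TR)
    {S : Finset (Fin d)} (hS : 3 ≤ S.card) :
    ∃ K0 : ℝ, 0 < K0 ∧ ∀ K : ℝ, K0 ≤ K → ∀ a : Edge d → ℝ,
      (∀ e : Edge d, e.2 ∈ S → K ≤ a e) → (∀ e : Edge d, e.2 ∉ S → |a e| ≤ 1) →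
      ∀ β : ℝ, 0 < β → K0 ≤ β * K → ∀ᵐ s ∂(signLaw d), Nonuniq β (Jof S a s) := by
  classical
  obtain ⟨K0, hK0, H⟩ := fv geo1 chain pei hS (ε := 1 / 8) (by norm_num)
  refine ⟨K0, hK0, ?_⟩
  intro K hK a ha1 ha2 β hβ hβK
  set G : ℕ → Set (Edge d → Bool) := fun n => {s | 1 / 8 < gE β (Jof S a s) (box d n) (cst true)
    (fun σ => if σ 0 = false then 1 else 0)} with hG
  have hGn : ∀ n, signLaw d (G n) ≤ ENNReal.ofReal (1 / 8) := by
    intro n
    set B := (Finset.univ : Finset ({e // e ∈ edgesOf (box d n)} → Bool)).filter (fun s =>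
        1 / 8 < gE β (Jof S a (ext (box d n) s)) (box d n) (cst true)
          (fun σ => if σ 0 = false then 1 else 0)) with hB
    have h1 := H K hK a ha1 ha2 β hβ hβK n
    have h2 := tr d (edgesOf (box d n)) B
    have h3 : {s : Edge d → Bool | (fun e : {e // e ∈ edgesOf (box d n)} => s e) ∈ B} = G n := by
      ext s
      rw [Set.mem_setOf_eq, hB, Finset.mem_filter, hG]
      simp only [Finset.mem_univ, true_and, Set.mem_setOf_eq]
      have h4 : gE β (Jof S a (ext (box d n) fun e : {e // e ∈ edgesOf (box d n)} => s e))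
          (box d n) (cst true) (fun σ => if σ 0 = false then 1 else 0) =
          gE β (Jof S a s) (box d n) (cst true) (fun σ => if σ 0 = false then 1 else 0) := by
        refine gE_congr fun e he => ?_
        unfold Jof
        rw [ext_mem he]
      rw [h4]
    rw [h3] at h2
    rw [Fintype.card_coe] at h1
    have h5 : (signLaw d (G n)).toReal ≤ 1 / 8 := by
      rw [h2, div_le_iff₀ (by positivity)]
      exact h1
    rw [← ENNReal.ofReal_toReal (measure_ne_top (signLaw d) (G n))]
    exact ENNReal.ofReal_le_ofReal h5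
  set N : Set (Edge d → Bool) := {s | Nonuniq β (Jof S a s)} with hN
  have hsub : Nᶜ ⊆ ⋃ n, ⋂ m ≥ n, G m := by
    intro s hs
    by_contra hno
    apply hs
    refine nonuniq_of ?_
    rw [Filter.frequently_atTop]
    intro n
    rw [Set.mem_iUnion] at hno
    push Not at hno
    have := hno n
    rw [Set.mem_iInter₂] at this
    push Not at this
    obtain ⟨m, hm, hm'⟩ := this
    exact ⟨m, hm, not_lt.1 hm'⟩
  have hmono : Monotone (fun n => ⋂ m ≥ n, G m) := by
    intro i j hij
    exact Set.biInter_mono (fun m hm => le_trans hij hm) fun _ _ => le_rfl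
  have hle : signLaw d Nᶜ ≤ ENNReal.ofReal (1 / 8) := by
    refine (measure_mono hsub).trans ?_
    rw [hmono.measure_iUnion]
    refine iSup_le fun n => ?_
    exact (measure_mono (Set.biInter_subset_of_mem (le_refl n))).trans (hGn n)
  obtain ⟨hmeas, h01⟩ := zo d β (fun e t => if e.2 ∈ S then a e else sg t * a e)
    (fun _ => (PMF.uniformOfFintype Bool).toMeasure)
  have hN' : {s : Edge d → Bool | Nonuniq β (fun e => (fun (e : Edge d) (t : Bool) =>
      if e.2 ∈ S then a e else sg t * a e) e (s e))} = N := rfl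
  rw [hN'] at hmeas h01
  change signLaw d N = 0 ∨ signLaw d N = 1 at h01
  rcases h01 with h0 | h1
  · exfalso
    have h2 := prob_compl_eq_one_iff hmeas |>.2 h0
    rw [h2] at hle
    have : (1 : ENNReal) ≤ ENNReal.ofReal (1 / 8) := hle
    rw [ENNReal.one_le_ofReal] at this
    norm_num at this
  · rw [ae_iff]
    have h2 := (prob_compl_eq_zero_iff hmeas).2 h1
    exact h2

end Pool.Agent.K9h1.EB
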