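import Pool.Agent.K9h1.EB.Stm2

/-!
# Flipping the signs of symmetric couplings preserves the law (leaf FLIP, by helper90 for helper1)
-/

set_option autoImplicit false
set_option linter.all false

open MeasureTheory

namespace Pool.Agent.K9h1.EB

theorem flip : FLIP := by
  intro d S ρ hρ hsym s
  let f : Edge d → ℝ → ℝ := fun e x => if e.2 ∈ S then x else sg (s e) * x
  have hf : ∀ e, Measurable (f e) := by
    intro e
    simp only [f]
    split_ifs
    · exact measurable_id
    · exact measurable_id.const_mul _
  have heq : (fun J : Edge d → ℝ => Jof S J s) = fun J e => f e (J e) := by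
    funext J e
    rfl
  have hmap : ∀ e, (ρ e).map (f e) = ρ e := by
    intro e
    by_cases he : e.2 ∈ S
    · have h1 : f e = id := by
        funext x
        simp only [f, if_pos he, id]
      rw [h1, Measure.map_id]
    · by_cases hs : s e = true
      · have h1 : f e = id := by
          funext x
          simp only [f, if_neg he, id, hs, sg, if_true, one_mul]
        rw [h1, Measure.map_id]
      · have h1 : f e = fun x => -x := by
          funext x
          simp only [f, if_neg he, sg, if_neg hs]
          ring
        rw [h1]
        exact hsym e he
  rw [heq]
  refine ⟨measurable_pi_lambda _ fun e => (hf e).comp (measurable_pi_apply e), ?_⟩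
  rw [Measure.infinitePi_map_pi (μ := ρ) hf]
  congr 1
  funext e
  exact hmap e

end Pool.Agent.K9h1.EB
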