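import Pool.Agent.K9h1.EB.En2

/-!
# Finite volume: the spin at the origin is `+` with high probability, for most signs
-/

set_option autoImplicit false

open MeasureTheory

namespace Pool.Agent.K9h1.EB

variable {d : ℕ}

lemma gE_mono {β : ℝ} {J : Edge d → ℝ} {Λ : Finset (Site d)} {ω : Site d → Bool}
    {f g : (Site d → Bool) → ℝ} (h : ∀ η : Λ → Bool, f (glue Λ η ω) ≤ g (glue Λ η ω)) :
    gE β J Λ ω f ≤ gE β J Λ ω g := by
  unfold gE
  refine div_le_div_of_nonneg_right ?_ (Zp_pos β J Λ ω).le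
  exact Finset.sum_le_sum fun η _ => mul_le_mul_of_nonneg_left (h η) (Real.exp_pos _).le

lemma gE_sum {ι : Type} (β : ℝ) (J : Edge d → ℝ) (Λ : Finset (Site d)) (ω : Site d → Bool)
    (t : Finset ι) (f : ι → (Site d → Bool) → ℝ) :
    gE β J Λ ω (fun σ => ∑ i ∈ t, f i σ) = ∑ i ∈ t, gE β J Λ ω (f i) := by
  unfold gE
  rw [← Finset.sum_div, Finset.sum_comm]
  congr 1
  exact Finset.sum_congr rfl fun η _ => by rw [Finset.mul_sum]

lemma gE_const (β : ℝ) (J : Edge d → ℝ) (Λ : Finset (Site d)) (ω : Site d → Bool) (c : ℝ) :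
    gE β J Λ ω (fun _ => c) = c := by
  unfold gE
  rw [← Finset.sum_mul]
  have h : (∑ η : Λ → Bool, Real.exp (β * ham J Λ (glue Λ η ω))) = Zp β J Λ ω := rfl
  rw [h]
  field_simp [(Zp_pos β J Λ ω).ne']

lemma gE_add (β : ℝ) (J : Edge d → ℝ) (Λ : Finset (Site d)) (ω : Site d → Bool)
    (f g : (Site d → Bool) → ℝ) :
    gE β J Λ ω (fun σ => f σ + g σ) = gE β J Λ ω f + gE β J Λ ω g := by
  unfold gE
  rw [← add_div, ← Finset.sum_add_distrib]
  congr 1
  exact Finset.sum_congr rfl fun η _ => by ring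

open Classical in
/-- **finite volume estimate** -/
theorem fv (geo1 : GEO1) (chain : CHAIN) (pei : PEI) {S : Finset (Fin d)} (hS : 3 ≤ S.card)
    {ε : ℝ} (hε : 0 < ε) : ∃ K0 : ℝ, 0 < K0 ∧ ∀ K : ℝ, K0 ≤ K → ∀ a : Edge d → ℝ,
      (∀ e : Edge d, e.2 ∈ S → K ≤ a e) → (∀ e : Edge d, e.2 ∉ S → |a e| ≤ 1) →
      ∀ β : ℝ, 0 < β → K0 ≤ β * K → ∀ n : ℕ,
      (((Finset.univ : Finset ({e // e ∈ edgesOf (box d n)} → Bool)).filter (fun s =>
        ε < gE β (Jof S a (ext (box d n) s)) (box d n) (cst true)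
          (fun σ => if σ 0 = false then 1 else 0))).card : ℝ) ≤
      ε * 2 ^ Fintype.card {e // e ∈ edgesOf (box d n)} := by
  have hI : 3 ≤ Fintype.card {i // i ∈ S} := by simpa using hS
  have hd : 1 ≤ d := by
    have h1 := S.card_le_univ
    rw [Fintype.card_fin] at h1
    omega
  obtain ⟨K1, hK1, H1⟩ := chain {i // i ∈ S} hI d hd ε hε
  obtain ⟨K2, hK2, H2⟩ := pei {i // i ∈ S} hI ε hε
  refine ⟨max K1 K2, lt_max_of_lt_left hK1, ?_⟩
  intro K hK a ha1 ha2 β hβ0 hβ n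
  have hK1' : K1 ≤ K := (le_max_left _ _).trans hK
  have hK2' : K2 ≤ β * K := (le_max_right _ _).trans hβ
  have hK0 : 0 < K := hK1.trans_le hK1'
  set Λ := box d n with hΛ
  set 𝒞 := (boxI S n).powerset.filter (fun A => 0 ∈ A ∧ Conn (bd A)) with h𝒞
  have h1 := H1 {e // e ∈ edgesOf Λ} (FF β S a Λ) β K hβ0 hK1'
    (fun s w => FF_lip hβ0.le ha2 Λ s w) (EA S Λ) (EA_empty S Λ) (EA_card S Λ) 𝒞
  refine le_trans ?_ h1
  have hsub : (Finset.univ : Finset ({e // e ∈ edgesOf Λ} → Bool)).filter (fun s =>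
        ε < gE β (Jof S a (ext Λ s)) Λ (cst true) (fun σ => if σ 0 = false then 1 else 0)) ⊆
      (Finset.univ : Finset ({e // e ∈ edgesOf Λ} → Bool)).filter (fun s =>
        ∃ A ∈ 𝒞, ∃ m : ℕ, IsCont m A ∧
          β * K * m < FF β S a Λ (fl (EA S Λ A) s) - FF β S a Λ s) := by
    intro s hs
    rw [Finset.mem_filter] at hs ⊢
    refine ⟨Finset.mem_univ _, ?_⟩
    by_contra hno
    push Not at hno
    have h2 : gE β (Jof S a (ext Λ s)) Λ (cst true) (fun σ => if σ 0 = false then 1 else 0) ≤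
        ∑ A ∈ 𝒞, gE β (Jof S a (ext Λ s)) Λ (cst true) (fun σ => if Dis S A σ then 1 else 0) := by
      rw [← gE_sum]
      refine gE_mono fun η => ?_
      have hnn : ∀ A ∈ 𝒞, (0 : ℝ) ≤ if Dis S A (glue Λ η (cst true)) then 1 else 0 := by
        intro A _
        split_ifs <;> norm_num
      by_cases h0 : glue Λ η (cst true) 0 = false
      · rw [if_pos h0]
        obtain ⟨A, hA1, hA2, hA3, hA4⟩ := exists_contour geo1 (by omega : 2 ≤ S.card) h0
          (n := n) (fun x hx => glue_off hx)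
        have hA : A ∈ 𝒞 := Finset.mem_filter.2 ⟨hA1, hA2, hA3⟩
        refine le_trans ?_ (Finset.single_le_sum hnn hA)
        rw [if_pos hA4]
      · rw [if_neg h0]
        exact Finset.sum_nonneg hnn
    have h3 : ∀ A ∈ 𝒞, gE β (Jof S a (ext Λ s)) Λ (cst true)
        (fun σ => if Dis S A σ then 1 else 0) ≤ Real.exp (-(β * K * (bd A).card)) := by
      intro A hA
      obtain ⟨hA1, hA2, hA3⟩ := Finset.mem_filter.1 hA
      have himg : A.image (emb S) ⊆ Λ := by
        intro x hx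
        obtain ⟨y, hy, rfl⟩ := Finset.mem_image.1 hx
        exact emb_mem.2 ((Finset.mem_powerset.1 hA1) hy)
      refine (contour_le himg hβ0.le ha1 s).trans (Real.exp_le_exp.2 ?_)
      have h4 := hno A hA (bd A).card ⟨hA2, hA3, rfl⟩
      linarith
    have h5 := H2 (β * K) hK2' 𝒞 (by
      intro A hA
      obtain ⟨_, hA2, hA3⟩ := Finset.mem_filter.1 hA
      exact ⟨_, hA2, hA3, rfl⟩)
    have h6 := h2.trans ((Finset.sum_le_sum h3).trans h5)
    linarith [hs.2]
  exact_mod_cast Finset.card_le_card hsub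

end Pool.Agent.K9h1.EB
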