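import Pool.Agent.K9h1.EB.En2

/-!
# Statements of the second group of leaves: independent real couplings with general laws
-/

set_option autoImplicit false

open MeasureTheory Filter Topology

namespace Pool.Agent.K9h1.EB

/-- ZOR: zero-one law for independent real couplings -/
def ZOR : Prop := ∀ (d : ℕ) (β : ℝ) (ρ : Edge d → Measure ℝ) [∀ e, IsProbabilityMeasure (ρ e)],
  MeasurableSet {J : Edge d → ℝ | Nonuniq β J} ∧
  (Measure.infinitePi ρ {J | Nonuniq β J} = 0 ∨ Measure.infinitePi ρ {J | Nonuniq β J} = 1)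

/-- FLIP: flipping the signs of edges with symmetric laws preserves the law -/
def FLIP : Prop := ∀ (d : ℕ) (S : Finset (Fin d)) (ρ : Edge d → Measure ℝ)
  [∀ e, IsProbabilityMeasure (ρ e)], (∀ e, e.2 ∉ S → (ρ e).map (fun x => -x) = ρ e) →
  ∀ s : Edge d → Bool,
    MeasurePreserving (fun J : Edge d → ℝ => Jof S J s) (Measure.infinitePi ρ)
      (Measure.infinitePi ρ)

/-- BADS: with high probability the sum of the couplings over every contour is large -/
def BADS : Prop := ∀ (d : ℕ) (S : Finset (Fin d)), 3 ≤ S.card → ∀ M ε : ℝ, 0 ≤ M → 0 < ε →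
  ∃ p0 : ℝ, 0 < p0 ∧ ∀ K : ℝ, 0 < K → ∀ (ρ : Edge d → Measure ℝ)
    [∀ e, IsProbabilityMeasure (ρ e)],
    (∀ e, e.2 ∈ S → ρ e {x | x < K} ≤ ENNReal.ofReal p0 ∧ ρ e {x | x < -(M * K)} = 0) →
    ∀ n : ℕ, Measure.infinitePi ρ {J | ∃ A ∈ (boxI S n).powerset, 0 ∈ A ∧ Conn (bd A) ∧
      ∑ e ∈ TT S A, J e < K / 2 * (bd A).card} ≤ ENNReal.ofReal ε

end Pool.Agent.K9h1.EB
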