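import Pool.Agent.K9h1.EB.Fin
import Pool.Agent.K9h1.EB.Stm2

/-!
# General independent couplings
-/

set_option autoImplicit false

open MeasureTheory Filter Topology

namespace Pool.Agent.K9h1.EB

variable {d : ℕ}

open Classical in
/-- probability of a contour, in terms of the sum of the couplings over the contour -/
lemma contour_le' {S : Finset (Fin d)} {A : Finset ({i // i ∈ S} → ℤ)} {Λ : Finset (Site d)}
    (hA : A.image (emb S) ⊆ Λ) {a : Edge d → ℝ} {β : ℝ}
    (s : {e // e ∈ edgesOf Λ} → Bool) :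
    gE β (Jof S a (ext Λ s)) Λ (cst true) (fun σ => if Dis S A σ then 1 else 0) ≤
      Real.exp (-(2 * β * ∑ e ∈ TT S A, a e) + (FF β S a Λ (fl (EA S Λ A) s) - FF β S a Λ s)) := by
  set J := Jof S a (ext Λ s) with hJ
  set J' := Jof S a (ext Λ (fl (EA S Λ A) s)) with hJ'
  have hZ := Zp_pos β J Λ (cst true)
  have hZ' := Zp_pos β J' Λ (cst true)
  have h1 : ∑ η : Λ → Bool, Real.exp (β * ham J Λ (glue Λ η (cst true))) *
      (if Dis S A (glue Λ η (cst true)) then 1 else 0) ≤
      Real.exp (-(2 * β * ∑ e ∈ TT S A, a e)) * Zp β J' Λ (cst true) := by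
    let g : (Λ → Bool) → (Λ → Bool) := fun η x => if x.1 ∈ A.image (emb S) then !(η x) else η x
    have hg : Function.Involutive g := by
      intro η
      funext x
      simp only [g]
      split_ifs <;> simp
    have hglue : ∀ η : Λ → Bool, glue Λ (g η) (cst true) = flp S A (glue Λ η (cst true)) := by
      intro η
      funext x
      unfold glue flp
      by_cases hx : x ∈ Λ
      · simp only [hx, dif_pos, g]
      · simp only [hx, dif_neg, not_false_eq_true]
        rw [if_neg (fun h => hx (hA h))]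
    have hsum : Zp β J' Λ (cst true) =
        ∑ η : Λ → Bool, Real.exp (β * ham J' Λ (flp S A (glue Λ η (cst true)))) := by
      unfold Zp
      rw [← Equiv.sum_comp hg.toPerm]
      refine Finset.sum_congr rfl fun η _ => ?_
      rw [← hglue]
      rfl
    rw [hsum, Finset.mul_sum]
    refine Finset.sum_le_sum fun η _ => ?_
    by_cases hD : Dis S A (glue Λ η (cst true))
    · rw [if_pos hD, mul_one, ← Real.exp_add]
      refine Real.exp_le_exp.2 ?_
      rw [hJ', ham_flip hA a s hD, ← hJ, ← Finset.mul_sum]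
      linarith
    · rw [if_neg hD, mul_zero]
      exact (mul_pos (Real.exp_pos _) (Real.exp_pos _)).le
  unfold gE
  rw [div_le_iff₀ hZ]
  refine h1.trans (le_of_eq ?_)
  unfold FF
  rw [Real.exp_add, ← hJ, ← hJ', Real.exp_sub, Real.exp_log hZ', Real.exp_log hZ]
  field_simp

open Classical in
/-- finite volume estimate, strong couplings with large sums over all contours -/
theorem fv2 (geo1 : GEO1) (chain : CHAIN) (pei : PEI) {S : Finset (Fin d)} (hS : 3 ≤ S.card)
    {ε : ℝ} (hε : 0 < ε) : ∃ K0 : ℝ, 0 < K0 ∧ ∀ K : ℝ, K0 ≤ K →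
      ∀ β : ℝ, 0 < β → K0 ≤ β * K → ∀ (n : ℕ) (a : Edge d → ℝ),
      (∀ e : Edge d, e.2 ∉ S → |a e| ≤ 1) →
      (∀ A ∈ (boxI S n).powerset, 0 ∈ A → Conn (bd A) → K * (bd A).card ≤ ∑ e ∈ TT S A, a e) →
      (((Finset.univ : Finset ({e // e ∈ edgesOf (box d n)} → Bool)).filter (fun s =>
        ε < gE β (Jof S a (ext (box d n) s)) (box d n) (cst true)
          (fun σ => if σ 0 = false then 1 else 0))).card : ℝ) ≤
      ε * 2 ^ Fintype.card {e // e ∈ edgesOf (box d n)} := by
  have hI : 3 ≤ Fintype.card {i // i ∈ S} := by simpa using hS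
  have hd : 1 ≤ d := by
    have h1 := S.card_le_univ
    rw [Fintype.card_fin] at h1
    omega
  obtain ⟨K1, hK1, H1⟩ := chain {i // i ∈ S} hI d hd ε hε
  obtain ⟨K2, hK2, H2⟩ := pei {i // i ∈ S} hI ε hε
  refine ⟨max K1 K2, lt_max_of_lt_left hK1, ?_⟩
  intro K hK β hβ0 hβ n a ha2 hbig
  have hK1' : K1 ≤ K := (le_max_left _ _).trans hK
  have hK2' : K2 ≤ β * K := (le_max_right _ _).trans hβ
  set Λ := box d n with hΛ
  set 𝒞 := (boxI S n).powerset.filter (fun A => 0 ∈ A ∧ Conn (bd A)) with h𝒞
  have h1 := H1 {e // e ∈ edgesOf Λ} (FF β S a Λ) β K hβ0 hK1'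
    (fun s w => FF_lip hβ0.le ha2 Λ s w) (EA S Λ) (EA_empty S Λ) (EA_card S Λ) 𝒞
  refine le_trans ?_ h1
  have hsub : (Finset.univ : Finset ({e // e ∈ edgesOf Λ} → Bool)).filter (fun s =>
        ε < gE β (Jof S a (ext Λ s)) Λ (cst true) (fun σ => if σ 0 = false then 1 else 0)) ⊆
      (Finset.univ : Finset ({e // e ∈ edgesOf Λ} → Bool)).filter (fun s =>
        ∃ A ∈ 𝒞, ∃ m : ℕ, IsCont m A ∧
          β * K * m < FF β S a Λ (fl (EA S Λ A) s) - FF β S a Λ s) := by
    intro s hs
    rw [Finset.mem_filter] at hs ⊢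
    refine ⟨Finset.mem_univ _, ?_⟩
    by_contra hno
    push Not at hno
    have h2 : gE β (Jof S a (ext Λ s)) Λ (cst true) (fun σ => if σ 0 = false then 1 else 0) ≤
        ∑ A ∈ 𝒞, gE β (Jof S a (ext Λ s)) Λ (cst true) (fun σ => if Dis S A σ then 1 else 0) := by
      rw [← gE_sum]
      refine gE_mono fun η => ?_
      have hnn : ∀ A ∈ 𝒞, (0 : ℝ) ≤ if Dis S A (glue Λ η (cst true)) then 1 else 0 := by
        intro A _
        split_ifs <;> norm_num
      by_cases h0 : glue Λ η (cst true) 0 = false
      · rw [if_pos h0]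
        obtain ⟨A, hA1, hA2, hA3, hA4⟩ := exists_contour geo1 (by omega : 2 ≤ S.card) h0
          (n := n) (fun x hx => glue_off hx)
        have hA : A ∈ 𝒞 := Finset.mem_filter.2 ⟨hA1, hA2, hA3⟩
        refine le_trans ?_ (Finset.single_le_sum hnn hA)
        rw [if_pos hA4]
      · rw [if_neg h0]
        exact Finset.sum_nonneg hnn
    have h3 : ∀ A ∈ 𝒞, gE β (Jof S a (ext Λ s)) Λ (cst true)
        (fun σ => if Dis S A σ then 1 else 0) ≤ Real.exp (-(β * K * (bd A).card)) := by
      intro A hA
      obtain ⟨hA1, hA2, hA3⟩ := Finset.mem_filter.1 hA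
      have himg : A.image (emb S) ⊆ Λ := by
        intro x hx
        obtain ⟨y, hy, rfl⟩ := Finset.mem_image.1 hx
        exact emb_mem.2 ((Finset.mem_powerset.1 hA1) hy)
      refine (contour_le' himg s).trans (Real.exp_le_exp.2 ?_)
      have h4 := hno A hA (bd A).card ⟨hA2, hA3, rfl⟩
      have h5 := mul_le_mul_of_nonneg_left (hbig A hA1 hA2 hA3) hβ0.le
      linarith
    have h5 := H2 (β * K) hK2' 𝒞 (by
      intro A hA
      obtain ⟨_, hA2, hA3⟩ := Finset.mem_filter.1 hA
      exact ⟨_, hA2, hA3, rfl⟩)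
    have h6 := h2.trans ((Finset.sum_le_sum h3).trans h5)
    linarith [hs.2]
  exact_mod_cast Finset.card_le_card hsub

lemma measurable_ham (Λ : Finset (Site d)) (σ : Site d → Bool) :
    Measurable (fun J : Edge d → ℝ => ham J Λ σ) := by
  unfold ham
  exact Finset.measurable_sum _ fun e _ =>
    ((measurable_pi_apply e).mul_const _).mul_const _

lemma measurable_gE (β : ℝ) (Λ : Finset (Site d)) (ω : Site d → Bool)
    (f : (Site d → Bool) → ℝ) : Measurable (fun J : Edge d → ℝ => gE β J Λ ω f) := by
  unfold gE Zp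
  refine Measurable.div ?_ ?_
  · exact Finset.measurable_sum _ fun η _ =>
      (Real.measurable_exp.comp ((measurable_ham Λ _).const_mul β)).mul_const _
  · exact Finset.measurable_sum _ fun η _ =>
      Real.measurable_exp.comp ((measurable_ham Λ _).const_mul β)

open Classical in
/-- **almost sure non-uniqueness for general independent couplings** -/
theorem ae_nonuniq2 (geo1 : GEO1) (chain : CHAIN) (pei : PEI) (zor : ZOR) (flip : FLIP)
    (bads : BADS) {S : Finset (Fin d)} (hS : 3 ≤ S.card) {M : ℝ} (hM : 0 ≤ M) :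
    ∃ K0 p0 : ℝ, 0 < K0 ∧ 0 < p0 ∧ ∀ K : ℝ, K0 ≤ K → ∀ β : ℝ, 0 < β → K0 ≤ β * K →
      ∀ (ρ : Edge d → Measure ℝ) [∀ e, IsProbabilityMeasure (ρ e)],
      (∀ e : Edge d, e.2 ∈ S → ρ e {x | x < K} ≤ ENNReal.ofReal p0 ∧
        ρ e {x | x < -(M * K)} = 0) →
      (∀ e : Edge d, e.2 ∉ S → (ρ e).map (fun x => -x) = ρ e ∧ ρ e {x | 1 < |x|} = 0) →
      ∀ᵐ J ∂(Measure.infinitePi ρ), Nonuniq β J := by
  obtain ⟨K1, hK1, H⟩ := fv2 geo1 chain pei hS (ε := 1 / 8) (by norm_num)
  obtain ⟨p0, hp0, hbads⟩ := bads d S hS M (1 / 8) hM (by norm_num)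
  refine ⟨2 * K1, p0, by positivity, hp0, ?_⟩
  intro K hK β hβ hβK ρ _ hρS hρ
  have hKpos : 0 < K := by linarith
  set μ := Measure.infinitePi ρ with hμ
  set G : ℕ → Set (Edge d → ℝ) := fun n => {J | 1 / 8 < gE β J (box d n) (cst true)
    (fun σ => if σ 0 = false then 1 else 0)} with hG
  have hGm : ∀ n, MeasurableSet (G n) := fun n =>
    measurableSet_lt measurable_const (measurable_gE β _ _ _)
  -- the weak couplings are at most one in absolute value
  have hweak : ∀ᵐ J ∂μ, ∀ e : Edge d, e.2 ∉ S → |J e| ≤ 1 := by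
    rw [ae_all_iff]
    intro e
    by_cases he : e.2 ∈ S
    · exact Filter.Eventually.of_forall fun J h => absurd he h
    · have h1 : (μ.map (fun J : Edge d → ℝ => J e)) = ρ e := by
        rw [hμ]
        exact (measurePreserving_eval_infinitePi ρ e).map_eq
      have h2 : μ {J | 1 < |J e|} = 0 := by
        have h3 : MeasurableSet {x : ℝ | 1 < |x|} :=
          measurableSet_lt measurable_const measurable_norm
        have h4 := (hρ e he).2
        rw [← h1, Measure.map_apply (measurable_pi_apply e) h3] at h4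
        exact h4
      rw [ae_iff]
      refine measure_mono_null ?_ h2
      intro J hJ
      rw [Set.mem_setOf_eq] at hJ ⊢
      push Not at hJ
      exact hJ.2
  have hGn : ∀ n, μ (G n) ≤ ENNReal.ofReal (1 / 4) := by
    intro n
    set W := {e // e ∈ edgesOf (box d n)} with hW
    set Bad : Set (Edge d → ℝ) := {J | ∃ A ∈ (boxI S n).powerset, 0 ∈ A ∧ Conn (bd A) ∧
      ∑ e ∈ TT S A, J e < K / 2 * (bd A).card} with hBad
    have hBad' : μ Bad ≤ ENNReal.ofReal (1 / 8) := hbads K hKpos ρ hρS n
    set A : (W → Bool) → Set (Edge d → ℝ) := fun s => {J | Jof S J (ext (box d n) s) ∈ G n} with hA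
    have hpres : ∀ s : W → Bool, MeasurePreserving
        (fun J : Edge d → ℝ => Jof S J (ext (box d n) s)) μ μ := fun s =>
      flip d S ρ (fun e he => (hρ e he).1) (ext (box d n) s)
    have hAm : ∀ s, MeasurableSet (A s) := fun s => (hpres s).measurable (hGm n)
    have hAs : ∀ s, μ (A s) = μ (G n) := fun s =>
      (hpres s).measure_preimage (hGm n).nullMeasurableSet
    have hsum : (2 : ENNReal) ^ Fintype.card W * μ (G n) = ∑ s : W → Bool, μ (A s) := by
      rw [Finset.sum_congr rfl fun s _ => hAs s, Finset.sum_const, Finset.card_univ,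
        Fintype.card_fun, Fintype.card_bool, nsmul_eq_mul]
      push_cast
      rfl
    have hint : ∑ s : W → Bool, μ (A s) = ∫⁻ J, ∑ s : W → Bool, (A s).indicator 1 J ∂μ := by
      rw [lintegral_finset_sum _ fun s _ => measurable_one.indicator (hAm s)]
      exact Finset.sum_congr rfl fun s _ => (lintegral_indicator_one (hAm s)).symm
    have hpt : ∀ᵐ J ∂μ, ∑ s : W → Bool, (A s).indicator (1 : (Edge d → ℝ) → ENNReal) J ≤
        (2 : ENNReal) ^ Fintype.card W * (ENNReal.ofReal (1 / 8) + (toMeasurable μ Bad).indicator 1 J)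
        := by
      filter_upwards [hweak] with J hJ
      have e1 : ∑ s : W → Bool, (A s).indicator (1 : (Edge d → ℝ) → ENNReal) J =
          ((Finset.univ.filter fun s : W → Bool => J ∈ A s).card : ENNReal) := by
        rw [Finset.card_filter]
        push_cast
        refine Finset.sum_congr rfl fun s _ => ?_
        by_cases h : J ∈ A s
        · rw [Set.indicator_of_mem h, if_pos h]; rfl
        · rw [Set.indicator_of_notMem h, if_neg h]
      rw [e1]
      by_cases hB : J ∈ toMeasurable μ Bad
      · rw [Set.indicator_of_mem hB]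
        have h1 : ((Finset.univ.filter fun s : W → Bool => J ∈ A s).card : ENNReal) ≤
            (2 : ENNReal) ^ Fintype.card W := by
          have h2 := Finset.card_filter_le (Finset.univ : Finset (W → Bool)) (fun s => J ∈ A s)
          rw [Finset.card_univ, Fintype.card_fun, Fintype.card_bool] at h2
          exact_mod_cast h2
        refine h1.trans ?_
        calc (2 : ENNReal) ^ Fintype.card W = (2 : ENNReal) ^ Fintype.card W * 1 := (mul_one _).symm
          _ ≤ _ := mul_le_mul_right (le_add_of_nonneg_left (bot_le)) _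
      · rw [Set.indicator_of_notMem hB, add_zero]
        have hJB : J ∉ Bad := fun h => hB (subset_toMeasurable μ Bad h)
        have h1 := H (K / 2) (by linarith) β hβ (by linarith) n J hJ (by
          intro A' hA1 hA2 hA3
          by_contra hlt
          exact hJB ⟨A', hA1, hA2, hA3, not_le.1 hlt⟩)
        have h2 : (Finset.univ.filter fun s : W → Bool => J ∈ A s) =
            (Finset.univ : Finset (W → Bool)).filter (fun s =>
              1 / 8 < gE β (Jof S J (ext (box d n) s)) (box d n) (cst true)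
                (fun σ => if σ 0 = false then 1 else 0)) := by
          ext s
          simp [hA, hG]
        rw [h2]
        rw [← ENNReal.ofReal_natCast]
        have h3 : (2 : ENNReal) ^ Fintype.card W = ENNReal.ofReal (2 ^ Fintype.card W) := by
          rw [ENNReal.ofReal_pow (by norm_num)]
          norm_num
        rw [h3, ← ENNReal.ofReal_mul (by positivity)]
        refine ENNReal.ofReal_le_ofReal (h1.trans (le_of_eq ?_))
        ring
    have hfin : (2 : ENNReal) ^ Fintype.card W * μ (G n) ≤
        (2 : ENNReal) ^ Fintype.card W * ENNReal.ofReal (1 / 4) := by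
      rw [hsum, hint]
      refine (lintegral_mono_ae hpt).trans ?_
      have hm1 : Measurable (fun J : Edge d → ℝ => ENNReal.ofReal (1 / 8) +
          (toMeasurable μ Bad).indicator (1 : (Edge d → ℝ) → ENNReal) J) :=
        (measurable_one.indicator (measurableSet_toMeasurable μ Bad)).const_add _
      rw [lintegral_const_mul _ hm1,
        lintegral_add_left measurable_const, lintegral_const, measure_univ, mul_one,
        lintegral_indicator_one (measurableSet_toMeasurable μ Bad), measure_toMeasurable]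
      refine mul_le_mul_right ?_ _
      refine (add_le_add_right hBad' _).trans (le_of_eq ?_)
      rw [← ENNReal.ofReal_add (by norm_num) (by norm_num)]
      norm_num
    exact (ENNReal.mul_le_mul_iff_right (by positivity) (by finiteness)).1 hfin
  set N : Set (Edge d → ℝ) := {J | Nonuniq β J} with hN
  have hsub : Nᶜ ⊆ ⋃ n, ⋂ m ≥ n, G m := by
    intro s hs
    by_contra hno
    apply hs
    refine nonuniq_of ?_
    rw [Filter.frequently_atTop]
    intro n
    rw [Set.mem_iUnion] at hno
    push Not at hno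
    have := hno n
    rw [Set.mem_iInter₂] at this
    push Not at this
    obtain ⟨m, hm, hm'⟩ := this
    exact ⟨m, hm, not_lt.1 hm'⟩
  have hmono : Monotone (fun n => ⋂ m ≥ n, G m) := by
    intro i j hij
    exact Set.biInter_mono (fun m hm => le_trans hij hm) fun _ _ => le_rfl
  have hle : μ Nᶜ ≤ ENNReal.ofReal (1 / 4) := by
    refine (measure_mono hsub).trans ?_
    rw [hmono.measure_iUnion]
    refine iSup_le fun n => ?_
    exact (measure_mono (Set.biInter_subset_of_mem (le_refl n))).trans (hGn n)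
  obtain ⟨hmeas, h01⟩ := zor d β ρ
  rcases h01 with h0 | h1
  · exfalso
    have h2 := prob_compl_eq_one_iff hmeas |>.2 h0
    have h3 : (1 : ENNReal) ≤ ENNReal.ofReal (1 / 4) := by
      rw [← h2]; exact hle
    rw [ENNReal.one_le_ofReal] at h3
    norm_num at h3
  · rw [ae_iff]
    exact (prob_compl_eq_zero_iff hmeas).2 h1

end Pool.Agent.K9h1.EB
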