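import Pool.Agent.K9h1.EB.Stm

/-! Leaf GEO1 (helper1, MP_81d17b_pr), by helper66: a finite set whose boundary is a connected part
of the boundary of `C`. -/

set_option autoImplicit false
set_option linter.unusedSectionVars false
set_option linter.unusedSimpArgs false

namespace Pool.Agent.K9h1.EB

namespace G1

variable {I : Type} [Fintype I] [DecidableEq I]

open Classical in
/-- indicator of a finset modulo two -/
noncomputable def ind {α : Type} (E : Finset α) (e : α) : ZMod 2 := if e ∈ E then 1 else 0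

lemma zmod2 (a b : ZMod 2) : a ≠ b ↔ a + b = 1 := by revert a b; decide

lemma zmod2_add (a : ZMod 2) : a + a = 0 := by revert a; decide

lemma prop_aux (p q p' q' : Prop)
    (h : ¬ ((p ∧ ¬ p' ∨ p' ∧ ¬ p) ↔ (q ∧ ¬ q' ∨ q' ∧ ¬ q)))
    (h4 : ¬ (p' ↔ q') → ¬ (p ↔ q)) : ¬ (p ↔ q) ∧ (p' ↔ q') := by
  by_cases hp : p <;> by_cases hq : q <;> by_cases hp' : p' <;> by_cases hq' : q' <;>
    simp_all

lemma ind_bd (C : Finset (I → ℤ)) (x : I → ℤ) (i : I) :
    ind (bd C) (x, i) = ind C x + ind C (x + un i) := by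
  unfold ind
  by_cases h1 : x ∈ C <;> by_cases h2 : x + un i ∈ C <;> simp [mem_bd, h1, h2]
  exact (zmod2_add 1).symm

lemma near_symm {e f : (I → ℤ) × I} (h : near e f) : near f e := by
  intro c
  rw [abs_sub_comm]
  exact h c

/-- the four edges of a unit square -/
lemma square (C : Finset (I → ℤ)) (E : Finset ((I → ℤ) × I)) (hE : E ⊆ bd C)
    (hcl : ∀ e ∈ E, ∀ f ∈ bd C, near e f → f ∈ E) (y : I → ℤ) (i j : I) (hij : i ≠ j) :
    ind E (y, j) + ind E (y + un i, j) = ind E (y, i) + ind E (y + un j, i) := by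
  have hn1 : near (y, j) (y + un i, j) := by
    intro c
    simp only [Pi.add_apply, un, Pi.single_apply]
    split_ifs <;> simp
  have hn2 : near (y, j) (y, i) := by
    intro c
    simp
  have hn3 : near (y, j) (y + un j, i) := by
    intro c
    simp only [Pi.add_apply, un, Pi.single_apply]
    split_ifs <;> simp
  have hn4 : near (y + un i, j) (y, i) := by
    intro c
    simp only [Pi.add_apply, un, Pi.single_apply]
    split_ifs <;> simp
  have hn5 : near (y + un i, j) (y + un j, i) := by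
    intro c
    simp only [Pi.add_apply, un, Pi.single_apply]
    split_ifs with h1 h2
    · exact absurd (h1.symm.trans h2) hij
    · simp
    · simp
    · simp
  have hn6 : near (y, i) (y + un j, i) := by
    intro c
    simp only [Pi.add_apply, un, Pi.single_apply]
    split_ifs <;> simp
  -- if one edge is in `E` then all the edges of the boundary are
  by_cases h : (y, j) ∈ E ∨ (y + un i, j) ∈ E ∨ (y, i) ∈ E ∨ (y + un j, i) ∈ E
  · have hall : ∀ e, (e = (y, j) ∨ e = (y + un i, j) ∨ e = (y, i) ∨ e = (y + un j, i)) →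
        ind E e = ind (bd C) e := by
      intro e he
      have h1 : e ∈ bd C → e ∈ E := by
        intro hb
        rcases h with h | h | h | h <;> rcases he with rfl | rfl | rfl | rfl
        · exact h
        · exact hcl _ h _ hb hn1
        · exact hcl _ h _ hb hn2
        · exact hcl _ h _ hb hn3
        · exact hcl _ h _ hb (near_symm hn1)
        · exact h
        · exact hcl _ h _ hb hn4
        · exact hcl _ h _ hb hn5
        · exact hcl _ h _ hb (near_symm hn2)
        · exact hcl _ h _ hb (near_symm hn4)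
        · exact h
        · exact hcl _ h _ hb hn6
        · exact hcl _ h _ hb (near_symm hn3)
        · exact hcl _ h _ hb (near_symm hn5)
        · exact hcl _ h _ hb (near_symm hn6)
        · exact h
      unfold ind
      by_cases hb : e ∈ bd C
      · rw [if_pos hb, if_pos (h1 hb)]
      · rw [if_neg hb, if_neg fun he' => hb (hE he')]
    rw [hall (y, j) (Or.inl rfl), hall (y + un i, j) (Or.inr (Or.inl rfl)),
      hall (y, i) (Or.inr (Or.inr (Or.inl rfl))),
      hall (y + un j, i) (Or.inr (Or.inr (Or.inr rfl))), ind_bd, ind_bd, ind_bd, ind_bd]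
    have e1 : y + un i + un j = y + un j + un i := by abel
    rw [e1]
    generalize ind C y = a
    generalize ind C (y + un j) = b
    generalize ind C (y + un i) = c
    generalize ind C (y + un j + un i) = d
    revert a b c d
    decide
  · push Not at h
    obtain ⟨h1, h2, h3, h4⟩ := h
    unfold ind
    rw [if_neg h1, if_neg h2, if_neg h3, if_neg h4]

/-- a bounded boundary edge -/
lemma ind_zero (C : Finset (I → ℤ)) (E : Finset ((I → ℤ) × I)) (hE : E ⊆ bd C) (y : I → ℤ) (i : I)
    (h1 : y ∉ C) (h2 : y + un i ∉ C) : ind E (y, i) = 0 := by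
  unfold ind
  rw [if_neg]
  intro h
  exact (mem_bd.mp (hE h)) ⟨fun h => absurd h h1, fun h => absurd h h2⟩

/-- the parity of the edges of `E` on the ray -/
noncomputable def ph (E : Finset ((I → ℤ) × I)) (i₀ : I) (B : ℕ) (x : I → ℤ) : ZMod 2 :=
  ∑ t ∈ Finset.range ((B : ℤ) + 1 - x i₀).toNat, ind E (x + (t : ℤ) • un i₀, i₀)

lemma smul_un (t : ℤ) (i c : I) : (t • un i) c = if c = i then t else 0 := by
  simp only [un, Pi.smul_apply, Pi.single_apply, smul_eq_mul]
  split_ifs <;> simp

lemma tele (C : Finset (I → ℤ)) (E : Finset ((I → ℤ) × I)) (hE : E ⊆ bd C)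
    (hcl : ∀ e ∈ E, ∀ f ∈ bd C, near e f → f ∈ E) (x : I → ℤ) (i₀ i : I) (hi : i ≠ i₀) (T : ℕ) :
    ∑ t ∈ Finset.range T, ind E (x + (t : ℤ) • un i₀, i₀) +
      ∑ t ∈ Finset.range T, ind E (x + un i + (t : ℤ) • un i₀, i₀) =
    ind E (x, i) + ind E (x + (T : ℤ) • un i₀, i) := by
  induction T with
  | zero => simp [zmod2_add]
  | succ T ih =>
    rw [Finset.sum_range_succ, Finset.sum_range_succ]
    have h1 := square C E hE hcl (x + (T : ℤ) • un i₀) i i₀ hi
    have e1 : x + (T : ℤ) • un i₀ + un i = x + un i + (T : ℤ) • un i₀ := by abel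
    have e2 : x + (T : ℤ) • un i₀ + un i₀ = x + ((T + 1 : ℕ) : ℤ) • un i₀ := by
      push_cast
      rw [add_smul, one_smul, add_assoc]
    rw [e1, e2] at h1
    have h2 : ∀ a b c d e f g : ZMod 2, a + c = e + f → b + d = f + g →
        (a + b) + (c + d) = e + g := by decide
    exact h2 _ _ _ _ _ _ _ ih h1

lemma ph_step (C : Finset (I → ℤ)) (E : Finset ((I → ℤ) × I)) (hE : E ⊆ bd C)
    (hcl : ∀ e ∈ E, ∀ f ∈ bd C, near e f → f ∈ E) (i₀ : I) (B : ℕ)
    (hB : ∀ x ∈ C, ∀ c, |x c| ≤ B) (x : I → ℤ) (i : I) :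
    ph E i₀ B x + ph E i₀ B (x + un i) = ind E (x, i) := by
  by_cases hi : i = i₀
  · subst hi
    by_cases hx : x i ≤ B
    · have h1 : ((B : ℤ) + 1 - x i).toNat = ((B : ℤ) + 1 - (x + un i) i).toNat + 1 := by
        have : (x + un i) i = x i + 1 := by simp [un]
        rw [this]
        omega
      unfold ph
      rw [h1, Finset.sum_range_succ']
      have h2 : ∀ t ∈ Finset.range ((B : ℤ) + 1 - (x + un i) i).toNat,
          ind E (x + ((t + 1 : ℕ) : ℤ) • un i, i) = ind E (x + un i + (t : ℤ) • un i, i) := by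
        intro t _
        have e2 : x + un i + (t : ℤ) • un i = x + ((t + 1 : ℕ) : ℤ) • un i := by
          push_cast
          rw [add_smul, one_smul]
          abel
        rw [e2]
      rw [Finset.sum_congr rfl h2]
      have h3 : x + ((0 : ℕ) : ℤ) • un i = x := by simp
      rw [h3]
      generalize ∑ t ∈ Finset.range ((B : ℤ) + 1 - (x + un i) i).toNat,
        ind E (x + un i + (t : ℤ) • un i, i) = a
      generalize ind E (x, i) = b
      revert a b
      decide
    · push Not at hx
      have h1 : ((B : ℤ) + 1 - x i).toNat = 0 := by omega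
      have h2 : ((B : ℤ) + 1 - (x + un i) i).toNat = 0 := by
        have : (x + un i) i = x i + 1 := by simp [un]
        rw [this]
        omega
      unfold ph
      rw [h1, h2, Finset.sum_range_zero, Finset.sum_range_zero, ind_zero C E hE]
      · simp
      · intro h
        have := hB x h i
        rw [abs_le] at this
        omega
      · intro h
        have := hB _ h i
        rw [abs_le] at this
        have h3 : (x + un i) i = x i + 1 := by simp [un]
        rw [h3] at this
        omega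
  · have h1 : (x + un i) i₀ = x i₀ := by
      simp [un, Pi.single_apply, Ne.symm hi]
    unfold ph
    rw [h1, tele C E hE hcl x i₀ i hi]
    have h2 : ind E (x + ((((B : ℤ) + 1 - x i₀).toNat : ℕ) : ℤ) • un i₀, i) = 0 := by
      apply ind_zero C E hE
      · intro h
        have := hB _ h i₀
        rw [abs_le, Pi.add_apply, smul_un, if_pos rfl] at this
        omega
      · intro h
        have := hB _ h i₀
        have h3 : (un i : I → ℤ) i₀ = 0 := by simp [un, Pi.single_apply, Ne.symm hi]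
        rw [abs_le, Pi.add_apply, Pi.add_apply, smul_un, if_pos rfl, h3] at this
        omega
    rw [h2, add_zero]

lemma ph_zero_of (C : Finset (I → ℤ)) (E : Finset ((I → ℤ) × I)) (hE : E ⊆ bd C) (i₀ : I) (B : ℕ)
    (x : I → ℤ) (h : ∀ t : ℕ, x + (t : ℤ) • un i₀ ∉ C) : ph E i₀ B x = 0 := by
  unfold ph
  apply Finset.sum_eq_zero
  intro t _
  apply ind_zero C E hE
  · exact h t
  · have h1 := h (t + 1)
    push_cast at h1
    rw [add_smul, one_smul, ← add_assoc] at h1
    exact h1

lemma ph_bound (C : Finset (I → ℤ)) (E : Finset ((I → ℤ) × I)) (hE : E ⊆ bd C)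
    (hcl : ∀ e ∈ E, ∀ f ∈ bd C, near e f → f ∈ E) (hI : 2 ≤ Fintype.card I) (i₀ : I) (B : ℕ)
    (hB : ∀ x ∈ C, ∀ c, |x c| ≤ B) (N : ℕ) (hN : ∀ x ∈ C, ∀ c, |x c| ≤ N)
    (x : I → ℤ) (hx : ph E i₀ B x = 1) (c : I) : |x c| ≤ N := by
  by_contra hcon
  push Not at hcon
  have h01 : (0 : ZMod 2) ≠ 1 := by decide
  have hside : ∀ (y : I → ℤ) (c : I), c ≠ i₀ → (N : ℤ) < |y c| → ph E i₀ B y = 0 := by
    intro y c hc hy
    apply ph_zero_of C E hE
    intro t h
    have h1 := hN _ h c
    rw [Pi.add_apply, smul_un, if_neg hc, add_zero] at h1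
    omega
  by_cases hc : c = i₀
  · subst hc
    rcases lt_abs.mp hcon with h | h
    · apply h01
      rw [← hx]
      symm
      apply ph_zero_of C E hE
      intro t ht
      have h1 := hN _ ht c
      rw [abs_le, Pi.add_apply, smul_un, if_pos rfl] at h1
      omega
    · obtain ⟨i, hi⟩ : ∃ i : I, i ≠ c := by
        by_contra h2
        push Not at h2
        have : Fintype.card I ≤ 1 := Fintype.card_le_one_iff.mpr fun a b => (h2 a).trans (h2 b).symm
        omega
      have hci : (un i : I → ℤ) c = 0 := by simp [un, Pi.single_apply, Ne.symm hi]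
      have h3 : ∀ s : ℕ, ph E c B (x + (s : ℤ) • un i) = 1 := by
        intro s
        induction s with
        | zero => simpa using hx
        | succ s ih =>
          have h4 := ph_step C E hE hcl c B hB (x + (s : ℤ) • un i) i
          have h5 : ind E (x + (s : ℤ) • un i, i) = 0 := by
            apply ind_zero C E hE
            · intro h6
              have h7 := hN _ h6 c
              rw [abs_le, Pi.add_apply, smul_un, if_neg (Ne.symm hi)] at h7
              omega
            · intro h6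
              have h7 := hN _ h6 c
              rw [abs_le, Pi.add_apply, Pi.add_apply, smul_un, if_neg (Ne.symm hi), hci] at h7
              omega
          rw [h5, ih] at h4
          have e2 : x + (s : ℤ) • un i + un i = x + ((s + 1 : ℕ) : ℤ) • un i := by
            push_cast
            rw [add_smul, one_smul, add_assoc]
          rw [e2] at h4
          revert h4
          generalize ph E c B (x + ((s + 1 : ℕ) : ℤ) • un i) = a
          revert a
          decide
      have h4 := h3 (N + 1 + (x i).natAbs)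
      rw [hside _ i hi] at h4
      · exact h01 h4
      · rw [Pi.add_apply, smul_un, if_pos rfl, lt_abs]
        left
        omega
  · rw [hside x c hc hcon] at hx
    exact h01 hx

open Classical in
lemma split (C : Finset (I → ℤ)) (E : Finset ((I → ℤ) × I)) (hE : E ⊆ bd C)
    (hcl : ∀ e ∈ E, ∀ f ∈ bd C, near e f → f ∈ E) (hI : 2 ≤ Fintype.card I) :
    ∃ A : Finset (I → ℤ), bd A = E ∧ ∀ N : ℕ, (∀ x ∈ C, ∀ c, |x c| ≤ N) →
      ∀ x ∈ A, ∀ c, |x c| ≤ N := by
  obtain ⟨i₀⟩ : Nonempty I := Fintype.card_pos_iff.mp (by omega)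
  obtain ⟨B, hB⟩ : ∃ B : ℕ, ∀ x ∈ C, ∀ c, |x c| ≤ (B : ℤ) := by
    refine ⟨∑ x ∈ C, ∑ c, (x c).natAbs, fun x hx c => ?_⟩
    have h1 : (x c).natAbs ≤ ∑ c, (x c).natAbs :=
      Finset.single_le_sum (f := fun c => (x c).natAbs) (fun _ _ => Nat.zero_le _)
        (Finset.mem_univ c)
    have h2 : ∑ c, (x c).natAbs ≤ ∑ x ∈ C, ∑ c, (x c).natAbs :=
      Finset.single_le_sum (f := fun x : I → ℤ => ∑ c, (x c).natAbs) (fun _ _ => Nat.zero_le _) hx
    rw [Int.abs_eq_natAbs]
    exact_mod_cast h1.trans h2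
  let A : Finset (I → ℤ) := (Fintype.piFinset fun _ : I => Finset.Icc (-(B : ℤ)) B).filter
    (fun x => ph E i₀ B x = 1)
  have hA : ∀ x, x ∈ A ↔ ph E i₀ B x = 1 := by
    intro x
    refine ⟨fun h => (Finset.mem_filter.mp h).2, fun h => Finset.mem_filter.mpr ⟨?_, h⟩⟩
    exact Fintype.mem_piFinset.mpr fun c => Finset.mem_Icc.mpr
      (abs_le.mp (ph_bound C E hE hcl hI i₀ B hB B hB x h c))
  refine ⟨A, ?_, ?_⟩
  · ext ⟨x, i⟩
    rw [mem_bd]
    simp only [hA]
    have h1 := ph_step C E hE hcl i₀ B hB x i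
    have h2 : (x, i) ∈ E ↔ ind E (x, i) = 1 := by
      unfold ind
      by_cases h : (x, i) ∈ E <;> simp [h]
    rw [h2, ← h1]
    generalize ph E i₀ B x = a
    generalize ph E i₀ B (x + un i) = b
    revert a b
    decide
  · intro N hN x hx c
    exact ph_bound C E hE hcl hI i₀ B hB N hN x ((hA x).mp hx) c

end G1

open Classical in
theorem geo1 : GEO1 := by
  intro I _ _ hI C hC
  -- the class of admissible sets
  let S : (Finset (I → ℤ)) → Prop := fun A => 0 ∈ A ∧ bd A ⊆ bd C ∧
    ∀ N : ℕ, (∀ x ∈ C, ∀ c, |x c| ≤ N) → ∀ x ∈ A, ∀ c, |x c| ≤ N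
  have hS : ∃ n : ℕ, ∃ A, S A ∧ (bd A).card = n := ⟨_, C, ⟨hC, Finset.Subset.refl _, fun _ h => h⟩, rfl⟩
  obtain ⟨A, hA, hcard⟩ := Nat.find_spec hS
  have hmin : ∀ A', S A' → (bd A).card ≤ (bd A').card := by
    intro A' hA'
    rw [hcard]
    exact Nat.find_min' hS ⟨A', hA', rfl⟩
  obtain ⟨h0, hbd, hbox⟩ := hA
  refine ⟨A, h0, hbd, ?_, hbox⟩
  intro e he f hf
  by_contra hcon
  let E : Finset ((I → ℤ) × I) := (bd A).filter
    (fun g => Relation.ReflTransGen (fun a b => b ∈ bd A ∧ near a b) e g)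
  have hE : E ⊆ bd A := Finset.filter_subset _ _
  have heE : e ∈ E := Finset.mem_filter.mpr ⟨he, Relation.ReflTransGen.refl⟩
  have hfE : f ∉ E := fun h => hcon (Finset.mem_filter.mp h).2
  have hcl : ∀ g ∈ E, ∀ h ∈ bd A, near g h → h ∈ E := by
    intro g hg h hh hn
    exact Finset.mem_filter.mpr ⟨hh, (Finset.mem_filter.mp hg).2.tail ⟨hh, hn⟩⟩
  obtain ⟨A', hbd', hbox'⟩ := G1.split A E hE hcl hI
  have hbox'' : ∀ N : ℕ, (∀ x ∈ C, ∀ c, |x c| ≤ N) → ∀ x ∈ A', ∀ c, |x c| ≤ N :=
    fun N hN => hbox' N (hbox N hN)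
  by_cases h0' : (0 : I → ℤ) ∈ A'
  · have h1 := hmin A' ⟨h0', (hbd' ▸ hE).trans hbd, hbox''⟩
    rw [hbd'] at h1
    have h2 : E.card < (bd A).card := Finset.card_lt_card
      (Finset.ssubset_iff_subset_ne.mpr ⟨hE, fun h => hfE (h ▸ hf)⟩)
    omega
  · have hbd2 : ∀ g, g ∈ bd (symmDiff A A') → g ∈ bd A ∧ g ∉ E := by
      intro g hg
      rw [mem_bd, Finset.mem_symmDiff, Finset.mem_symmDiff] at hg
      have h5 : g ∈ E ↔ ¬ (g.1 ∈ A' ↔ g.1 + un g.2 ∈ A') := by rw [← hbd', mem_bd]
      obtain ⟨h6, h7⟩ := G1.prop_aux _ _ _ _ hg (fun h => mem_bd.mp (hE (h5.mpr h)))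
      exact ⟨mem_bd.mpr h6, fun h => (h5.mp h) h7⟩
    have h1 := hmin (symmDiff A A') ⟨?_, ?_, ?_⟩
    · have h2 : bd (symmDiff A A') ⊆ (bd A).erase e := by
        intro g hg
        obtain ⟨h3, h4⟩ := hbd2 g hg
        exact Finset.mem_erase.mpr ⟨fun h => h4 (h ▸ heE), h3⟩
      have h3 := Finset.card_le_card h2
      rw [Finset.card_erase_of_mem he] at h3
      have h4 : 0 < (bd A).card := Finset.card_pos.mpr ⟨e, he⟩
      omega
    · rw [Finset.mem_symmDiff]
      exact Or.inl ⟨h0, h0'⟩
    · intro g hg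
      exact hbd (hbd2 g hg).1
    · intro N hN x hx c
      rw [Finset.mem_symmDiff] at hx
      rcases hx with h | h
      · exact hbox N hN x h.1 c
      · exact hbox'' N hN x h.1 c

end Pool.Agent.K9h1.EB
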