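import Pool.Agent.K9h1.EB.Stm

/-!
# Leaf GIB: two Gibbs states (helper63)

Adapted from `Pool.Agent.H47R2.EA.{BASIC, GIBBSE}` and `Pool.Agent.K9h1.EA.Limit` to real couplings.
-/

set_option autoImplicit false

open MeasureTheory Filter Topology
open scoped ENNReal BoundedContinuousFunction

namespace Pool.Agent.K9h1.EB

namespace GB

variable {d : ℕ}

theorem edgesOf_mono {Λ' Λ : Finset (Site d)} (h : Λ' ⊆ Λ) : edgesOf Λ' ⊆ edgesOf Λ := by
  intro e he
  rw [mem_edgesOf] at he ⊢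
  exact he.imp (fun h1 => h h1) (fun h1 => h h1)

theorem xGib_ham_diff (J : Edge d → ℝ) {Λ' Λ : Finset (Site d)} (h : Λ' ⊆ Λ) (σ σ' : Site d → Bool)
    (hs : ∀ z, z ∉ Λ' → σ z = σ' z) :
    ham J Λ σ - ham J Λ' σ = ham J Λ σ' - ham J Λ' σ' := by
  unfold ham
  have h1 := Finset.sum_sdiff (f := fun e => J e * sg (σ e.1) * sg (σ (e.1 + un e.2)))
    (edgesOf_mono h)
  have h2 := Finset.sum_sdiff (f := fun e => J e * sg (σ' e.1) * sg (σ' (e.1 + un e.2)))
    (edgesOf_mono h)
  have h3 : ∑ e ∈ edgesOf Λ \ edgesOf Λ', J e * sg (σ e.1) * sg (σ (e.1 + un e.2)) =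
      ∑ e ∈ edgesOf Λ \ edgesOf Λ', J e * sg (σ' e.1) * sg (σ' (e.1 + un e.2)) := by
    apply Finset.sum_congr rfl
    intro e he
    rw [Finset.mem_sdiff, mem_edgesOf (Λ := Λ'), not_or] at he
    rw [hs _ he.2.1, hs _ he.2.2]
  linarith

theorem glue_mem {Λ : Finset (Site d)} (η : Λ → Bool) (ω : Site d → Bool) {x : Site d} (h : x ∈ Λ) :
    glue Λ η ω x = η ⟨x, h⟩ := by
  unfold glue
  rw [dif_pos h]

theorem glue_not_mem {Λ : Finset (Site d)} (η : Λ → Bool) (ω : Site d → Bool) {x : Site d}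
    (h : x ∉ Λ) : glue Λ η ω x = ω x := by
  unfold glue
  rw [dif_neg h]

theorem glue_congr {Λ : Finset (Site d)} (η : Λ → Bool) (ω ω' : Site d → Bool)
    (h : ∀ z, z ∉ Λ → ω z = ω' z) : glue Λ η ω = glue Λ η ω' := by
  funext z
  by_cases hz : z ∈ Λ
  · rw [glue_mem η ω hz, glue_mem η ω' hz]
  · rw [glue_not_mem η ω hz, glue_not_mem η ω' hz, h z hz]

theorem xGib_Zp_pos (β : ℝ) (J : Edge d → ℝ) (Λ : Finset (Site d)) (ω : Site d → Bool) :
    0 < Zp β J Λ ω := by
  unfold Zp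
  exact Finset.sum_pos (fun η _ => Real.exp_pos _) Finset.univ_nonempty

theorem xGib_Zp_congr (β : ℝ) (J : Edge d → ℝ) (Λ : Finset (Site d)) (ω ω' : Site d → Bool)
    (h : ∀ z, z ∉ Λ → ω z = ω' z) : Zp β J Λ ω = Zp β J Λ ω' := by
  unfold Zp
  apply Finset.sum_congr rfl
  intro η _
  rw [glue_congr η ω ω' h]

theorem gE_congr_out (β : ℝ) (J : Edge d → ℝ) (Λ : Finset (Site d)) (ω ω' : Site d → Bool)
    (f : (Site d → Bool) → ℝ) (h : ∀ z, z ∉ Λ → ω z = ω' z) : gE β J Λ ω f = gE β J Λ ω' f := by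
  unfold gE
  rw [xGib_Zp_congr β J Λ ω ω' h]
  congr 1
  apply Finset.sum_congr rfl
  intro η _
  rw [glue_congr η ω ω' h]

theorem xGib_gE_congr (β : ℝ) (J : Edge d → ℝ) (Λ : Finset (Site d)) (ω : Site d → Bool)
    (f f' : (Site d → Bool) → ℝ) (h : ∀ η : Λ → Bool, f (glue Λ η ω) = f' (glue Λ η ω)) :
    gE β J Λ ω f = gE β J Λ ω f' := by
  unfold gE
  congr 1
  apply Finset.sum_congr rfl
  intro η _
  rw [h η]



theorem gE_lin (β : ℝ) (J : Edge d → ℝ) (Λ : Finset (Site d)) (ω : Site d → Bool)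
    (f f' : (Site d → Bool) → ℝ) (c c' : ℝ) :
    gE β J Λ ω (fun σ => c * f σ + c' * f' σ) = c * gE β J Λ ω f + c' * gE β J Λ ω f' := by
  unfold gE
  rw [← mul_div_assoc, ← mul_div_assoc, ← add_div, Finset.mul_sum, Finset.mul_sum,
    ← Finset.sum_add_distrib]
  congr 1
  apply Finset.sum_congr rfl
  intro η _
  ring

section consistency

variable {Λ Λ' : Finset (Site d)} (hsub : Λ' ⊆ Λ)

open Classical in
/-- replace the values on the smaller set -/
noncomputable def md (η : Λ → Bool) (η' : Λ' → Bool) : Λ → Bool :=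
  fun z => if h : z.1 ∈ Λ' then η' ⟨z.1, h⟩ else η z

/-- restriction to the smaller set -/
def rs (hsub : Λ' ⊆ Λ) (η : Λ → Bool) : Λ' → Bool := fun z => η ⟨z.1, hsub z.2⟩

theorem md_md (η : Λ → Bool) (η' : Λ' → Bool) : md (md η η') (rs hsub η) = η := by
  funext z
  unfold md rs
  by_cases h : z.1 ∈ Λ'
  · rw [dif_pos h]
  · rw [dif_neg h, dif_neg h]

theorem rs_md (η : Λ → Bool) (η' : Λ' → Bool) : rs hsub (md η η') = η' := by
  funext z
  show (if h : z.1 ∈ Λ' then η' ⟨z.1, h⟩ else _) = η' z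
  rw [dif_pos z.2]

/-- the involution of pairs -/
noncomputable def sw : Equiv.Perm ((Λ → Bool) × (Λ' → Bool)) :=
  Function.Involutive.toPerm (fun p => (md p.1 p.2, rs hsub p.1)) (by
    rintro ⟨η, η'⟩
    exact Prod.ext (md_md hsub η η') (rs_md hsub η η'))

include hsub in
theorem glue_md (η : Λ → Bool) (η' : Λ' → Bool) (ω : Site d → Bool) :
    glue Λ (md η η') ω = glue Λ' η' (glue Λ η ω) := by
  funext z
  by_cases hz' : z ∈ Λ'
  · have hz := hsub hz'
    rw [glue_mem _ _ hz, glue_mem _ _ hz']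
    unfold md
    rw [dif_pos hz']
  · rw [glue_not_mem _ _ hz']
    by_cases hz : z ∈ Λ
    · rw [glue_mem _ _ hz, glue_mem _ _ hz]
      unfold md
      rw [dif_neg hz']
    · rw [glue_not_mem _ _ hz, glue_not_mem _ _ hz]

theorem glue_rs (η : Λ → Bool) (η' : Λ' → Bool) (ω : Site d → Bool) :
    glue Λ' (rs hsub η) (glue Λ (md η η') ω) = glue Λ η ω := by
  rw [← glue_md hsub, md_md]

include hsub in
theorem gE_cons (β : ℝ) (J : Edge d → ℝ) (ω : Site d → Bool) (f : (Site d → Bool) → ℝ) :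
    gE β J Λ ω f = gE β J Λ ω (fun τ => gE β J Λ' τ f) := by
  have key : ∑ η : Λ → Bool, Real.exp (β * ham J Λ (glue Λ η ω)) * f (glue Λ η ω) =
      ∑ η : Λ → Bool, Real.exp (β * ham J Λ (glue Λ η ω)) * gE β J Λ' (glue Λ η ω) f := by
    symm
    let H : (Λ → Bool) × (Λ' → Bool) → ℝ := fun p =>
      Real.exp (β * ham J Λ (glue Λ p.1 ω)) *
        (Real.exp (β * ham J Λ' (glue Λ' p.2 (glue Λ p.1 ω))) * f (glue Λ' p.2 (glue Λ p.1 ω))) /
          Zp β J Λ' (glue Λ p.1 ω)
    have h1 : ∑ η : Λ → Bool, Real.exp (β * ham J Λ (glue Λ η ω)) * gE β J Λ' (glue Λ η ω) f =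
        ∑ p : (Λ → Bool) × (Λ' → Bool), H p := by
      rw [Fintype.sum_prod_type]
      apply Finset.sum_congr rfl
      intro η _
      show Real.exp (β * ham J Λ (glue Λ η ω)) * ((∑ η' : Λ' → Bool, _) / _) = _
      rw [← mul_div_assoc, Finset.mul_sum, Finset.sum_div]
    rw [h1, ← Equiv.sum_comp (sw hsub) H, Fintype.sum_prod_type]
    apply Finset.sum_congr rfl
    intro η _
    have h2 : ∀ η' : Λ' → Bool, H (sw hsub (η, η')) =
        Real.exp (β * ham J Λ (glue Λ η ω)) * f (glue Λ η ω) / Zp β J Λ' (glue Λ η ω) *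
          Real.exp (β * ham J Λ' (glue Λ' η' (glue Λ η ω))) := by
      intro η'
      show Real.exp (β * ham J Λ (glue Λ (md η η') ω)) *
        (Real.exp (β * ham J Λ' (glue Λ' (rs hsub η) (glue Λ (md η η') ω))) *
          f (glue Λ' (rs hsub η) (glue Λ (md η η') ω))) /
          Zp β J Λ' (glue Λ (md η η') ω) = _
      rw [glue_rs, glue_md hsub]
      have ho : ∀ z, z ∉ Λ' → glue Λ' η' (glue Λ η ω) z = glue Λ η ω z :=
        fun z hz => glue_not_mem _ _ hz
      rw [xGib_Zp_congr β J Λ' _ _ ho]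
      have h3 := xGib_ham_diff J hsub _ _ ho
      have h4 : Real.exp (β * ham J Λ (glue Λ' η' (glue Λ η ω))) *
          Real.exp (β * ham J Λ' (glue Λ η ω)) =
          Real.exp (β * ham J Λ (glue Λ η ω)) *
            Real.exp (β * ham J Λ' (glue Λ' η' (glue Λ η ω))) := by
        rw [← Real.exp_add, ← Real.exp_add]
        congr 1
        linear_combination β * h3
      rw [← mul_assoc, h4]
      ring
    rw [Finset.sum_congr rfl (fun η' _ => h2 η'), ← Finset.mul_sum]
    exact div_mul_cancel₀ _ (xGib_Zp_pos β J Λ' _).ne'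
  show (∑ η : Λ → Bool, _) / _ = (∑ η : Λ → Bool, _) / _
  rw [key]

end consistency


theorem continuous_sg : Continuous sg := continuous_of_discreteTopology

theorem continuous_glue (Λ : Finset (Site d)) (η : Λ → Bool) :
    Continuous (fun ω : Site d → Bool => glue Λ η ω) := by
  apply continuous_pi
  intro x
  unfold glue
  by_cases h : x ∈ Λ
  · simp only [h, dif_pos]
    exact continuous_const
  · simp only [h, dif_neg, not_false_eq_true]
    exact continuous_apply x

theorem continuous_ham (J : Edge d → ℝ) (Λ : Finset (Site d)) :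
    Continuous (fun σ : Site d → Bool => ham J Λ σ) := by
  unfold ham
  refine continuous_finset_sum _ fun e _ => ?_
  exact (continuous_const.mul (continuous_sg.comp (continuous_apply e.1))).mul
    (continuous_sg.comp (continuous_apply (e.1 + un e.2)))

theorem continuous_wexp (β : ℝ) (J : Edge d → ℝ) (Λ : Finset (Site d)) (η : Λ → Bool) :
    Continuous (fun ω : Site d → Bool => Real.exp (β * ham J Λ (glue Λ η ω))) :=
  Real.continuous_exp.comp (continuous_const.mul
    ((continuous_ham J Λ).comp (continuous_glue Λ η)))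

theorem continuous_Zp (β : ℝ) (J : Edge d → ℝ) (Λ : Finset (Site d)) :
    Continuous (fun ω : Site d → Bool => Zp β J Λ ω) := by
  unfold Zp
  exact continuous_finset_sum _ fun η _ => continuous_wexp β J Λ η

/-- normalised weights -/
noncomputable def ww (β : ℝ) (J : Edge d → ℝ) (Λ : Finset (Site d)) (η : Λ → Bool)
    (ω : Site d → Bool) : ℝ := Real.exp (β * ham J Λ (glue Λ η ω)) / Zp β J Λ ω

theorem continuous_ww (β : ℝ) (J : Edge d → ℝ) (Λ : Finset (Site d)) (η : Λ → Bool) :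
    Continuous (ww β J Λ η) :=
  (continuous_wexp β J Λ η).div (continuous_Zp β J Λ) fun ω => (xGib_Zp_pos β J Λ ω).ne'

theorem ww_nonneg (β : ℝ) (J : Edge d → ℝ) (Λ : Finset (Site d)) (η : Λ → Bool)
    (ω : Site d → Bool) : 0 ≤ ww β J Λ η ω :=
  div_nonneg (Real.exp_pos _).le (xGib_Zp_pos β J Λ ω).le

theorem ww_sum (β : ℝ) (J : Edge d → ℝ) (Λ : Finset (Site d)) (ω : Site d → Bool) :
    ∑ η, ww β J Λ η ω = 1 := by
  unfold ww
  rw [← Finset.sum_div]
  exact div_self (xGib_Zp_pos β J Λ ω).ne'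

theorem ww_le_one (β : ℝ) (J : Edge d → ℝ) (Λ : Finset (Site d)) (η : Λ → Bool)
    (ω : Site d → Bool) : ww β J Λ η ω ≤ 1 := by
  rw [← ww_sum β J Λ ω]
  exact Finset.single_le_sum (fun η _ => ww_nonneg β J Λ η ω) (Finset.mem_univ η)

theorem gE_eq (β : ℝ) (J : Edge d → ℝ) (Λ : Finset (Site d)) (ω : Site d → Bool)
    (f : (Site d → Bool) → ℝ) :
    gE β J Λ ω f = ∑ η, ww β J Λ η ω * f (glue Λ η ω) := by
  unfold gE ww
  rw [Finset.sum_div]
  exact Finset.sum_congr rfl fun η _ => by ring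

theorem continuous_gE (β : ℝ) (J : Edge d → ℝ) (Λ : Finset (Site d))
    (f : (Site d → Bool) → ℝ) (hf : Continuous f) :
    Continuous (fun ω => gE β J Λ ω f) := by
  simp only [gE_eq]
  exact continuous_finset_sum _ fun η _ =>
    (continuous_ww β J Λ η).mul (hf.comp (continuous_glue Λ η))

/-- the Gibbs kernel applied to a measure -/
noncomputable def KK (β : ℝ) (J : Edge d → ℝ) (Λ : Finset (Site d))
    (π : Measure (Site d → Bool)) : Measure (Site d → Bool) :=
  ∑ η : Λ → Bool, (π.withDensity fun ω => ENNReal.ofReal (ww β J Λ η ω)).map (glue Λ η)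

theorem integral_KK (β : ℝ) (J : Edge d → ℝ) (Λ : Finset (Site d))
    (π : Measure (Site d → Bool)) [IsProbabilityMeasure π]
    (f : (Site d → Bool) → ℝ) (hf : Measurable f) (C : ℝ) (hC : ∀ x, |f x| ≤ C) :
    ∫ ω, f ω ∂(KK β J Λ π) = ∫ ω, gE β J Λ ω f ∂π := by
  have hg : ∀ η : Λ → Bool, Measurable (glue Λ η) := fun η => (continuous_glue Λ η).measurable
  have hw : ∀ η : Λ → Bool, Measurable (fun ω => ENNReal.ofReal (ww β J Λ η ω)) :=
    fun η => (continuous_ww β J Λ η).measurable.ennreal_ofReal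
  have hfin : ∀ η : Λ → Bool,
      IsFiniteMeasure (π.withDensity fun ω => ENNReal.ofReal (ww β J Λ η ω)) := by
    intro η
    apply isFiniteMeasure_withDensity
    have : ∫⁻ ω, ENNReal.ofReal (ww β J Λ η ω) ∂π ≤ ∫⁻ _, 1 ∂π := by
      apply lintegral_mono
      intro ω
      calc ENNReal.ofReal (ww β J Λ η ω) ≤ ENNReal.ofReal 1 :=
            ENNReal.ofReal_le_ofReal (ww_le_one β J Λ η ω)
        _ = 1 := ENNReal.ofReal_one
    refine ne_top_of_le_ne_top ?_ this
    simp
  have hint : ∀ η : Λ → Bool,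
      Integrable f ((π.withDensity fun ω => ENNReal.ofReal (ww β J Λ η ω)).map (glue Λ η)) := by
    intro η
    have := hfin η
    have h2 : IsFiniteMeasure
        ((π.withDensity fun ω => ENNReal.ofReal (ww β J Λ η ω)).map (glue Λ η)) :=
      Measure.isFiniteMeasure_map _ _
    exact Integrable.of_bound hf.aestronglyMeasurable C (ae_of_all _ hC)
  unfold KK
  rw [integral_finset_sum_measure fun η _ => hint η]
  have h1 : ∀ η : Λ → Bool,
      ∫ ω, f ω ∂((π.withDensity fun ω => ENNReal.ofReal (ww β J Λ η ω)).map (glue Λ η)) =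
        ∫ ω, ww β J Λ η ω * f (glue Λ η ω) ∂π := by
    intro η
    rw [integral_map (hg η).aemeasurable hf.aestronglyMeasurable,
      integral_withDensity_eq_integral_toReal_smul (hw η) (ae_of_all _ fun ω => ENNReal.ofReal_lt_top)]
    refine integral_congr_ae (ae_of_all _ fun ω => ?_)
    simp only [smul_eq_mul]
    rw [ENNReal.toReal_ofReal (ww_nonneg β J Λ η ω)]
  rw [Finset.sum_congr rfl fun η _ => h1 η, ← integral_finset_sum]
  · exact integral_congr_ae (ae_of_all _ fun ω => (gE_eq β J Λ ω f).symm)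
  · intro η _
    refine Integrable.of_bound ?_ C (ae_of_all _ fun ω => ?_)
    · exact ((continuous_ww β J Λ η).measurable.mul (hf.comp (hg η))).aestronglyMeasurable
    · rw [Real.norm_eq_abs, abs_mul, abs_of_nonneg (ww_nonneg β J Λ η ω)]
      calc ww β J Λ η ω * |f (glue Λ η ω)| ≤ 1 * |f (glue Λ η ω)| :=
            mul_le_mul_of_nonneg_right (ww_le_one β J Λ η ω) (abs_nonneg _)
        _ ≤ C := by rw [one_mul]; exact hC _

theorem prob_KK (β : ℝ) (J : Edge d → ℝ) (Λ : Finset (Site d))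
    (π : Measure (Site d → Bool)) [IsProbabilityMeasure π] :
    IsProbabilityMeasure (KK β J Λ π) := by
  constructor
  have hg : ∀ η : Λ → Bool, Measurable (glue Λ η) := fun η => (continuous_glue Λ η).measurable
  unfold KK
  rw [Measure.finset_sum_apply]
  have h1 : ∀ η : Λ → Bool,
      ((π.withDensity fun ω => ENNReal.ofReal (ww β J Λ η ω)).map (glue Λ η)) Set.univ =
        ∫⁻ ω, ENNReal.ofReal (ww β J Λ η ω) ∂π := by
    intro η
    rw [Measure.map_apply (hg η) MeasurableSet.univ, Set.preimage_univ,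
      withDensity_apply _ MeasurableSet.univ, Measure.restrict_univ]
  rw [Finset.sum_congr rfl fun η _ => h1 η, ← lintegral_finset_sum]
  · have h2 : ∀ ω, ∑ η, ENNReal.ofReal (ww β J Λ η ω) = 1 := by
      intro ω
      rw [← ENNReal.ofReal_sum_of_nonneg fun η _ => ww_nonneg β J Λ η ω, ww_sum,
        ENNReal.ofReal_one]
    simp only [h2]
    simp
  · intro η _
    exact (continuous_ww β J Λ η).measurable.ennreal_ofReal

theorem integral_KK_dirac (β : ℝ) (J : Edge d → ℝ) (Λ : Finset (Site d)) (ω₀ : Site d → Bool)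
    (f : (Site d → Bool) → ℝ) (hf : Measurable f) (C : ℝ) (hC : ∀ x, |f x| ≤ C) :
    ∫ ω, f ω ∂(KK β J Λ (Measure.dirac ω₀)) = gE β J Λ ω₀ f := by
  rw [integral_KK β J Λ _ f hf C hC, integral_dirac]


theorem sub_box (Λ : Finset (Site d)) : ∀ᶠ n : ℕ in atTop, Λ ⊆ box d n := by
  obtain ⟨N, hN⟩ : ∃ N : ℕ, ∀ x ∈ Λ, ∀ i, (x i).natAbs ≤ N := by
    refine ⟨∑ x ∈ Λ, ∑ i, (x i).natAbs, fun x hx i => ?_⟩
    calc (x i).natAbs ≤ ∑ i, (x i).natAbs :=
          Finset.single_le_sum (f := fun i => (x i).natAbs) (fun _ _ => Nat.zero_le _)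
            (Finset.mem_univ i)
      _ ≤ _ := Finset.single_le_sum (f := fun x : Site d => ∑ i, (x i).natAbs)
            (fun _ _ => Nat.zero_le _) hx
  filter_upwards [eventually_ge_atTop N] with n hn x hx
  unfold box
  rw [Finset.mem_Icc]
  refine ⟨fun i => ?_, fun i => ?_⟩
  · have := hN x hx i
    show -(n : ℤ) ≤ x i
    omega
  · have := hN x hx i
    show x i ≤ (n : ℤ)
    omega

/-- Gibbs states as limits along an ultrafilter of finite-volume measures -/
theorem exists_gibbs (β : ℝ) (J : Edge d → ℝ) (U : Ultrafilter ℕ) (hU : (U : Filter ℕ) ≤ atTop)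
    (ω₀ : Site d → Bool) : ∃ π : Measure (Site d → Bool), IsGibbs β J π ∧
      ∀ (f : (Site d → Bool) → ℝ), Continuous f →
        Tendsto (fun n => gE β J (box d n) ω₀ f) U (𝓝 (∫ ω, f ω ∂π)) := by
  let P : ℕ → ProbabilityMeasure (Site d → Bool) := fun n =>
    ⟨KK β J (box d n) (Measure.dirac ω₀), prob_KK β J (box d n) _⟩
  obtain ⟨π, -, hπ⟩ := (isCompact_univ (X := ProbabilityMeasure (Site d → Bool))).ultrafilter_le_nhds
    (U.map P) (by simp)
  have hlim : Tendsto P U (𝓝 π) := hπ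
  have hconv : ∀ f : (Site d → Bool) → ℝ, Continuous f →
      Tendsto (fun n => gE β J (box d n) ω₀ f) U (𝓝 (∫ ω, f ω ∂(π : Measure (Site d → Bool)))) := by
    intro f hf
    let F : (Site d → Bool) →ᵇ ℝ := BoundedContinuousFunction.mkOfCompact ⟨f, hf⟩
    have h1 := (ProbabilityMeasure.tendsto_iff_forall_integral_tendsto.mp hlim) F
    refine h1.congr fun n => ?_
    exact integral_KK_dirac β J (box d n) ω₀ f hf.measurable ‖F‖ fun x => F.norm_coe_le_norm x
  -- invariance
  have hinv : ∀ (Λ : Finset (Site d)) (f : (Site d → Bool) → ℝ), Continuous f →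
      ∫ ω, gE β J Λ ω f ∂(π : Measure (Site d → Bool)) =
        ∫ ω, f ω ∂(π : Measure (Site d → Bool)) := by
    intro Λ f hf
    have h1 := hconv f hf
    have h2 := hconv (fun ω => gE β J Λ ω f) (continuous_gE β J Λ f hf)
    refine tendsto_nhds_unique h2 (h1.congr' ?_)
    have h3 : ∀ᶠ n in (U : Filter ℕ), Λ ⊆ box d n := hU (sub_box Λ)
    filter_upwards [h3] with n hΛ
    exact gE_cons hΛ β J ω₀ f
  have hK : ∀ Λ : Finset (Site d), KK β J Λ (π : Measure (Site d → Bool)) =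
      (π : Measure (Site d → Bool)) := by
    intro Λ
    have := prob_KK β J Λ (π : Measure (Site d → Bool))
    haveI : TopologicalSpace.MetrizableSpace (Site d → Bool) :=
      TopologicalSpace.metrizableSpace_of_t3_secondCountable _
    letI : MetricSpace (Site d → Bool) := TopologicalSpace.metrizableSpaceMetric _
    apply ext_of_forall_integral_eq_of_IsFiniteMeasure
    intro f
    rw [integral_KK β J Λ _ f f.continuous.measurable ‖f‖ fun x => f.norm_coe_le_norm x]
    exact hinv Λ f f.continuous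
  refine ⟨π, ⟨inferInstance, ?_⟩, hconv⟩
  intro Λ A hA
  have hind : Measurable (A.indicator fun _ => (1 : ℝ)) := measurable_const.indicator hA
  have h1 := integral_KK β J Λ (π : Measure (Site d → Bool))
    (A.indicator fun _ => (1 : ℝ)) hind 1 (by
      intro x
      by_cases hx : x ∈ A
      · simp [hx]
      · simp [hx])
  rw [← h1, hK, integral_indicator hA]
  simp [Measure.real]

theorem continuous_cyl (Δ : Finset (Site d)) (η : Δ → Bool) : Continuous (cyl Δ η) := by
  classical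
  have h1 : cyl Δ η = fun σ => ∏ x : Δ, (if σ x = η x then (1 : ℝ) else 0) := by
    funext σ
    unfold cyl
    rw [Finset.prod_boole]
    simp
  rw [h1]
  refine continuous_finset_prod _ fun x _ => ?_
  exact (continuous_of_discreteTopology (f := fun b : Bool => if b = η x then (1 : ℝ) else 0)).comp
    (continuous_apply (x : Site d))

end GB

open GB in
theorem gib : GIB := by
  intro d β J ⟨Δ, η, hne⟩
  obtain ⟨D, hD⟩ : ∃ D : ℕ → ℝ, D = fun n : ℕ =>
    gE β J (box d n) (cst true) (cyl Δ η) - gE β J (box d n) (cst false) (cyl Δ η) := ⟨_, rfl⟩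
  rw [← hD, Metric.tendsto_atTop] at hne
  push Not at hne
  obtain ⟨ε, hε, hfr⟩ := hne
  have hfr' : ∃ᶠ n in atTop, ε ≤ dist (D n) 0 := by
    rw [frequently_atTop]
    intro N
    obtain ⟨n, hn, h1⟩ := hfr N
    exact ⟨n, hn, h1⟩
  have hne : NeBot (atTop ⊓ 𝓟 {n | ε ≤ dist (D n) 0}) := frequently_mem_iff_neBot.mp hfr'
  let U : Ultrafilter ℕ := Ultrafilter.of (atTop ⊓ 𝓟 {n | ε ≤ dist (D n) 0})
  have hU : (U : Filter ℕ) ≤ atTop ⊓ 𝓟 {n | ε ≤ dist (D n) 0} := Ultrafilter.of_le _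
  have hU1 : (U : Filter ℕ) ≤ atTop := hU.trans inf_le_left
  have hU2 : ∀ᶠ n in (U : Filter ℕ), ε ≤ dist (D n) 0 := by
    have h1 : (U : Filter ℕ) ≤ 𝓟 {n | ε ≤ dist (D n) 0} := hU.trans inf_le_right
    exact h1 (mem_principal_self _)
  obtain ⟨π, hπ, hπ'⟩ := exists_gibbs β J U hU1 (cst true)
  obtain ⟨π₂, hπ₂, hπ₂'⟩ := exists_gibbs β J U hU1 (cst false)
  refine ⟨π, π₂, ?_, hπ, hπ₂⟩
  rintro rfl
  have h1 := (hπ' _ (continuous_cyl Δ η)).sub (hπ₂' _ (continuous_cyl Δ η))
  rw [sub_self] at h1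
  have h2 : Tendsto D U (𝓝 0) := by rw [hD]; exact h1
  have h3 : ∀ᶠ n in (U : Filter ℕ), dist (D n) 0 < ε := (Metric.tendsto_nhds.mp h2) ε hε
  obtain ⟨n, h4, h5⟩ := (hU2.and h3).exists
  linarith

end Pool.Agent.K9h1.EB
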