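import Pool.Agent.K9h1.EB.Stm

/-! Leaf POIN (helper1, MP_81d17b_pr), by helper66: relative isoperimetric inequality in boxes. -/

set_option autoImplicit false
set_option linter.unusedSectionVars false
set_option linter.unusedSimpArgs false

namespace Pool.Agent.K9h1.EB

namespace Po

variable {I : Type} [Fintype I] [DecidableEq I]

/-- the hybrid: `y` on `S` and `x` off `S` -/
def hy (S : Finset I) (x y : I → ℤ) : I → ℤ := fun i => if i ∈ S then y i else x i

lemma hy_insert (S : Finset I) (c : I) (x y : I → ℤ) (hc : c ∉ S) :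
    hy (insert c S) x y = Function.update (hy S x y) c (hy S y x c) := by
  funext i
  by_cases h : i = c
  · subst h
    simp [hy, hc]
  · rw [Function.update_of_ne h]
    simp [hy, h]

lemma change (f : ℤ → Prop) (u v : ℤ) (huv : u ≤ v) (h : ¬ (f u ↔ f v)) :
    ∃ r, u ≤ r ∧ r < v ∧ ¬ (f r ↔ f (r + 1)) := by
  induction v, huv using Int.leInduction with
  | base => exact absurd Iff.rfl h
  | succ v hv ih =>
    by_cases h1 : f u ↔ f v
    · exact ⟨v, hv, by omega, fun h2 => h (h1.trans h2)⟩
    · obtain ⟨r, h2, h3, h4⟩ := ih h1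
      exact ⟨r, h2, by omega, h4⟩

lemma edge_on_line (a : I → ℤ) (s : I → ℕ) (A : Finset (I → ℤ)) (c : I) (z : I → ℤ) (t : ℤ)
    (hz : z ∈ Fintype.piFinset (fun c => Finset.Ico (a c) (a c + s c)))
    (ht : t ∈ Finset.Ico (a c) (a c + s c)) (h : ¬ (z ∈ A ↔ Function.update z c t ∈ A)) :
    ∃ p : I → ℤ, (p, c) ∈ (bd A).filter (fun e =>
      e.1 ∈ Fintype.piFinset (fun c => Finset.Ico (a c) (a c + s c)) ∧
      e.1 + un e.2 ∈ Fintype.piFinset (fun c => Finset.Ico (a c) (a c + s c))) ∧
      ∀ i, i ≠ c → z i = p i := by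
  have hzc := Finset.mem_Ico.mp (Fintype.mem_piFinset.mp hz c)
  rw [Finset.mem_Ico] at ht
  have key : ∃ r : ℤ, a c ≤ r ∧ r + 1 < a c + s c ∧
      ¬ (Function.update z c r ∈ A ↔ Function.update z c (r + 1) ∈ A) := by
    rcases le_total (z c) t with h1 | h1
    · obtain ⟨r, h2, h3, h4⟩ := change (fun r => Function.update z c r ∈ A) (z c) t h1
        (by simpa using h)
      exact ⟨r, by omega, by omega, h4⟩
    · obtain ⟨r, h2, h3, h4⟩ := change (fun r => Function.update z c r ∈ A) t (z c) h1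
        (by
          intro h5
          apply h
          simp only [Function.update_eq_self] at h5
          exact h5.symm)
      exact ⟨r, by omega, by omega, h4⟩
  obtain ⟨r, h1, h2, h3⟩ := key
  have hadd : Function.update z c r + un c = Function.update z c (r + 1) := by
    funext i
    by_cases hi : i = c
    · subst hi
      simp [un]
    · simp [un, hi]
  have hmem : ∀ r' : ℤ, a c ≤ r' → r' < a c + s c → Function.update z c r' ∈
      Fintype.piFinset (fun c => Finset.Ico (a c) (a c + s c)) := by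
    intro r' h4 h5
    rw [Fintype.mem_piFinset]
    intro i
    by_cases hi : i = c
    · subst hi
      rw [Function.update_self, Finset.mem_Ico]
      exact ⟨h4, h5⟩
    · rw [Function.update_of_ne hi]
      exact Fintype.mem_piFinset.mp hz i
  refine ⟨Function.update z c r, Finset.mem_filter.mpr ⟨mem_bd.mpr ?_, hmem r h1 (by omega), ?_⟩, ?_⟩
  · rw [hadd]
    exact h3
  · rw [hadd]
    exact hmem (r + 1) (by omega) h2
  · intro i hi
    rw [Function.update_of_ne hi]

open Classical in
lemma one_dir (a : I → ℤ) (s : I → ℕ) (N : ℕ) (hs : ∀ c, s c ≤ N) (A : Finset (I → ℤ)) (c : I)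
    (R : Finset (I → ℤ)) (hR : R = Fintype.piFinset (fun c => Finset.Ico (a c) (a c + s c))) :
    ((R ×ˢ R).filter (fun q => ¬ (q.1 ∈ A ↔ Function.update q.1 c (q.2 c) ∈ A))).card ≤
      R.card * N * (((bd A).filter (fun e => e.1 ∈ R ∧ e.1 + un e.2 ∈ R)).filter
        (fun e => e.2 = c)).card := by
  set F := ((bd A).filter (fun e => e.1 ∈ R ∧ e.1 + un e.2 ∈ R)).filter (fun e => e.2 = c) with hF
  have hsub : (R ×ˢ R).filter (fun q => ¬ (q.1 ∈ A ↔ Function.update q.1 c (q.2 c) ∈ A)) ⊆
      F.biUnion fun e => (R.filter (fun z => ∀ i, i ≠ c → z i = e.1 i)) ×ˢ R := by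
    intro q hq
    obtain ⟨h1, h2⟩ := Finset.mem_filter.mp hq
    rw [Finset.mem_product] at h1
    obtain ⟨hz, hw⟩ := h1
    have hz' := hz
    rw [hR] at hz' hw
    obtain ⟨p, hp, hpz⟩ := edge_on_line a s A c q.1 (q.2 c) hz' (Fintype.mem_piFinset.mp hw c) h2
    rw [← hR] at hp hw
    refine Finset.mem_biUnion.mpr ⟨(p, c), Finset.mem_filter.mpr ⟨hp, rfl⟩, ?_⟩
    exact Finset.mem_product.mpr ⟨Finset.mem_filter.mpr ⟨hz, hpz⟩, hw⟩
  refine (Finset.card_le_card hsub).trans ?_
  refine (Finset.card_biUnion_le_card_mul _ _ (N * R.card) ?_).trans (le_of_eq (by ring))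
  intro e _
  rw [Finset.card_product]
  refine Nat.mul_le_mul_right _ ?_
  have h1 : (R.filter (fun z => ∀ i, i ≠ c → z i = e.1 i)).card ≤
      (Finset.Ico (a c) (a c + s c)).card := by
    refine Finset.card_le_card_of_injOn (fun z => z c) ?_ ?_
    · intro z hz
      have hz1 := (Finset.mem_filter.mp (Finset.mem_coe.mp hz)).1
      rw [hR] at hz1
      exact Finset.mem_coe.mpr (Fintype.mem_piFinset.mp hz1 c)
    · intro z hz z' hz' h
      have h2 := (Finset.mem_filter.mp (Finset.mem_coe.mp hz)).2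
      have h3 := (Finset.mem_filter.mp (Finset.mem_coe.mp hz')).2
      funext i
      by_cases hi : i = c
      · rw [hi]
        exact h
      · rw [h2 i hi, h3 i hi]
  refine h1.trans ?_
  rw [Int.card_Ico]
  have := hs c
  omega

open Classical in
lemma all_dir (a : I → ℤ) (s : I → ℕ) (N : ℕ) (hs : ∀ c, s c ≤ N) (A : Finset (I → ℤ))
    (R : Finset (I → ℤ)) (hR : R = Fintype.piFinset (fun c => Finset.Ico (a c) (a c + s c)))
    (S : Finset I) :
    ((R ×ˢ R).filter (fun q => ¬ (q.1 ∈ A ↔ hy S q.1 q.2 ∈ A))).card ≤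
      ∑ c ∈ S, R.card * N * (((bd A).filter (fun e => e.1 ∈ R ∧ e.1 + un e.2 ∈ R)).filter
        (fun e => e.2 = c)).card := by
  induction S using Finset.induction_on with
  | empty =>
    rw [Finset.sum_empty, Nat.le_zero, Finset.card_eq_zero, Finset.filter_eq_empty_iff]
    intro q _ h
    apply h
    have : hy ∅ q.1 q.2 = q.1 := by funext i; simp [hy]
    rw [this]
  | insert c S hc ih =>
    rw [Finset.sum_insert hc, add_comm]
    have hsub : (R ×ˢ R).filter (fun q => ¬ (q.1 ∈ A ↔ hy (insert c S) q.1 q.2 ∈ A)) ⊆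
        (R ×ˢ R).filter (fun q => ¬ (q.1 ∈ A ↔ hy S q.1 q.2 ∈ A)) ∪
        (R ×ˢ R).filter (fun q => ¬ (hy S q.1 q.2 ∈ A ↔
          Function.update (hy S q.1 q.2) c (hy S q.2 q.1 c) ∈ A)) := by
      intro q hq
      obtain ⟨h1, h2⟩ := Finset.mem_filter.mp hq
      rw [hy_insert S c q.1 q.2 hc] at h2
      rw [Finset.mem_union, Finset.mem_filter, Finset.mem_filter]
      by_cases h3 : q.1 ∈ A ↔ hy S q.1 q.2 ∈ A
      · exact Or.inr ⟨h1, fun h4 => h2 (h3.trans h4)⟩
      · exact Or.inl ⟨h1, h3⟩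
    have hinj : ((R ×ˢ R).filter (fun q => ¬ (hy S q.1 q.2 ∈ A ↔
          Function.update (hy S q.1 q.2) c (hy S q.2 q.1 c) ∈ A))).card ≤
        ((R ×ˢ R).filter (fun q => ¬ (q.1 ∈ A ↔ Function.update q.1 c (q.2 c) ∈ A))).card := by
      refine Finset.card_le_card_of_injOn (fun q => (hy S q.1 q.2, hy S q.2 q.1)) ?_ ?_
      · intro q hq
        obtain ⟨h1, h2⟩ := Finset.mem_filter.mp (Finset.mem_coe.mp hq)
        rw [Finset.mem_product] at h1
        refine Finset.mem_coe.mpr (Finset.mem_filter.mpr ⟨Finset.mem_product.mpr ⟨?_, ?_⟩, h2⟩)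
        · obtain ⟨h3, h4⟩ := h1
          rw [hR] at h3 h4 ⊢
          rw [Fintype.mem_piFinset]
          intro i
          dsimp only [hy]
          split_ifs
          · exact Fintype.mem_piFinset.mp h4 i
          · exact Fintype.mem_piFinset.mp h3 i
        · obtain ⟨h3, h4⟩ := h1
          rw [hR] at h3 h4 ⊢
          rw [Fintype.mem_piFinset]
          intro i
          dsimp only [hy]
          split_ifs
          · exact Fintype.mem_piFinset.mp h3 i
          · exact Fintype.mem_piFinset.mp h4 i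
      · intro q _ q' _ h
        simp only [Prod.mk.injEq] at h
        obtain ⟨h1, h2⟩ := h
        refine Prod.ext ?_ ?_
        · funext i
          have h3 := congrFun h1 i
          have h4 := congrFun h2 i
          simp only [hy] at h3 h4
          split_ifs at h3 h4
          · exact h4
          · exact h3
        · funext i
          have h3 := congrFun h1 i
          have h4 := congrFun h2 i
          simp only [hy] at h3 h4
          split_ifs at h3 h4
          · exact h3
          · exact h4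
    calc _ ≤ _ := Finset.card_le_card hsub
      _ ≤ _ := Finset.card_union_le _ _
      _ ≤ _ := Nat.add_le_add ih (hinj.trans (one_dir a s N hs A c R hR))

end Po

open Classical in
theorem poin : POIN := by
  intro I _ _ a s N hs A R hR
  have h1 := Po.all_dir a s N hs A R hR Finset.univ
  have h2 : 2 * (A ∩ R).card * (R \ A).card ≤
      ((R ×ˢ R).filter (fun q => ¬ (q.1 ∈ A ↔ Po.hy Finset.univ q.1 q.2 ∈ A))).card := by
    have hdisj : Disjoint ((A ∩ R) ×ˢ (R \ A)) ((R \ A) ×ˢ (A ∩ R)) := by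
      rw [Finset.disjoint_left]
      intro q hq hq'
      rw [Finset.mem_product, Finset.mem_inter, Finset.mem_sdiff] at hq hq'
      exact hq'.1.2 hq.1.1
    have hsub : ((A ∩ R) ×ˢ (R \ A)) ∪ ((R \ A) ×ˢ (A ∩ R)) ⊆
        (R ×ˢ R).filter (fun q => ¬ (q.1 ∈ A ↔ Po.hy Finset.univ q.1 q.2 ∈ A)) := by
      intro q hq
      have hhy : Po.hy Finset.univ q.1 q.2 = q.2 := by
        funext i
        simp [Po.hy]
      rw [Finset.mem_filter, Finset.mem_product, hhy]
      rw [Finset.mem_union, Finset.mem_product, Finset.mem_product, Finset.mem_inter,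
        Finset.mem_sdiff, Finset.mem_sdiff, Finset.mem_inter] at hq
      rcases hq with ⟨⟨h3, h4⟩, h5, h6⟩ | ⟨⟨h3, h4⟩, h5, h6⟩
      · exact ⟨⟨h4, h5⟩, fun h => h6 (h.mp h3)⟩
      · exact ⟨⟨h3, h6⟩, fun h => h4 (h.mpr h5)⟩
    have h3 := Finset.card_le_card hsub
    rw [Finset.card_union_of_disjoint hdisj, Finset.card_product, Finset.card_product] at h3
    calc 2 * (A ∩ R).card * (R \ A).card =
        (A ∩ R).card * (R \ A).card + (R \ A).card * (A ∩ R).card := by ring
      _ ≤ _ := h3
  refine h2.trans (h1.trans (le_of_eq ?_))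
  rw [← Finset.mul_sum]
  congr 1
  rw [Finset.card_eq_sum_card_fiberwise (f := fun e : (I → ℤ) × I => e.2)
    (t := (Finset.univ : Finset I)) (fun _ _ => Finset.mem_univ _)]

end Pool.Agent.K9h1.EB
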