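import Pool.Agent.K9h1.EB.Stm

/-!
# Leaf SUBG
-/

set_option autoImplicit false

namespace Pool.Agent.K9h1.EB

section

variable {W : Type} [Fintype W] [DecidableEq W]

omit [Fintype W] in
lemma fl_fl (S T : Finset W) (s : W → Bool) : fl S (fl T s) = fl (symmDiff S T) s := by
  funext w
  unfold fl
  by_cases h1 : w ∈ S <;> by_cases h2 : w ∈ T <;> simp [h1, h2, Finset.mem_symmDiff]

omit [Fintype W] in
lemma fl_comm (S T : Finset W) (s : W → Bool) : fl S (fl T s) = fl T (fl S s) := by
  rw [fl_fl, fl_fl, symmDiff_comm]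

omit [Fintype W] in
lemma fl_invol (S : Finset W) (s : W → Bool) : fl S (fl S s) = s := by
  rw [fl_fl, symmDiff_self]
  funext w
  simp [fl]

/-- flipping is a bijection -/
def flE (S : Finset W) : (W → Bool) ≃ (W → Bool) where
  toFun := fl S
  invFun := fl S
  left_inv := fl_invol S
  right_inv := fl_invol S

/-- average over the flips of subsets of `D` -/
noncomputable def avg (D : Finset W) (h : (W → Bool) → ℝ) (s : W → Bool) : ℝ :=
  (∑ T ∈ D.powerset, h (fl T s)) / 2 ^ D.card

omit [Fintype W] in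
lemma avg_empty (h : (W → Bool) → ℝ) (s : W → Bool) : avg ∅ h s = h s := by
  have : fl (∅ : Finset W) s = s := by funext w; simp [fl]
  simp [avg, this]

omit [Fintype W] in
lemma avg_insert {D : Finset W} {w : W} (hw : w ∉ D) (h : (W → Bool) → ℝ) (s : W → Bool) :
    avg (insert w D) h s = (avg D h s + avg D h (fl {w} s)) / 2 := by
  unfold avg
  rw [Finset.sum_powerset_insert hw, Finset.card_insert_of_notMem hw]
  have : ∀ T ∈ D.powerset, h (fl (insert w T) s) = h (fl T (fl {w} s)) := by
    intro T hT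
    rw [fl_fl]
    congr 2
    ext v
    have hwT : w ∉ T := fun h => hw (Finset.mem_powerset.1 hT h)
    simp only [Finset.mem_insert, Finset.mem_symmDiff, Finset.mem_singleton]
    constructor
    · rintro (rfl | hv)
      · exact Or.inr ⟨rfl, hwT⟩
      · refine Or.inl ⟨hv, ?_⟩
        rintro rfl
        exact hwT hv
    · rintro (⟨hv, _⟩ | ⟨hv, _⟩)
      · exact Or.inr hv
      · exact Or.inl hv
  rw [Finset.sum_congr rfl this]
  rw [pow_succ]
  field_simp

omit [Fintype W] in
lemma avg_diff {D : Finset W} {h : (W → Bool) → ℝ} {c : ℝ}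
    (hc : ∀ s w, |h (fl {w} s) - h s| ≤ c) (s : W → Bool) (w : W) :
    |avg D h (fl {w} s) - avg D h s| ≤ c := by
  unfold avg
  rw [← sub_div, ← Finset.sum_sub_distrib, abs_div, abs_of_pos (by positivity : (0:ℝ) < 2 ^ D.card),
    div_le_iff₀ (by positivity)]
  calc |∑ T ∈ D.powerset, (h (fl T (fl {w} s)) - h (fl T s))|
      ≤ ∑ T ∈ D.powerset, |h (fl T (fl {w} s)) - h (fl T s)| := Finset.abs_sum_le_sum_abs _ _
    _ ≤ ∑ _T ∈ D.powerset, c := by
        refine Finset.sum_le_sum fun T _ => ?_
        rw [fl_comm]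
        exact hc _ _
    _ = c * 2 ^ D.card := by
        rw [Finset.sum_const, Finset.card_powerset, nsmul_eq_mul]
        push_cast
        ring

omit [Fintype W] in
lemma avg_odd {D : Finset W} {h : (W → Bool) → ℝ} (ho : ∀ s, h (fl D s) = - h s) (s : W → Bool) :
    avg D h s = 0 := by
  unfold avg
  have : ∑ T ∈ D.powerset, h (fl T s) = ∑ T ∈ D.powerset, (- h (fl T s)) := by
    refine Finset.sum_nbij' (fun T => D \ T) (fun T => D \ T) ?_ ?_ ?_ ?_ ?_
    · intro T _; simp
    · intro T _; simp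
    · intro T hT
      exact Finset.sdiff_sdiff_eq_self (Finset.mem_powerset.1 hT)
    · intro T hT
      exact Finset.sdiff_sdiff_eq_self (Finset.mem_powerset.1 hT)
    · intro T hT
      rw [← ho, fl_fl]
      congr 2
      ext v
      have hT' : v ∈ T → v ∈ D := fun h => Finset.mem_powerset.1 hT h
      simp only [Finset.mem_symmDiff, Finset.mem_sdiff]
      tauto
  rw [Finset.sum_neg_distrib] at this
  have h0 : ∑ T ∈ D.powerset, h (fl T s) = 0 := by linarith
  rw [h0, zero_div]

lemma two_exp (u v c : ℝ) (h : |u - v| ≤ c) :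
    (Real.exp u + Real.exp v) / 2 ≤ Real.exp ((u + v) / 2) * Real.exp (c ^ 2 / 8) := by
  have h1 : (Real.exp u + Real.exp v) / 2 = Real.exp ((u + v) / 2) * Real.cosh ((u - v) / 2) := by
    rw [Real.cosh_eq, mul_div_assoc', mul_add, ← Real.exp_add, ← Real.exp_add]
    congr 2
    · congr 1; ring
    · congr 1; ring
  rw [h1]
  refine mul_le_mul_of_nonneg_left ?_ (Real.exp_pos _).le
  refine (Real.cosh_le_exp_half_sq _).trans ?_
  refine Real.exp_le_exp.2 ?_
  have h2 : (u - v) ^ 2 ≤ c ^ 2 := by
    rw [← sq_abs (u - v)]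
    have := abs_nonneg (u - v)
    nlinarith
  nlinarith

lemma sum_exp_le (D : Finset W) {h : (W → Bool) → ℝ} {c : ℝ}
    (hc : ∀ s w, |h (fl {w} s) - h s| ≤ c) :
    ∑ s, Real.exp (h s) ≤ Real.exp (c ^ 2 / 8 * D.card) * ∑ s, Real.exp (avg D h s) := by
  induction D using Finset.induction_on with
  | empty => simp [avg_empty]
  | @insert w D hw ih =>
    refine ih.trans ?_
    rw [Finset.card_insert_of_notMem hw]
    have h1 : ∑ s, Real.exp (avg D h s) ≤
        Real.exp (c ^ 2 / 8) * ∑ s, Real.exp (avg (insert w D) h s) := by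
      have h2 : ∑ s, Real.exp (avg D h s) = ∑ s, Real.exp (avg D h (fl {w} s)) :=
        (Equiv.sum_comp (flE {w}) (fun s => Real.exp (avg D h s))).symm
      have h3 : ∑ s, Real.exp (avg D h s) =
          ∑ s, (Real.exp (avg D h s) + Real.exp (avg D h (fl {w} s))) / 2 := by
        rw [← Finset.sum_div, Finset.sum_add_distrib, ← h2]
        ring
      rw [h3, Finset.mul_sum]
      refine Finset.sum_le_sum fun s _ => ?_
      rw [avg_insert hw]
      refine (two_exp _ _ c ?_).trans ?_
      · rw [abs_sub_comm]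
        exact avg_diff hc s w
      · rw [mul_comm]
    calc Real.exp (c ^ 2 / 8 * D.card) * ∑ s, Real.exp (avg D h s)
        ≤ Real.exp (c ^ 2 / 8 * D.card) *
          (Real.exp (c ^ 2 / 8) * ∑ s, Real.exp (avg (insert w D) h s)) :=
          mul_le_mul_of_nonneg_left h1 (Real.exp_pos _).le
      _ = Real.exp (c ^ 2 / 8 * ((D.card + 1 : ℕ) : ℝ)) * ∑ s, Real.exp (avg (insert w D) h s) := by
          rw [← mul_assoc, ← Real.exp_add]
          congr 2
          push_cast
          ring

end

theorem subg : SUBG := by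
  intro W _ _ F b hb hF D1 D2 lam hlam n hn
  have hcard : (Fintype.card (W → Bool) : ℝ) = 2 ^ Fintype.card W := by
    simp
  by_cases h0 : b ^ 2 * n = 0
  · have : 8 * b ^ 2 * (n : ℝ) = 0 := by rw [mul_assoc, h0, mul_zero]
    rw [this, div_zero, neg_zero, Real.exp_zero, mul_one, ← hcard]
    exact_mod_cast Finset.card_le_univ _
  have hpos : 0 < b ^ 2 * n := lt_of_le_of_ne (by positivity) (Ne.symm h0)
  set D := symmDiff D1 D2 with hD
  set th : ℝ := lam / (4 * (b ^ 2 * n)) with hth
  have hth0 : 0 < th := by positivity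
  let g : (W → Bool) → ℝ := fun s => F (fl D s) - F s
  let h : (W → Bool) → ℝ := fun s => th * g s
  have hodd : ∀ s, h (fl D s) = - h s := by
    intro s
    simp only [h, g, fl_invol]
    ring
  have hdiff : ∀ s w, |h (fl {w} s) - h s| ≤ th * (4 * b) := by
    intro s w
    have h1 := hF (fl D s) w
    have h2 := hF s w
    simp only [h, g]
    rw [← mul_sub, abs_mul, abs_of_pos hth0]
    refine mul_le_mul_of_nonneg_left ?_ hth0.le
    rw [fl_comm D {w} s]
    rw [abs_le] at h1 h2 ⊢
    constructor <;> linarith [h1.1, h1.2, h2.1, h2.2]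
  have hsum := sum_exp_le D hdiff
  have havg : ∀ s, avg D h s = 0 := avg_odd hodd
  simp only [havg, Real.exp_zero, Finset.sum_const, Finset.card_univ, nsmul_eq_mul, mul_one] at hsum
  rw [hcard] at hsum
  -- transfer the set
  have hset : (((Finset.univ : Finset (W → Bool)).filter
      (fun s => lam ≤ F (fl D1 s) - F (fl D2 s))).card : ℝ) =
      (((Finset.univ : Finset (W → Bool)).filter (fun s => lam ≤ g s)).card : ℝ) := by
    congr 1
    refine Finset.card_bij (fun s _ => fl D2 s) ?_ ?_ ?_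
    · intro s hs
      rw [Finset.mem_filter] at hs ⊢
      refine ⟨Finset.mem_univ _, ?_⟩
      simp only [g]
      rw [fl_fl, hD, symmDiff_assoc, symmDiff_self, symmDiff_bot]
      exact hs.2
    · intro a _ c _ hac
      have := congrArg (fl D2) hac
      simpa [fl_invol] using this
    · intro t ht
      refine ⟨fl D2 t, ?_, fl_invol _ _⟩
      rw [Finset.mem_filter] at ht ⊢
      refine ⟨Finset.mem_univ _, ?_⟩
      rw [fl_fl, fl_invol, ← hD]
      exact ht.2
  rw [hset]
  set N := ((Finset.univ : Finset (W → Bool)).filter (fun s => lam ≤ g s)) with hN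
  have hmark : (N.card : ℝ) * Real.exp (th * lam) ≤ ∑ s, Real.exp (h s) := by
    calc (N.card : ℝ) * Real.exp (th * lam) = ∑ _s ∈ N, Real.exp (th * lam) := by
          rw [Finset.sum_const, nsmul_eq_mul]
      _ ≤ ∑ s ∈ N, Real.exp (h s) := by
          refine Finset.sum_le_sum fun s hs => ?_
          refine Real.exp_le_exp.2 ?_
          exact mul_le_mul_of_nonneg_left (Finset.mem_filter.1 hs).2 hth0.le
      _ ≤ ∑ s, Real.exp (h s) :=
          Finset.sum_le_sum_of_subset_of_nonneg (Finset.subset_univ _)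
            fun _ _ _ => (Real.exp_pos _).le
  have hfin := hmark.trans hsum
  have hDn : (D.card : ℝ) ≤ n := by exact_mod_cast hn
  have hexp : Real.exp ((th * (4 * b)) ^ 2 / 8 * D.card) ≤ Real.exp (lam ^ 2 / (8 * b ^ 2 * n)) := by
    refine Real.exp_le_exp.2 ?_
    calc (th * (4 * b)) ^ 2 / 8 * D.card ≤ (th * (4 * b)) ^ 2 / 8 * n := by gcongr
      _ = lam ^ 2 / (8 * b ^ 2 * n) := by
          rw [hth]
          have hb2 : b ^ 2 ≠ 0 := fun h => by simp [h] at hpos
          have hn2 : (n : ℝ) ≠ 0 := fun h => by simp [h] at hpos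
          have hb3 : b ≠ 0 := fun h => hb2 (by rw [h]; ring)
          field_simp
  have hlast : th * lam = lam ^ 2 / (8 * b ^ 2 * n) + lam ^ 2 / (8 * b ^ 2 * n) := by
    rw [hth]
    have hb2 : b ^ 2 ≠ 0 := fun h => by simp [h] at hpos
    have hn2 : (n : ℝ) ≠ 0 := fun h => by simp [h] at hpos
    have hb3 : b ≠ 0 := fun h => hb2 (by rw [h]; ring)
    field_simp
    ring
  set X := lam ^ 2 / (8 * b ^ 2 * n) with hX
  rw [hlast, Real.exp_add] at hfin
  have hXpos := Real.exp_pos X
  have h6 : (N.card : ℝ) * (Real.exp X * Real.exp X) ≤ Real.exp X * 2 ^ Fintype.card W :=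
    hfin.trans (mul_le_mul_of_nonneg_right hexp (by positivity))
  rw [Real.exp_neg]
  rw [← div_eq_mul_inv, le_div_iff₀ hXpos]
  nlinarith
 
end Pool.Agent.K9h1.EB
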