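import Pool.Agent.K9h1.EB.Stm

/-!
# The zero-one law (leaf ZO, by helper90 for helper1)
-/

set_option autoImplicit false
set_option linter.all false

open MeasureTheory Filter Topology ProbabilityTheory

namespace Pool.Agent.K9h1.EB

namespace Zo

variable {d : ℕ}

lemma xZO_Zp_pos (β : ℝ) (J : Edge d → ℝ) (Λ : Finset (Site d)) (ω : Site d → Bool) :
    0 < Zp β J Λ ω := by
  unfold Zp
  exact Finset.sum_pos (fun η _ => Real.exp_pos _) Finset.univ_nonempty

lemma xZO_gE_sum {ι : Type} (s : Finset ι) (β : ℝ) (J : Edge d → ℝ) (Λ : Finset (Site d))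
    (ω : Site d → Bool) (c : ι → ℝ) (f : ι → (Site d → Bool) → ℝ) :
    gE β J Λ ω (fun σ => ∑ i ∈ s, c i * f i σ) = ∑ i ∈ s, c i * gE β J Λ ω (f i) := by
  unfold gE
  simp_rw [← mul_div_assoc]
  rw [← Finset.sum_div]
  congr 1
  simp_rw [Finset.mul_sum]
  rw [Finset.sum_comm]
  apply Finset.sum_congr rfl
  intro i _
  apply Finset.sum_congr rfl
  intro η _
  ring

lemma gE_bounds (β : ℝ) (J : Edge d → ℝ) (Λ : Finset (Site d)) (ω : Site d → Bool)
    (f : (Site d → Bool) → ℝ) {c C : ℝ} (h1 : ∀ σ, c ≤ f σ) (h2 : ∀ σ, f σ ≤ C) :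
    c ≤ gE β J Λ ω f ∧ gE β J Λ ω f ≤ C := by
  have hZ := xZO_Zp_pos β J Λ ω
  unfold gE
  rw [le_div_iff₀ hZ, div_le_iff₀ hZ]
  unfold Zp
  rw [Finset.mul_sum, Finset.mul_sum]
  constructor
  · apply Finset.sum_le_sum
    intro η _
    rw [mul_comm]
    exact mul_le_mul_of_nonneg_left (h1 _) (Real.exp_pos _).le
  · apply Finset.sum_le_sum
    intro η _
    rw [mul_comm C]
    exact mul_le_mul_of_nonneg_left (h2 _) (Real.exp_pos _).le

/-- the local correction of the energy -/
noncomputable def dH (E : Finset (Edge d)) (D : Edge d → ℝ) (σ : Site d → Bool) : ℝ :=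
  ∑ e ∈ E, D e * sg (σ e.1) * sg (σ (e.1 + un e.2))

lemma abs_sg (b : Bool) : |sg b| = 1 := by
  cases b <;> simp [sg]

lemma dH_abs (E : Finset (Edge d)) (D : Edge d → ℝ) (σ : Site d → Bool) :
    |dH E D σ| ≤ ∑ e ∈ E, |D e| := by
  unfold dH
  refine (Finset.abs_sum_le_sum_abs _ _).trans (Finset.sum_le_sum fun e _ => ?_)
  rw [abs_mul, abs_mul, abs_sg, abs_sg, mul_one, mul_one]

lemma ham_change {J J' : Edge d → ℝ} {E : Finset (Edge d)} (h : ∀ e, e ∉ E → J' e = J e)
    {Λ : Finset (Site d)} (hE : E ⊆ edgesOf Λ) (σ : Site d → Bool) :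
    ham J' Λ σ = ham J Λ σ + dH E (fun e => J' e - J e) σ := by
  unfold ham dH
  have h1 : ∑ e ∈ E, (J' e - J e) * sg (σ e.1) * sg (σ (e.1 + un e.2)) =
      ∑ e ∈ edgesOf Λ, (J' e - J e) * sg (σ e.1) * sg (σ (e.1 + un e.2)) := by
    apply Finset.sum_subset hE
    intro e _ he
    rw [h e he]
    ring
  rw [h1, ← Finset.sum_add_distrib]
  apply Finset.sum_congr rfl
  intro e _
  ring

lemma gE_change (β : ℝ) {J J' : Edge d → ℝ} {E : Finset (Edge d)}
    (h : ∀ e, e ∉ E → J' e = J e) {Λ : Finset (Site d)} (hE : E ⊆ edgesOf Λ)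
    (ω : Site d → Bool) (f : (Site d → Bool) → ℝ) :
    gE β J' Λ ω f =
      gE β J Λ ω (fun σ => f σ * Real.exp (β * dH E (fun e => J' e - J e) σ)) /
        gE β J Λ ω (fun σ => Real.exp (β * dH E (fun e => J' e - J e) σ)) := by
  have hZ := (xZO_Zp_pos β J Λ ω).ne'
  have h2 : gE β J Λ ω (fun σ => Real.exp (β * dH E (fun e => J' e - J e) σ)) =
      Zp β J' Λ ω / Zp β J Λ ω := by
    unfold gE
    congr 1
    conv_rhs => unfold Zp
    apply Finset.sum_congr rfl
    intro η _
    rw [ham_change h hE, mul_add, Real.exp_add]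
  have h3 : gE β J Λ ω (fun σ => f σ * Real.exp (β * dH E (fun e => J' e - J e) σ)) =
      (∑ η : Λ → Bool, Real.exp (β * ham J' Λ (glue Λ η ω)) * f (glue Λ η ω)) / Zp β J Λ ω := by
    unfold gE
    congr 1
    apply Finset.sum_congr rfl
    intro η _
    rw [ham_change h hE, mul_add, Real.exp_add]
    ring
  rw [h2, h3, div_div_div_cancel_right₀ hZ]
  rfl

/-- `f` depends only on the values on `Δ` -/
def Loc (Δ : Finset (Site d)) (f : (Site d → Bool) → ℝ) : Prop :=
  ∀ σ σ' : Site d → Bool, (∀ x ∈ Δ, σ x = σ' x) → f σ = f σ'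

lemma loc_eq {Δ : Finset (Site d)} {f : (Site d → Bool) → ℝ} (hf : Loc Δ f) :
    f = fun σ => ∑ η : Δ → Bool, f (glue Δ η (cst true)) * cyl Δ η σ := by
  classical
  funext σ
  rw [Finset.sum_eq_single (fun x : Δ => σ x)]
  · rw [cyl, if_pos (fun x => rfl), mul_one]
    apply hf
    intro x hx
    rw [glue, dif_pos hx]
  · intro η _ hη
    rw [cyl, if_neg, mul_zero]
    intro h
    exact hη (funext fun x => (h x).symm)
  · intro h
    exact absurd (Finset.mem_univ _) h

/-- the hypothesis: no difference between the two boundary conditions in the limit -/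
def Uni (β : ℝ) (J : Edge d → ℝ) : Prop :=
  ∀ (Δ : Finset (Site d)) (η : Δ → Bool), Tendsto
    (fun n : ℕ => gE β J (box d n) (cst true) (cyl Δ η) - gE β J (box d n) (cst false) (cyl Δ η))
    atTop (nhds 0)

lemma nonuniq_iff (β : ℝ) (J : Edge d → ℝ) : Nonuniq β J ↔ ¬ Uni β J := by
  unfold Nonuniq Uni
  push Not
  rfl

lemma loc_tendsto {β : ℝ} {J : Edge d → ℝ} (h : Uni β J) {Δ : Finset (Site d)}
    {f : (Site d → Bool) → ℝ} (hf : Loc Δ f) :
    Tendsto (fun n : ℕ => gE β J (box d n) (cst true) f - gE β J (box d n) (cst false) f)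
      atTop (nhds 0) := by
  have h1 : ∀ n : ℕ, gE β J (box d n) (cst true) f - gE β J (box d n) (cst false) f =
      ∑ η : Δ → Bool, f (glue Δ η (cst true)) *
        (gE β J (box d n) (cst true) (cyl Δ η) - gE β J (box d n) (cst false) (cyl Δ η)) := by
    intro n
    conv_lhs => rw [loc_eq hf]
    rw [xZO_gE_sum, xZO_gE_sum, ← Finset.sum_sub_distrib]
    apply Finset.sum_congr rfl
    intro η _
    ring
  simp_rw [h1]
  have h2 : (0 : ℝ) = ∑ η : Δ → Bool, f (glue Δ η (cst true)) * 0 := by simp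
  rw [h2]
  exact tendsto_finset_sum _ fun η _ => (h Δ η).const_mul _

lemma ev_box (E : Finset (Edge d)) : ∀ᶠ n : ℕ in atTop, E ⊆ edgesOf (box d n) := by
  have h1 : ∀ᶠ n : ℕ in atTop, ∀ e ∈ E, ∀ c, (e.1 c).natAbs ≤ n := by
    rw [Filter.eventually_all_finset]
    intro e _
    rw [Filter.eventually_all]
    intro c
    exact eventually_ge_atTop _
  filter_upwards [h1] with n hn e he
  rw [mem_edgesOf]
  left
  unfold box
  rw [Finset.mem_Icc]
  constructor
  · intro c
    have := hn e he c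
    show -(n : ℤ) ≤ e.1 c
    omega
  · intro c
    have := hn e he c
    show e.1 c ≤ (n : ℤ)
    omega

lemma uni_change (β : ℝ) {J J' : Edge d → ℝ} {E : Finset (Edge d)}
    (h : ∀ e, e ∉ E → J' e = J e) (hU : Uni β J) : Uni β J' := by
  intro Δ η
  set g : (Site d → Bool) → ℝ := fun σ => Real.exp (β * dH E (fun e => J' e - J e) σ) with hg
  set M : ℝ := |β| * ∑ e ∈ E, |J' e - J e| with hM
  have hgb : ∀ σ, Real.exp (-M) ≤ g σ ∧ g σ ≤ Real.exp M := by
    intro σ
    have h1 : |β * dH E (fun e => J' e - J e) σ| ≤ M := by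
      rw [abs_mul]
      exact mul_le_mul_of_nonneg_left (dH_abs _ _ _) (abs_nonneg _)
    rw [abs_le] at h1
    exact ⟨Real.exp_le_exp.2 h1.1, Real.exp_le_exp.2 h1.2⟩
  have hcyl : ∀ σ, 0 ≤ cyl Δ η σ ∧ cyl Δ η σ ≤ 1 := by
    intro σ
    unfold cyl
    split_ifs <;> norm_num
  set V : Finset (Site d) := E.image Prod.fst ∪ E.image (fun e => e.1 + un e.2) with hV
  have hgl : Loc (Δ ∪ V) g := by
    intro σ σ' hs
    have : dH E (fun e => J' e - J e) σ = dH E (fun e => J' e - J e) σ' := by
      unfold dH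
      apply Finset.sum_congr rfl
      intro e he
      rw [hs e.1, hs (e.1 + un e.2)]
      · exact Finset.mem_union_right _ (Finset.mem_union_right _ (Finset.mem_image_of_mem (fun e : Edge d => e.1 + un e.2) he))
      · exact Finset.mem_union_right _ (Finset.mem_union_left _ (Finset.mem_image_of_mem _ he))
    simp only [hg, this]
  have hfl : Loc (Δ ∪ V) (fun σ => cyl Δ η σ * g σ) := by
    intro σ σ' hs
    have h1 : cyl Δ η σ = cyl Δ η σ' := by
      unfold cyl
      have : (∀ x : Δ, σ x = η x) ↔ (∀ x : Δ, σ' x = η x) :=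
        forall_congr' fun x => by rw [hs x (Finset.mem_union_left _ x.2)]
      simp only [this]
    simp only [h1, hgl σ σ' hs]
  have hP := loc_tendsto hU hfl
  have hQ := loc_tendsto hU hgl
  set P : ℕ → ℝ := fun n => gE β J (box d n) (cst true) (fun σ => cyl Δ η σ * g σ)
  set P' : ℕ → ℝ := fun n => gE β J (box d n) (cst false) (fun σ => cyl Δ η σ * g σ)
  set Q : ℕ → ℝ := fun n => gE β J (box d n) (cst true) g
  set Q' : ℕ → ℝ := fun n => gE β J (box d n) (cst false) g
  have hQb : ∀ n, Real.exp (-M) ≤ Q n ∧ Q n ≤ Real.exp M := fun n =>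
    gE_bounds _ _ _ _ _ (fun σ => (hgb σ).1) (fun σ => (hgb σ).2)
  have hQb' : ∀ n, Real.exp (-M) ≤ Q' n ∧ Q' n ≤ Real.exp M := fun n =>
    gE_bounds _ _ _ _ _ (fun σ => (hgb σ).1) (fun σ => (hgb σ).2)
  have hPb' : ∀ n, 0 ≤ P' n ∧ P' n ≤ Real.exp M := fun n =>
    gE_bounds _ _ _ _ _ (fun σ => mul_nonneg (hcyl σ).1 (Real.exp_pos _).le)
      (fun σ => by
        calc cyl Δ η σ * g σ ≤ 1 * g σ :=
              mul_le_mul_of_nonneg_right (hcyl σ).2 (Real.exp_pos _).le
          _ ≤ _ := by rw [one_mul]; exact (hgb σ).2)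
  have h0 : Tendsto (fun n => P n / Q n - P' n / Q' n) atTop (nhds 0) := by
    have hb : ∀ n, |P n / Q n - P' n / Q' n| ≤
        Real.exp (-M)⁻¹ * 0 + (Real.exp M * |P n - P' n| + Real.exp M * |Q n - Q' n|) /
          (Real.exp (-M) * Real.exp (-M)) := by
      intro n
      have q1 := (Real.exp_pos (-M)).trans_le (hQb n).1
      have q2 := (Real.exp_pos (-M)).trans_le (hQb' n).1
      have e1 : P n / Q n - P' n / Q' n =
          ((P n - P' n) * Q' n - P' n * (Q n - Q' n)) / (Q n * Q' n) := by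
        field_simp
        ring
      rw [e1, abs_div, abs_of_pos (mul_pos q1 q2), mul_zero, zero_add]
      apply div_le_div₀
      · positivity
      · refine (abs_sub _ _).trans (add_le_add ?_ ?_)
        · rw [abs_mul, mul_comm, abs_of_pos q2]
          exact mul_le_mul_of_nonneg_right (hQb' n).2 (abs_nonneg _)
        · rw [abs_mul, abs_of_nonneg (hPb' n).1]
          exact mul_le_mul_of_nonneg_right (hPb' n).2 (abs_nonneg _)
      · positivity
      · exact mul_le_mul (hQb n).1 (hQb' n).1 (Real.exp_pos _).le q1.le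
    have hlim : Tendsto (fun n => Real.exp (-M)⁻¹ * 0 +
        (Real.exp M * |P n - P' n| + Real.exp M * |Q n - Q' n|) /
          (Real.exp (-M) * Real.exp (-M))) atTop (nhds (Real.exp (-M)⁻¹ * 0 +
        (Real.exp M * |0| + Real.exp M * |0|) / (Real.exp (-M) * Real.exp (-M)))) :=
      (((hP.abs.const_mul _).add (hQ.abs.const_mul _)).div_const _).const_add _
    have e0 : Real.exp (-M)⁻¹ * 0 +
        (Real.exp M * |(0 : ℝ)| + Real.exp M * |(0 : ℝ)|) / (Real.exp (-M) * Real.exp (-M)) = 0 := by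
      simp
    rw [e0] at hlim
    exact squeeze_zero_norm hb hlim
  refine h0.congr' ?_
  filter_upwards [ev_box E] with n hn
  rw [gE_change β h hn, gE_change β h hn]

/-! ### measurability -/

lemma meas_J (b : Edge d → Bool → ℝ) (e : Edge d) :
    Measurable (fun s : Edge d → Bool => b e (s e)) :=
  (measurable_of_countable (b e)).comp (measurable_pi_apply e)

lemma xZO_meas_ham (b : Edge d → Bool → ℝ) (Λ : Finset (Site d)) (σ : Site d → Bool) :
    Measurable (fun s : Edge d → Bool => ham (fun e => b e (s e)) Λ σ) := by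
  unfold ham
  exact Finset.measurable_fun_sum _ fun e _ => ((meas_J b e).mul_const _).mul_const _

lemma xZO_meas_gE (β : ℝ) (b : Edge d → Bool → ℝ) (Λ : Finset (Site d))
    (ω : Site d → Bool) (f : (Site d → Bool) → ℝ) :
    Measurable (fun s : Edge d → Bool => gE β (fun e => b e (s e)) Λ ω f) := by
  unfold gE Zp
  apply Measurable.div
  · exact Finset.measurable_fun_sum _ fun η _ =>
      (((xZO_meas_ham b Λ _).const_mul β).exp).mul_const _
  · exact Finset.measurable_fun_sum _ fun η _ => ((xZO_meas_ham b Λ _).const_mul β).exp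

lemma xZO_meas_set (β : ℝ) (b : Edge d → Bool → ℝ) :
    MeasurableSet {s : Edge d → Bool | Nonuniq β (fun e => b e (s e))} := by
  have h1 : {s : Edge d → Bool | Nonuniq β (fun e => b e (s e))} =
      ⋃ (Δ : Finset (Site d)) (η : Δ → Bool), {s | Tendsto (fun n : ℕ =>
        gE β (fun e => b e (s e)) (box d n) (cst true) (cyl Δ η) -
          gE β (fun e => b e (s e)) (box d n) (cst false) (cyl Δ η)) atTop (nhds 0)}ᶜ := by
    ext s
    simp only [Set.mem_setOf_eq, Set.mem_iUnion, Set.mem_compl_iff]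
    rfl
  rw [h1]
  refine MeasurableSet.iUnion fun Δ => MeasurableSet.iUnion fun η => MeasurableSet.compl ?_
  exact measurableSet_tendsto (𝓝 0) fun n => (xZO_meas_gE β b _ _ _).sub (xZO_meas_gE β b _ _ _)

end Zo

open Zo in
theorem zo : ZO := by
  intro d β b ν hν
  refine ⟨xZO_meas_set β b, ?_⟩
  classical
  set B : Set (Edge d → Bool) := {s : Edge d → Bool | Nonuniq β (fun e => b e (s e))} with hB
  have hBm : MeasurableSet B := xZO_meas_set β b
  -- invariance
  have hinv : ∀ (F : Finset (Edge d)) (s s' : Edge d → Bool), (∀ e, e ∉ F → s e = s' e) →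
      s ∈ B → s' ∈ B := by
    intro F s s' h hs
    rw [hB, Set.mem_setOf_eq, nonuniq_iff] at hs ⊢
    intro hU
    apply hs
    refine uni_change β (E := F) ?_ hU
    intro e he
    rw [h e he]
  let m : Edge d → MeasurableSpace (Edge d → Bool) := fun e =>
    MeasurableSpace.comap (fun s => s e) inferInstance
  have hind : iIndep m (Measure.infinitePi ν) := by
    have h1 : iIndepFun (fun (e : Edge d) (s : Edge d → Bool) => s e) (Measure.infinitePi ν) := by
      exact iIndepFun_infinitePi (X := fun (e : Edge d) (b : Bool) => b) (fun e => measurable_id)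
    exact h1
  have hle : ∀ e, m e ≤ (inferInstance : MeasurableSpace (Edge d → Bool)) := fun e =>
    (measurable_pi_apply e).comap_le
  refine measure_zero_or_one_of_measurableSet_limsup (s := m) (f := cofinite)
    (p := Set.Finite) (ns := fun F : Finset (Edge d) => (F : Set (Edge d))) hle hind
    (fun t ht => ht.compl_mem_cofinite) ?_ (fun F => F.finite_toSet)
    (fun e => ⟨{e}, by simp⟩) ?_
  · intro F G
    exact ⟨F ∪ G, by simp, by simp⟩
  · rw [(hasBasis_cofinite).limsup_eq_iInf_iSup]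
    rw [MeasurableSpace.measurableSet_iInf]
    intro T
    rw [MeasurableSpace.measurableSet_iInf]
    intro hT
    -- the projection
    set ρ : (Edge d → Bool) → (Edge d → Bool) := fun s e => if e ∈ T then true else s e with hρ
    have hρm : @Measurable _ _ (⨆ e ∈ Tᶜ, m e) _ ρ := by
      apply @measurable_pi_lambda _ _ _ (⨆ e ∈ Tᶜ, m e)
      intro e
      by_cases he : e ∈ T
      · simp only [hρ, if_pos he]
        exact @measurable_const _ _ _ (⨆ e ∈ Tᶜ, m e) _
      · simp only [hρ, if_neg he]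
        have h1 : @Measurable _ _ (m e) _ (fun s : Edge d → Bool => s e) := comap_measurable _
        refine h1.mono ?_ le_rfl
        exact le_iSup₂_of_le e he le_rfl
    have hpre : B = ρ ⁻¹' B := by
      ext s
      constructor
      · intro hs
        refine hinv hT.toFinset s (ρ s) ?_ hs
        intro e he
        rw [Set.Finite.mem_toFinset] at he
        simp only [hρ, if_neg he]
      · intro hs
        refine hinv hT.toFinset (ρ s) s ?_ hs
        intro e he
        rw [Set.Finite.mem_toFinset] at he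
        simp only [hρ, if_neg he]
    rw [hpre]
    exact hρm hBm

end Pool.Agent.K9h1.EB
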