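import Pool.Agent.K9h1.EB.Stm2
import Pool.Agent.K9h1.EB.ZO

/-!
# The zero-one law for independent real couplings (leaf ZOR, by helper90 for helper1)
-/

set_option autoImplicit false
set_option linter.all false

open MeasureTheory Filter Topology ProbabilityTheory

namespace Pool.Agent.K9h1.EB

namespace Zor

variable {d : ℕ}

lemma meas_ham (Λ : Finset (Site d)) (σ : Site d → Bool) :
    Measurable (fun J : Edge d → ℝ => ham J Λ σ) := by
  unfold ham
  exact Finset.measurable_fun_sum _ fun e _ => ((measurable_pi_apply e).mul_const _).mul_const _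

lemma meas_gE (β : ℝ) (Λ : Finset (Site d)) (ω : Site d → Bool) (f : (Site d → Bool) → ℝ) :
    Measurable (fun J : Edge d → ℝ => gE β J Λ ω f) := by
  unfold gE Zp
  apply Measurable.div
  · exact Finset.measurable_fun_sum _ fun η _ =>
      (((meas_ham Λ _).const_mul β).exp).mul_const _
  · exact Finset.measurable_fun_sum _ fun η _ => ((meas_ham Λ _).const_mul β).exp

lemma meas_set (β : ℝ) : MeasurableSet {J : Edge d → ℝ | Nonuniq β J} := by
  have h1 : {J : Edge d → ℝ | Nonuniq β J} =
      ⋃ (Δ : Finset (Site d)) (η : Δ → Bool), {J | Tendsto (fun n : ℕ =>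
        gE β J (box d n) (cst true) (cyl Δ η) -
          gE β J (box d n) (cst false) (cyl Δ η)) atTop (nhds 0)}ᶜ := by
    ext s
    simp only [Set.mem_setOf_eq, Set.mem_iUnion, Set.mem_compl_iff]
    rfl
  rw [h1]
  refine MeasurableSet.iUnion fun Δ => MeasurableSet.iUnion fun η => MeasurableSet.compl ?_
  exact measurableSet_tendsto (𝓝 0) fun n => (meas_gE β _ _ _).sub (meas_gE β _ _ _)

end Zor

open Zor in
theorem zor : ZOR := by
  intro d β ν hν
  refine ⟨meas_set β, ?_⟩
  classical
  set B : Set (Edge d → ℝ) := {s : Edge d → ℝ | Nonuniq β s} with hB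
  have hBm : MeasurableSet B := meas_set β
  -- invariance
  have hinv : ∀ (F : Finset (Edge d)) (s s' : Edge d → ℝ), (∀ e, e ∉ F → s e = s' e) →
      s ∈ B → s' ∈ B := by
    intro F s s' h hs
    rw [hB, Set.mem_setOf_eq, Zo.nonuniq_iff] at hs ⊢
    intro hU
    exact hs (Zo.uni_change β (E := F) h hU)
  let m : Edge d → MeasurableSpace (Edge d → ℝ) := fun e =>
    MeasurableSpace.comap (fun s => s e) inferInstance
  have hind : iIndep m (Measure.infinitePi ν) := by
    have h1 : iIndepFun (fun (e : Edge d) (s : Edge d → ℝ) => s e) (Measure.infinitePi ν) := by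
      exact iIndepFun_infinitePi (X := fun (e : Edge d) (b : ℝ) => b) (fun e => measurable_id)
    exact h1
  have hle : ∀ e, m e ≤ (inferInstance : MeasurableSpace (Edge d → ℝ)) := fun e =>
    (measurable_pi_apply e).comap_le
  refine measure_zero_or_one_of_measurableSet_limsup (s := m) (f := cofinite)
    (p := Set.Finite) (ns := fun F : Finset (Edge d) => (F : Set (Edge d))) hle hind
    (fun t ht => ht.compl_mem_cofinite) ?_ (fun F => F.finite_toSet)
    (fun e => ⟨{e}, by simp⟩) ?_
  · intro F G
    exact ⟨F ∪ G, by simp, by simp⟩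
  · rw [(hasBasis_cofinite).limsup_eq_iInf_iSup]
    rw [MeasurableSpace.measurableSet_iInf]
    intro T
    rw [MeasurableSpace.measurableSet_iInf]
    intro hT
    -- the projection
    set ρ : (Edge d → ℝ) → (Edge d → ℝ) := fun s e => if e ∈ T then 0 else s e with hρ
    have hρm : @Measurable _ _ (⨆ e ∈ Tᶜ, m e) _ ρ := by
      apply @measurable_pi_lambda _ _ _ (⨆ e ∈ Tᶜ, m e)
      intro e
      by_cases he : e ∈ T
      · simp only [hρ, if_pos he]
        exact @measurable_const _ _ _ (⨆ e ∈ Tᶜ, m e) _
      · simp only [hρ, if_neg he]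
        have h1 : @Measurable _ _ (m e) _ (fun s : Edge d → ℝ => s e) := comap_measurable _
        refine h1.mono ?_ le_rfl
        exact le_iSup₂_of_le e he le_rfl
    have hpre : B = ρ ⁻¹' B := by
      ext s
      constructor
      · intro hs
        refine hinv hT.toFinset s (ρ s) ?_ hs
        intro e he
        rw [Set.Finite.mem_toFinset] at he
        simp only [hρ, if_neg he]
      · intro hs
        refine hinv hT.toFinset (ρ s) s ?_ hs
        intro e he
        rw [Set.Finite.mem_toFinset] at he
        simp only [hρ, if_neg he]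
    rw [hpre]
    exact hρm hBm

end Pool.Agent.K9h1.EB
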