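import Pool.Agent.K9h1.EB.Fv2
import Pool.Agent.K9h1.EB.Geo1
import Pool.Agent.K9h1.EB.Poin
import Pool.Agent.K9h1.EB.Geo2
import Pool.Agent.K9h1.EB.Tour
import Pool.Agent.K9h1.EB.Lists
import Pool.Agent.K9h1.EB.GEO3
import Pool.Agent.K9h1.EB.Subg
import Pool.Agent.K9h1.EB.CHAIN
import Pool.Agent.K9h1.EB.Pei
import Pool.Agent.K9h1.EB.Gib
import Pool.Agent.K9h1.EB.ZOR
import Pool.Agent.K9h1.EB.Flip
import Pool.Agent.K9h1.EB.Bads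

/-!
# Assembly
-/

set_option autoImplicit false

open MeasureTheory

namespace Pool.Agent.K9h1.EB

theorem main {d : ℕ} {S : Finset (Fin d)} (hS : 3 ≤ S.card) {M : ℝ} (hM : 0 ≤ M) :
    ∃ K0 p0 : ℝ, 0 < K0 ∧ 0 < p0 ∧ ∀ K : ℝ, K0 ≤ K → ∀ β : ℝ, 0 < β → K0 ≤ β * K →
      ∀ (ρ : Edge d → Measure ℝ) [∀ e, IsProbabilityMeasure (ρ e)],
      (∀ e : Edge d, e.2 ∈ S → ρ e {x | x < K} ≤ ENNReal.ofReal p0 ∧
        ρ e {x | x < -(M * K)} = 0) →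
      (∀ e : Edge d, e.2 ∉ S → (ρ e).map (fun x => -x) = ρ e ∧ ρ e {x | 1 < |x|} = 0) →
      ∀ᵐ J ∂(Measure.infinitePi ρ), ∃ π π' : Measure (Site d → Bool), π ≠ π' ∧
        IsGibbs β J π ∧ IsGibbs β J π' := by
  have h3 : GEO3 := geo3 geo2 tour lists
  have hc : CHAIN := chain geo2 h3 subg
  obtain ⟨K0, p0, hK0, hp0, H⟩ := ae_nonuniq2 geo1 hc (pei h3) zor flip bads hS hM
  refine ⟨K0, p0, hK0, hp0, ?_⟩
  intro K hK β hβ hβK ρ _ h1 h2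
  filter_upwards [H K hK β hβ hβK ρ h1 h2] with J hJ
  exact gib d β J hJ

end Pool.Agent.K9h1.EB
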