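import Pool.Agent.K9h1.EB.Defs

/-!
# Statements of the leaves (definitions of Props, proved in the files of the leaves)
-/

set_option autoImplicit false

open MeasureTheory Filter Topology

namespace Pool.Agent.K9h1.EB

/-- GEO1 -/
def GEO1 : Prop := ∀ (I : Type) [Fintype I] [DecidableEq I], 2 ≤ Fintype.card I →
  ∀ C : Finset (I → ℤ), 0 ∈ C → ∃ A : Finset (I → ℤ), 0 ∈ A ∧ bd A ⊆ bd C ∧ Conn (bd A) ∧
    ∀ N : ℕ, (∀ x ∈ C, ∀ c, |x c| ≤ N) → ∀ x ∈ A, ∀ c, |x c| ≤ N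

/-- POIN: relative isoperimetric inequality in boxes -/
def POIN : Prop := ∀ (I : Type) [Fintype I] [DecidableEq I] (a : I → ℤ) (s : I → ℕ) (N : ℕ),
  (∀ c, s c ≤ N) → ∀ A : Finset (I → ℤ), ∀ R : Finset (I → ℤ),
    R = Fintype.piFinset (fun c => Finset.Ico (a c) (a c + s c)) →
    2 * (A ∩ R).card * (R \ A).card ≤
      R.card * N * ((bd A).filter (fun e => e.1 ∈ R ∧ e.1 + un e.2 ∈ R)).card

/-- GEO2 -/
def GEO2 : Prop := ∀ (I : Type) [Fintype I] [DecidableEq I], 1 ≤ Fintype.card I →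
  ∀ n : ℕ, 1 ≤ n → ∀ A : Finset (I → ℤ),
    (bd (coarse n A)).card * n ^ (Fintype.card I - 1) ≤
      16 * Fintype.card I * (bd A).card ∧
    (A \ up n (coarse n A)).card + (up n (coarse n A) \ A).card ≤ n * (bd A).card ∧
    ∀ f ∈ bd (coarse n A), ∃ e ∈ bd A, ∀ c, f.1 c ≤ blk n e.1 c ∧ blk n e.1 c ≤ f.1 c + 1

/-- TOUR -/
def TOUR : Prop := ∀ (I : Type) [Fintype I] [DecidableEq I] (E : Finset ((I → ℤ) × I)),
  Conn E → ∀ e0 ∈ E, ∃ (T : ℕ) (w : ℕ → (I → ℤ) × I), w 0 = e0 ∧ T ≤ 2 * E.card ∧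
    (∀ t, w t ∈ E) ∧ (∀ t < T, near (w t) (w (t + 1))) ∧ ∀ e ∈ E, ∃ t ≤ T, w t = e

/-- LISTS -/
def LISTS : Prop := ∀ (I : Type) [Fintype I] [DecidableEq I] (x : ℝ), 0 < x → x ≤ 1 →
  ∀ (r L : ℕ) (p : I → ℤ) (F : Finset (List ((I → ℤ) × I))),
    (∀ l ∈ F, l.length = r ∧ len1 p l ≤ L) →
    (F.card : ℝ) ≤ Real.exp (x * L) * (Fintype.card I * (4 / x) ^ Fintype.card I) ^ r

/-- GEO3: the number of coarse-grained contours -/
def GEO3 : Prop := ∀ (I : Type) [Fintype I] [DecidableEq I], 3 ≤ Fintype.card I →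
  ∃ c : ℝ, 0 < c ∧ ∀ (m j : ℕ) (F : Finset (Finset (I → ℤ))),
    (∀ Q ∈ F, ∃ A : Finset (I → ℤ), IsCont m A ∧ Q = coarse (2 ^ j) A) →
    (F.card : ℝ) ≤ Real.exp (c * (1 + j) * m / 4 ^ j)

/-- SUBG: sub-Gaussian bound -/
def SUBG : Prop := ∀ (W : Type) [Fintype W] [DecidableEq W] (F : (W → Bool) → ℝ) (b : ℝ), 0 ≤ b →
  (∀ s w, |F (fl {w} s) - F s| ≤ 2 * b) → ∀ (D1 D2 : Finset W) (lam : ℝ), 0 < lam →
    ∀ n : ℕ, (symmDiff D1 D2).card ≤ n →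
    (((Finset.univ : Finset (W → Bool)).filter
      (fun s => lam ≤ F (fl D1 s) - F (fl D2 s))).card : ℝ) ≤
      2 ^ Fintype.card W * Real.exp (-(lam ^ 2 / (8 * b ^ 2 * n)))

open Classical in
/-- CHAIN: the chaining argument -/
def CHAIN : Prop := ∀ (I : Type) [Fintype I] [DecidableEq I], 3 ≤ Fintype.card I →
  ∀ (d : ℕ), 1 ≤ d → ∀ ε : ℝ, 0 < ε → ∃ K0 : ℝ, 0 < K0 ∧
    ∀ (W : Type) [Fintype W] [DecidableEq W] (F : (W → Bool) → ℝ) (β K : ℝ), 0 < β → K0 ≤ K →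
    (∀ s w, |F (fl {w} s) - F s| ≤ 2 * β) →
    ∀ E : Finset (I → ℤ) → Finset W, E ∅ = ∅ →
    (∀ A B, (symmDiff (E A) (E B)).card ≤ 2 * d * ((A \ B).card + (B \ A).card)) →
    ∀ 𝒞 : Finset (Finset (I → ℤ)),
    (((Finset.univ : Finset (W → Bool)).filter (fun s => ∃ A ∈ 𝒞, ∃ m : ℕ, IsCont m A ∧
      β * K * m < F (fl (E A) s) - F s)).card : ℝ) ≤ ε * 2 ^ Fintype.card W

/-- PEI: the sum over the contours (from `GEO3` with `j = 0`; every contour has `m ≥ 1`) -/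
def PEI : Prop := ∀ (I : Type) [Fintype I] [DecidableEq I], 3 ≤ Fintype.card I →
  ∀ ε : ℝ, 0 < ε → ∃ K0 : ℝ, 0 < K0 ∧ ∀ t : ℝ, K0 ≤ t → ∀ 𝒞 : Finset (Finset (I → ℤ)),
    (∀ A ∈ 𝒞, ∃ m, IsCont m A) → ∑ A ∈ 𝒞, Real.exp (-(t * (bd A).card)) ≤ ε

/-- GIB: existence of two Gibbs states -/
def GIB : Prop := ∀ (d : ℕ) (β : ℝ) (J : Edge d → ℝ), Nonuniq β J →
  ∃ π π' : Measure (Site d → Bool), π ≠ π' ∧ IsGibbs β J π ∧ IsGibbs β J π'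

/-- ZO: zero-one law, for couplings `b e (s e)` with independent `s e` -/
def ZO : Prop := ∀ (d : ℕ) (β : ℝ) (b : Edge d → Bool → ℝ) (ν : Edge d → Measure Bool)
  [∀ e, IsProbabilityMeasure (ν e)],
  MeasurableSet {s : Edge d → Bool | Nonuniq β (fun e => b e (s e))} ∧
  (Measure.infinitePi ν {s | Nonuniq β (fun e => b e (s e))} = 0 ∨
    Measure.infinitePi ν {s | Nonuniq β (fun e => b e (s e))} = 1)

/-- TR: the law of finitely many signs -/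
def TR : Prop := ∀ (d : ℕ) (E : Finset (Edge d)) (B : Finset (E → Bool)),
  (signLaw d {s | (fun e : E => s e) ∈ B}).toReal = (B.card : ℝ) / 2 ^ E.card

end Pool.Agent.K9h1.EB
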