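import Pool.Agent.K9h1.EB.Stm

/-!
# Leaf TR: the law of finitely many signs (helper63)
-/

set_option autoImplicit false

open MeasureTheory Filter Topology

namespace Pool.Agent.K9h1.EB

theorem tr : TR := by
  intro d E B
  unfold signLaw
  have h1 : {s : Edge d → Bool | (fun e : E => s e) ∈ B} =
      E.restrict ⁻¹' (B : Set (E → Bool)) := rfl
  have hm : MeasurableSet (B : Set (E → Bool)) := (Finset.finite_toSet B).measurableSet
  rw [h1, ← Measure.map_apply (Finset.measurable_restrict E) hm, Measure.infinitePi_map_restrict]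
  have hs : ∀ b : E → Bool,
      (Measure.pi (fun _ : E => (PMF.uniformOfFintype Bool).toMeasure)) {b} =
        (2 : ENNReal)⁻¹ ^ E.card := by
    intro b
    rw [Measure.pi_singleton]
    have : ∀ c : Bool, (PMF.uniformOfFintype Bool).toMeasure {c} = (2 : ENNReal)⁻¹ := by
      intro c
      rw [PMF.toMeasure_apply_singleton _ _ (measurableSet_singleton c)]
      simp
    rw [Finset.prod_congr rfl (fun e _ => this (b e))]
    simp
  rw [← sum_measure_singleton, Finset.sum_congr rfl (fun b _ => hs b), Finset.sum_const,
    nsmul_eq_mul, ENNReal.toReal_mul, ENNReal.toReal_pow, ENNReal.toReal_inv,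
    ENNReal.toReal_natCast, ENNReal.toReal_ofNat, div_eq_mul_inv, inv_pow]

end Pool.Agent.K9h1.EB
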